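import Mathlib

open Complex MeasureTheory Set Filter Topology
open scoped Real ComplexConjugate

namespace GG

/-- Dirichlet characters of all moduli (n + 1 is the modulus) -/
abbrev Ch : Type := Σ n : ℕ, DirichletCharacter ℂ (n + 1)

/-- a character as an arithmetic function -/
noncomputable def ch {q : ℕ} (χ : DirichletCharacter ℂ q) : ArithmeticFunction ℂ :=
  ⟨fun n => if n = 0 then 0 else χ (n : ZMod q), by simp⟩

/-- coefficients of zeta^(1/2): multiplicative, binom(2r,r)/4^r at p^r -/
noncomputable def hf : ArithmeticFunction ℝ :=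
  ⟨fun n => if n = 0 then 0 else n.factorization.prod (fun _ r => (r.centralBinom : ℝ) / 4 ^ r), by simp⟩

/-- coefficients of L(s,χ)^(1/2) -/
noncomputable def hch {q : ℕ} (χ : DirichletCharacter ℂ q) : ArithmeticFunction ℂ :=
  ⟨fun n => (hf n : ℂ) * ch χ n, by simp⟩

/-- coefficients of the product of the L-functions -/
noncomputable def aa {k : ℕ} (x : Fin k → Ch) : ArithmeticFunction ℂ := ∏ j, ch (x j).2

/-- coefficients of its square root -/
noncomputable def bb {k : ℕ} (x : Fin k → Ch) : ArithmeticFunction ℂ := ∏ j, hch (x j).2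

/-- the product of the L-functions -/
noncomputable def FL {k : ℕ} (x : Fin k → Ch) (s : ℂ) : ℂ :=
  ∏ j, DirichletCharacter.LFunction (x j).2 s

end GG
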