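import Pool.Agent.Lib.MP_0f5a55_nt.GG.D

open Complex MeasureTheory Set Filter Topology
open scoped Real ComplexConjugate

namespace GG

/-- symmetry of the antidiagonal sum of the central binomials -/
theorem G09_sym (r : ℕ) :
    r * ∑ ij ∈ Finset.HasAntidiagonal.antidiagonal r, ij.1.centralBinom * ij.2.centralBinom
        = 2 * ∑ ij ∈ Finset.HasAntidiagonal.antidiagonal r,
        ij.1 * (ij.1.centralBinom * ij.2.centralBinom) := by
  have hsw : ∑ ij ∈ Finset.HasAntidiagonal.antidiagonal r,
      ij.2 * (ij.1.centralBinom * ij.2.centralBinom)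
      = ∑ ij ∈ Finset.HasAntidiagonal.antidiagonal r,
      ij.1 * (ij.1.centralBinom * ij.2.centralBinom) := by
    rw [← Finset.Nat.sum_antidiagonal_swap]
    apply Finset.sum_congr rfl
    intro ij _
    simp only [Prod.fst_swap, Prod.snd_swap]
    ring
  calc _ = ∑ ij ∈ Finset.HasAntidiagonal.antidiagonal r,
        (ij.1 * (ij.1.centralBinom * ij.2.centralBinom)
          + ij.2 * (ij.1.centralBinom * ij.2.centralBinom)) := by
        rw [Finset.mul_sum]
        apply Finset.sum_congr rfl
        intro ij hij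
        rw [← Finset.HasAntidiagonal.mem_antidiagonal.1 hij]
        ring
    _ = _ := by
        rw [Finset.sum_add_distrib, hsw]
        ring

/-- convolution square of the central binomials, in terms of antidiagonals -/
theorem G09_conv (r : ℕ) :
    ∑ ij ∈ Finset.HasAntidiagonal.antidiagonal r, ij.1.centralBinom * ij.2.centralBinom
      = 4 ^ r := by
  induction r with
  | zero => simp
  | succ r ih =>
    have h1 := G09_sym (r + 1)
    have h2 := G09_sym r
    rw [Finset.Nat.sum_antidiagonal_succ (n := r)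
      (f := fun ij => ij.1 * (ij.1.centralBinom * ij.2.centralBinom))] at h1
    have h3 : ∑ ij ∈ Finset.HasAntidiagonal.antidiagonal r,
        ((ij.1 + 1) * ((ij.1 + 1).centralBinom * ij.2.centralBinom))
        = 4 * ∑ ij ∈ Finset.HasAntidiagonal.antidiagonal r,
          ij.1 * (ij.1.centralBinom * ij.2.centralBinom)
          + 2 * ∑ ij ∈ Finset.HasAntidiagonal.antidiagonal r,
          ij.1.centralBinom * ij.2.centralBinom := by
      rw [Finset.mul_sum, Finset.mul_sum, ← Finset.sum_add_distrib]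
      apply Finset.sum_congr rfl
      intro ij _
      rw [← mul_assoc, Nat.succ_mul_centralBinom_succ]
      ring
    simp only [zero_mul, zero_add] at h1
    rw [h3] at h1
    have h4 : (r + 1) * ∑ ij ∈ Finset.HasAntidiagonal.antidiagonal (r + 1),
        ij.1.centralBinom * ij.2.centralBinom = (r + 1) * 4 ^ (r + 1) := by
      rw [h1]
      rw [ih] at h2 ⊢
      rw [pow_succ]
      nlinarith
    exact Nat.eq_of_mul_eq_mul_left (Nat.succ_pos r) h4

theorem G09_hf_pp {p : ℕ} (hp : p.Prime) (r : ℕ) :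
    hf (p ^ r) = (r.centralBinom : ℝ) / 4 ^ r := by
  have h0 : p ^ r ≠ 0 := pow_ne_zero _ hp.ne_zero
  show (if p ^ r = 0 then (0 : ℝ)
    else (p ^ r).factorization.prod (fun _ r => (r.centralBinom : ℝ) / 4 ^ r)) = _
  rw [if_neg h0, hp.factorization_pow, Finsupp.prod_single_index]
  simp

theorem G09_hf_mult : hf.IsMultiplicative := by
  rw [ArithmeticFunction.IsMultiplicative.iff_ne_zero]
  constructor
  · show (if (1 : ℕ) = 0 then (0 : ℝ)
      else (1 : ℕ).factorization.prod (fun _ r => (r.centralBinom : ℝ) / 4 ^ r)) = _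
    simp
  · intro m n hm hn hmn
    show (if m * n = 0 then (0 : ℝ)
      else (m * n).factorization.prod (fun _ r => (r.centralBinom : ℝ) / 4 ^ r))
      = (if m = 0 then (0 : ℝ)
      else m.factorization.prod (fun _ r => (r.centralBinom : ℝ) / 4 ^ r))
      * (if n = 0 then (0 : ℝ)
      else n.factorization.prod (fun _ r => (r.centralBinom : ℝ) / 4 ^ r))
    rw [if_neg (mul_ne_zero hm hn), if_neg hm, if_neg hn,
      Nat.factorization_mul_of_coprime hmn,
      Finsupp.prod_add_index_of_disjoint]
    exact hmn.disjoint_primeFactors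

theorem G09_hf_sq : hf * hf = (ArithmeticFunction.zeta : ArithmeticFunction ℝ) := by
  rw [ArithmeticFunction.IsMultiplicative.eq_iff_eq_on_prime_powers _
    (G09_hf_mult.mul G09_hf_mult) _ ArithmeticFunction.isMultiplicative_zeta.natCast]
  intro p r hp
  have h0 : p ^ r ≠ 0 := pow_ne_zero _ hp.ne_zero
  rw [ArithmeticFunction.mul_apply, ArithmeticFunction.natCoe_apply,
    ArithmeticFunction.zeta_apply_ne h0, Nat.sum_divisorsAntidiagonal
      (f := fun a b => hf a * hf b), Nat.sum_divisors_prime_pow hp]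
  have h1 := G09_conv r
  rw [Finset.Nat.sum_antidiagonal_eq_sum_range_succ_mk] at h1
  have h2 : ((∑ k ∈ Finset.range r.succ, k.centralBinom * (r - k).centralBinom : ℕ) : ℝ)
      = 4 ^ r := by exact_mod_cast h1
  have h3 : ∀ k ∈ Finset.range (r + 1), hf (p ^ k) * hf (p ^ r / p ^ k)
      = ((k.centralBinom * (r - k).centralBinom : ℕ) : ℝ) / 4 ^ r := by
    intro k hk
    have hk' : k ≤ r := Nat.lt_succ_iff.1 (Finset.mem_range.1 hk)
    rw [Nat.pow_div hk' hp.pos, G09_hf_pp hp, G09_hf_pp hp, div_mul_div_comm, ← pow_add,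
      Nat.add_sub_cancel' hk']
    push_cast
    rfl
  rw [Finset.sum_congr rfl h3, ← Finset.sum_div, ← Nat.cast_sum, h2]
  simp

theorem G09_hf_nonneg (n : ℕ) : 0 ≤ hf n := by
  show 0 ≤ (if n = 0 then (0 : ℝ)
      else n.factorization.prod (fun _ r => (r.centralBinom : ℝ) / 4 ^ r))
  split_ifs with h
  · exact le_rfl
  · apply Finset.prod_nonneg
    intro p _
    positivity

theorem G09_hf_le (n : ℕ) : hf n ≤ 1 := by
  show (if n = 0 then (0 : ℝ)
      else n.factorization.prod (fun _ r => (r.centralBinom : ℝ) / 4 ^ r)) ≤ 1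
  split_ifs with h
  · exact zero_le_one
  · apply Finset.prod_le_one
    · intro p _
      positivity
    · intro p _
      rw [div_le_one (by positivity)]
      exact_mod_cast Nat.centralBinom_le_four_pow _

theorem G09_ch_apply {q : ℕ} (χ : DirichletCharacter ℂ q) {n : ℕ} (hn : n ≠ 0) :
    ch χ n = χ (n : ZMod q) := by
  show (if n = 0 then (0 : ℂ) else χ (n : ZMod q)) = _
  rw [if_neg hn]

theorem G09_hch_apply {q : ℕ} (χ : DirichletCharacter ℂ q) (n : ℕ) :
    hch χ n = (hf n : ℂ) * ch χ n := rfl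

/-- Row G09. Algebra of the coefficients. -/
theorem ch_mult {q : ℕ} (χ : DirichletCharacter ℂ q) : (ch χ).IsMultiplicative := by
  rw [ArithmeticFunction.IsMultiplicative.iff_ne_zero]
  constructor
  · rw [G09_ch_apply χ one_ne_zero]
    simp
  · intro m n hm hn hmn
    rw [G09_ch_apply χ hm, G09_ch_apply χ hn, G09_ch_apply χ (mul_ne_zero hm hn)]
    push_cast
    exact map_mul χ _ _

theorem G09_ch_mul {q : ℕ} (χ : DirichletCharacter ℂ q) (m n : ℕ) :
    ch χ (m * n) = ch χ m * ch χ n := by
  rcases eq_or_ne m 0 with rfl | hm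
  · simp
  rcases eq_or_ne n 0 with rfl | hn
  · simp
  rw [G09_ch_apply χ hm, G09_ch_apply χ hn, G09_ch_apply χ (mul_ne_zero hm hn)]
  push_cast
  exact map_mul χ _ _

theorem G09_ch_norm {q : ℕ} (χ : DirichletCharacter ℂ q) (n : ℕ) : ‖ch χ n‖ ≤ 1 := by
  rcases eq_or_ne n 0 with rfl | hn
  · simp
  rw [G09_ch_apply χ hn]
  exact χ.norm_le_one _

theorem hch_sq {q : ℕ} (χ : DirichletCharacter ℂ q) : hch χ * hch χ = ch χ := by
  ext n
  rcases eq_or_ne n 0 with rfl | hn
  · simp
  rw [ArithmeticFunction.mul_apply]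
  have h1 : ∀ x ∈ n.divisorsAntidiagonal, hch χ x.1 * hch χ x.2
      = ((hf x.1 * hf x.2 : ℝ) : ℂ) * ch χ n := by
    intro x hx
    rw [← (Nat.mem_divisorsAntidiagonal.1 hx).1, G09_ch_mul, G09_hch_apply, G09_hch_apply]
    push_cast
    ring
  rw [Finset.sum_congr rfl h1, ← Finset.sum_mul, ← Complex.ofReal_sum,
    ← ArithmeticFunction.mul_apply, G09_hf_sq, ArithmeticFunction.natCoe_apply,
    ArithmeticFunction.zeta_apply_ne hn]
  simp

theorem bb_sq {k : ℕ} (x : Fin k → Ch) : bb x * bb x = aa x := by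
  unfold bb aa
  rw [← Finset.prod_mul_distrib]
  exact Finset.prod_congr rfl (fun j _ => hch_sq _)

theorem G09_hch_mult {q : ℕ} (χ : DirichletCharacter ℂ q) : (hch χ).IsMultiplicative := by
  constructor
  · rw [G09_hch_apply, G09_hf_mult.map_one, (ch_mult χ).map_one]
    simp
  · intro m n hmn
    rw [G09_hch_apply, G09_hch_apply, G09_hch_apply, G09_hf_mult.map_mul_of_coprime hmn,
      (ch_mult χ).map_mul_of_coprime hmn]
    push_cast
    ring

theorem bb_mult {k : ℕ} (x : Fin k → Ch) : (bb x).IsMultiplicative :=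
  ArithmeticFunction.isMultiplicative_finsetProd _ _ (fun _ _ => G09_hch_mult _)

theorem bb_prime {k : ℕ} (x : Fin k → Ch) {p : ℕ} (hp : p.Prime) :
    bb x p = 1 / 2 * ∑ j, (x j).2 ((p : ℕ) : ZMod ((x j).1 + 1)) := by
  have key : ∀ s : Finset (Fin k), (∏ j ∈ s, hch (x j).2) p = ∑ j ∈ s, hch (x j).2 p := by
    intro s
    induction s using Finset.induction_on with
    | empty =>
      rw [Finset.prod_empty, Finset.sum_empty]
      exact ArithmeticFunction.one_apply_ne hp.ne_one
    | insert a s ha ih =>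
      rw [Finset.prod_insert ha, Finset.sum_insert ha, ArithmeticFunction.mul_apply,
        Nat.sum_divisorsAntidiagonal (f := fun a' b => hch (x a).2 a'
          * (∏ j ∈ s, hch (x j).2) b), hp.sum_divisors]
      rw [Nat.div_self hp.pos, Nat.div_one, ih,
        (ArithmeticFunction.isMultiplicative_finsetProd (fun j => hch (x j).2) s
          (fun _ _ => G09_hch_mult _)).map_one, (G09_hch_mult _).map_one]
      ring
  unfold bb
  rw [key, Finset.mul_sum]
  apply Finset.sum_congr rfl
  intro j _
  have h1 := G09_hf_pp hp 1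
  rw [pow_one] at h1
  rw [G09_hch_apply, G09_ch_apply _ hp.ne_zero, h1]
  norm_num [Nat.centralBinom, Nat.choose]

theorem G09_hch_norm {q : ℕ} (χ : DirichletCharacter ℂ q) (n : ℕ) : ‖hch χ n‖ ≤ 1 := by
  rw [G09_hch_apply, norm_mul, Complex.norm_real, Real.norm_of_nonneg (G09_hf_nonneg n)]
  exact mul_le_one₀ (G09_hf_le n) (norm_nonneg _) (G09_ch_norm χ n)

/-- at prime powers, and absolute convergence -/
theorem bb_le {k : ℕ} (x : Fin k → Ch) {p : ℕ} (hp : p.Prime) (r : ℕ) :
    ‖bb x (p ^ r)‖ ≤ ((r : ℝ) + 1) ^ k := by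
  have key : ∀ s : Finset (Fin k), ∀ r : ℕ, ‖(∏ j ∈ s, hch (x j).2) (p ^ r)‖
      ≤ ((r : ℝ) + 1) ^ s.card := by
    intro s
    induction s using Finset.induction_on with
    | empty =>
      intro r
      rw [Finset.prod_empty, Finset.card_empty, pow_zero, ArithmeticFunction.one_apply]
      split_ifs <;> simp
    | insert a s ha ih =>
      intro r
      rw [Finset.prod_insert ha, Finset.card_insert_of_notMem ha,
        ArithmeticFunction.mul_apply,
        Nat.sum_divisorsAntidiagonal (f := fun a' b => hch (x a).2 a'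
          * (∏ j ∈ s, hch (x j).2) b), Nat.sum_divisors_prime_pow hp]
      refine (norm_sum_le _ _).trans ?_
      have h1 : ∀ i ∈ Finset.range (r + 1),
          ‖hch (x a).2 (p ^ i) * (∏ j ∈ s, hch (x j).2) (p ^ r / p ^ i)‖
          ≤ ((r : ℝ) + 1) ^ s.card := by
        intro i hi
        have hi' : i ≤ r := Nat.lt_succ_iff.1 (Finset.mem_range.1 hi)
        rw [Nat.pow_div hi' hp.pos, norm_mul]
        have h2 := ih (r - i)
        have h3 : (((r - i : ℕ) : ℝ) + 1) ^ s.card ≤ ((r : ℝ) + 1) ^ s.card := by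
          apply pow_le_pow_left₀ (by positivity)
          have : ((r - i : ℕ) : ℝ) ≤ r := by exact_mod_cast Nat.sub_le r i
          linarith
        calc _ ≤ 1 * (((r : ℝ) + 1) ^ s.card) :=
              mul_le_mul (G09_hch_norm _ _) (h2.trans h3) (norm_nonneg _) zero_le_one
          _ = _ := one_mul _
      refine (Finset.sum_le_sum h1).trans ?_
      rw [Finset.sum_const, Finset.card_range, nsmul_eq_mul, pow_succ]
      push_cast
      exact le_of_eq (by ring)
  have h := key Finset.univ r
  rw [Finset.card_univ, Fintype.card_fin] at h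
  exact h

theorem G09_one (s : ℂ) : LSeriesSummable (⇑(1 : ArithmeticFunction ℂ)) s ∧
    LSeries (⇑(1 : ArithmeticFunction ℂ)) s = 1 := by
  have h : (⇑(1 : ArithmeticFunction ℂ)) = LSeries.delta := by
    funext n
    rw [ArithmeticFunction.one_apply, LSeries.delta]
  rw [h]
  refine ⟨?_, ?_⟩
  · unfold LSeriesSummable
    refine summable_of_ne_finset_zero (s := {1}) (fun n hn => ?_)
    rw [LSeries.term_delta, if_neg (by simpa using hn)]
  · rw [LSeries_delta]
    simp

theorem G09_lss {k : ℕ} (x : Fin k → Ch) {s : ℂ} (hs : 1 < s.re) :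
    LSeriesSummable (bb x) s := by
  have key : ∀ t : Finset (Fin k), LSeriesSummable (⇑(∏ j ∈ t, hch (x j).2)) s := by
    intro t
    induction t using Finset.induction_on with
    | empty =>
      rw [Finset.prod_empty]
      exact (G09_one s).1
    | insert a t ha ih =>
      rw [Finset.prod_insert ha]
      refine ArithmeticFunction.LSeriesSummable_mul ?_ ih
      exact LSeriesSummable_of_bounded_of_one_lt_re (m := 1)
        (fun n _ => G09_hch_norm _ n) hs
  exact key Finset.univ

theorem bb_summable {k : ℕ} (x : Fin k → Ch) {σ : ℝ} (hσ : 1 < σ) :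
    Summable (fun n : ℕ => ‖bb x n‖ * (n : ℝ) ^ (-σ)) := by
  have h := (G09_lss x (s := (σ : ℂ)) (by simpa using hσ)).norm
  refine h.congr (fun n => ?_)
  rcases eq_or_ne n 0 with rfl | hn
  · simp
  · rw [LSeries.norm_term_eq, if_neg hn, Complex.ofReal_re,
      Real.rpow_neg (Nat.cast_nonneg n), div_eq_mul_inv]

/-- the comparison functions zeta^(2^m) -/
noncomputable def G09_D (m : ℕ) : ArithmeticFunction ℝ :=
  (ArithmeticFunction.zeta : ArithmeticFunction ℝ) ^ (2 ^ m)

theorem G09_D_succ (m : ℕ) : G09_D (m + 1) = G09_D m * G09_D m := by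
  unfold G09_D
  rw [← pow_add, pow_succ, mul_two]

theorem G09_D_pp (m : ℕ) {p : ℕ} (hp : p.Prime) (r : ℕ) :
    ((r : ℝ) + 1) ^ m ≤ G09_D m (p ^ r) := by
  induction m generalizing r with
  | zero =>
    have h0 : p ^ r ≠ 0 := pow_ne_zero _ hp.ne_zero
    unfold G09_D
    rw [pow_zero, pow_zero, pow_one, ArithmeticFunction.natCoe_apply,
      ArithmeticFunction.zeta_apply_ne h0]
    simp
  | succ m ih =>
    rw [G09_D_succ, ArithmeticFunction.mul_apply,
      Nat.sum_divisorsAntidiagonal (f := fun a b => G09_D m a * G09_D m b),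
      Nat.sum_divisors_prime_pow hp]
    have h1 : ∀ i ∈ Finset.range (r + 1), ((r : ℝ) + 1) ^ m
        ≤ G09_D m (p ^ i) * G09_D m (p ^ r / p ^ i) := by
      intro i hi
      have hi' : i ≤ r := Nat.lt_succ_iff.1 (Finset.mem_range.1 hi)
      rw [Nat.pow_div hi' hp.pos]
      refine le_trans ?_ (mul_le_mul (ih i) (ih (r - i)) (by positivity)
        (le_trans (by positivity) (ih i)))
      rw [← mul_pow]
      apply pow_le_pow_left₀ (by positivity)
      rw [Nat.cast_sub hi']
      have hir : (i : ℝ) ≤ r := by exact_mod_cast hi'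
      have hi0 : (0 : ℝ) ≤ i := Nat.cast_nonneg i
      nlinarith
    refine le_trans ?_ (Finset.sum_le_sum h1)
    rw [Finset.sum_const, Finset.card_range, nsmul_eq_mul, pow_succ]
    push_cast
    exact le_of_eq (by ring)

theorem G09_D_mult (m : ℕ) : (G09_D m).IsMultiplicative :=
  ArithmeticFunction.isMultiplicative_zeta.natCast.pow

theorem G09_D_lss (m : ℕ) {s : ℂ} (hs : 1 < s.re) :
    LSeriesSummable (fun n => ((G09_D m n : ℝ) : ℂ)) s := by
  have key : ∀ j : ℕ, LSeriesSummable
      (⇑((ArithmeticFunction.zeta : ArithmeticFunction ℂ) ^ j)) s := by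
    intro j
    induction j with
    | zero =>
      rw [pow_zero]
      exact (G09_one s).1
    | succ j ih =>
      rw [pow_succ]
      exact ArithmeticFunction.LSeriesSummable_mul ih
        (ArithmeticFunction.LSeriesSummable_zeta_iff.2 hs)
  have h2 : ∀ j n : ℕ, (((((ArithmeticFunction.zeta : ArithmeticFunction ℝ) ^ j)
      n : ℝ)) : ℂ) = ((ArithmeticFunction.zeta : ArithmeticFunction ℂ) ^ j) n := by
    intro j
    induction j with
    | zero =>
      intro n
      rw [pow_zero, pow_zero, ArithmeticFunction.one_apply, ArithmeticFunction.one_apply]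
      split_ifs <;> simp
    | succ j ih =>
      intro n
      rw [pow_succ, pow_succ, ArithmeticFunction.mul_apply, ArithmeticFunction.mul_apply,
        Complex.ofReal_sum]
      apply Finset.sum_congr rfl
      intro y _
      rw [Complex.ofReal_mul, ih, ArithmeticFunction.natCoe_apply,
        ArithmeticFunction.natCoe_apply]
      simp only [Complex.ofReal_natCast]
  have h3 : (fun n => ((G09_D m n : ℝ) : ℂ))
      = fun n => ((ArithmeticFunction.zeta : ArithmeticFunction ℂ) ^ (2 ^ m)) n := by
    funext n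
    exact h2 _ n
  rw [h3]
  exact key _

theorem G09_bb_sq_le {k : ℕ} (x : Fin k → Ch) (n : ℕ) : ‖bb x n‖ ^ 2 ≤ G09_D (2 * k) n := by
  rcases eq_or_ne n 0 with rfl | hn
  · simp
  rw [(bb_mult x).multiplicative_factorization _ hn,
    (G09_D_mult (2 * k)).multiplicative_factorization _ hn]
  unfold Finsupp.prod
  rw [norm_prod, ← Finset.prod_pow]
  apply Finset.prod_le_prod
  · intro p _
    positivity
  · intro p hp
    have hpp : p.Prime := Nat.prime_of_mem_primeFactors (by simpa using hp)
    refine le_trans ?_ (G09_D_pp (2 * k) hpp _)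
    rw [mul_comm 2 k, pow_mul]
    exact pow_le_pow_left₀ (norm_nonneg _) (bb_le x hpp _) 2

theorem bb_sq_summable {k : ℕ} (x : Fin k → Ch) {σ : ℝ} (hσ : 1 < σ) :
    Summable (fun n : ℕ => ‖bb x n‖ ^ 2 * (n : ℝ) ^ (-σ)) := by
  have h := (G09_D_lss (2 * k) (s := (σ : ℂ)) (by simpa using hσ)).norm
  refine Summable.of_nonneg_of_le (fun n => by positivity) (fun n => ?_) h
  rcases eq_or_ne n 0 with rfl | hn
  · simp
  · rw [LSeries.norm_term_eq, if_neg hn, Complex.ofReal_re, div_eq_mul_inv,
      ← Real.rpow_neg (Nat.cast_nonneg n), Complex.norm_real]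
    apply mul_le_mul_of_nonneg_right _ (by positivity)
    exact (G09_bb_sq_le x n).trans (Real.le_norm_self _)

theorem FL_series {k : ℕ} (x : Fin k → Ch) {s : ℂ} (hs : 1 < s.re) :
    LSeriesSummable (aa x) s ∧ FL x s = LSeries (aa x) s := by
  have hch : ∀ j, LSeriesSummable (ch (x j).2) s := fun j =>
    LSeriesSummable_of_bounded_of_one_lt_re (m := 1) (fun n _ => G09_ch_norm _ n) hs
  have hL : ∀ j, DirichletCharacter.LFunction (x j).2 s = LSeries (ch (x j).2) s := by
    intro j
    rw [DirichletCharacter.LFunction_eq_LSeries _ hs]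
    apply LSeries_congr
    intro n hn
    exact (G09_ch_apply _ hn).symm
  have key : ∀ t : Finset (Fin k), LSeriesSummable (⇑(∏ j ∈ t, ch (x j).2)) s ∧
      ∏ j ∈ t, DirichletCharacter.LFunction (x j).2 s
        = LSeries (⇑(∏ j ∈ t, ch (x j).2)) s := by
    intro t
    induction t using Finset.induction_on with
    | empty =>
      rw [Finset.prod_empty, Finset.prod_empty]
      exact ⟨(G09_one s).1, (G09_one s).2.symm⟩
    | insert a t ha ih =>
      rw [Finset.prod_insert ha, Finset.prod_insert ha]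
      refine ⟨ArithmeticFunction.LSeriesSummable_mul (hch a) ih.1, ?_⟩
      rw [ArithmeticFunction.LSeries_mul' (hch a) ih.1, ih.2, hL]
  exact key Finset.univ

end GG
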