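import Pool.Agent.Lib.MP_0f5a55_nt.GG.G07
import Pool.Agent.Lib.MP_0f5a55_nt.GG.G09
import Pool.Agent.Lib.MP_0f5a55_nt.OM.K004

open Complex MeasureTheory Set Filter Topology
open scoped Real ComplexConjugate

namespace GG

theorem G08_partial_le {ι : Type*} {f : ι → ℝ} {a : ℝ} (h : HasProd f a) (hf : ∀ i, 1 ≤ f i)
    (S : Finset ι) : ∏ i ∈ S, f i ≤ a := by
  classical
  have h' : Tendsto (fun s : Finset ι => ∏ i ∈ s, f i) atTop (𝓝 a) := h
  refine ge_of_tendsto h' ?_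
  filter_upwards [eventually_ge_atTop S] with U hU
  rw [← Finset.prod_sdiff hU]
  have h1 : 1 ≤ ∏ i ∈ U \ S, f i :=
    Finset.prod_induction f (fun x => 1 ≤ x) (fun a b ha hb => one_le_mul_of_one_le_of_one_le ha hb)
      le_rfl (fun i _ => hf i)
  have h2 : 0 ≤ ∏ i ∈ S, f i := Finset.prod_nonneg fun i _ => zero_le_one.trans (hf i)
  exact le_mul_of_one_le_left h2 h1

theorem G08_le_of_partial {ι : Type*} {f : ι → ℝ} {a B : ℝ} (h : HasProd f a)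
    (hB : ∀ S : Finset ι, ∏ i ∈ S, f i ≤ B) : a ≤ B := by
  have h' : Tendsto (fun s : Finset ι => ∏ i ∈ s, f i) atTop (𝓝 a) := h
  exact le_of_tendsto h' (Eventually.of_forall hB)

theorem G08_log {x : ℝ} (hx : 0 ≤ x) : Real.exp (x - x ^ 2 / 2) ≤ 1 + x := by
  have h1 := Real.le_log_one_add_of_nonneg hx
  have h2 : x - x ^ 2 / 2 ≤ 2 * x / (x + 2) := by
    rw [le_div_iff₀ (by linarith)]
    nlinarith [pow_nonneg hx 3]
  rw [← Real.exp_log (show 0 < 1 + x by linarith)]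
  exact Real.exp_le_exp.mpr (h2.trans h1)

theorem G08_conj {q : ℕ} (χ : DirichletCharacter ℂ q) [NeZero q] (a : ZMod q) :
    conj (χ a) = χ⁻¹ a :=
  MulChar.star_apply' χ a

/-- the sum over primes for a pair of characters -/
theorem G08_pair_ne {q1 q2 : ℕ} [NeZero q1] [NeZero q2] (χ1 : DirichletCharacter ℂ q1)
    (χ2 : DirichletCharacter ℂ q2) (hne : OO.Ne12 χ1 χ2) :
    ∃ ψ : DirichletCharacter ℂ (q1 * q2), ψ ≠ 1 ∧
      ∀ n : ℕ, ψ (n : ZMod (q1 * q2)) = χ1 (n : ZMod q1) * conj (χ2 (n : ZMod q2)) := by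
  have d1 : q1 ∣ q1 * q2 := dvd_mul_right _ _
  have d2 : q2 ∣ q1 * q2 := dvd_mul_left _ _
  have : NeZero (q1 * q2) := ⟨mul_ne_zero (NeZero.ne q1) (NeZero.ne q2)⟩
  obtain ⟨ψ, hψ⟩ : ∃ ψ : DirichletCharacter ℂ (q1 * q2),
      ψ = DirichletCharacter.changeLevel d1 χ1 * (DirichletCharacter.changeLevel d2 χ2)⁻¹ := ⟨_, rfl⟩
  have key : ∀ n : ℕ, ψ (n : ZMod (q1 * q2)) = χ1 (n : ZMod q1) * conj (χ2 (n : ZMod q2)) := by
    intro n
    by_cases hn : IsUnit (n : ZMod (q1 * q2))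
    · obtain ⟨u, hu⟩ := hn
      have e1 : (ZMod.cast (u : ZMod (q1 * q2)) : ZMod q1) = (n : ZMod q1) := by
        rw [hu, ZMod.cast_natCast d1]
      have e2 : (ZMod.cast (u : ZMod (q1 * q2)) : ZMod q2) = (n : ZMod q2) := by
        rw [hu, ZMod.cast_natCast d2]
      rw [hψ, MulChar.mul_apply, ← G08_conj (DirichletCharacter.changeLevel d2 χ2), ← hu,
        DirichletCharacter.changeLevel_eq_cast_of_dvd χ1 d1 u,
        DirichletCharacter.changeLevel_eq_cast_of_dvd χ2 d2 u, e1, e2]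
    · rw [MulChar.map_nonunit _ hn]
      rw [ZMod.isUnit_iff_coprime, Nat.coprime_mul_iff_right, not_and_or] at hn
      rcases hn with hn | hn
      · rw [← ZMod.isUnit_iff_coprime] at hn
        rw [MulChar.map_nonunit χ1 hn, zero_mul]
      · rw [← ZMod.isUnit_iff_coprime] at hn
        rw [MulChar.map_nonunit χ2 hn, map_zero, mul_zero]
  refine ⟨ψ, ?_, key⟩
  rintro rfl
  obtain ⟨n, hn, hne'⟩ := hne
  apply hne'
  have hu : IsUnit (n : ZMod (q1 * q2)) := (ZMod.isUnit_iff_coprime n (q1 * q2)).mpr hn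
  have hu2 : IsUnit (n : ZMod q2) :=
    (ZMod.isUnit_iff_coprime n q2).mpr (Nat.Coprime.coprime_mul_left_right hn)
  have k1 := key n
  have k2 : (1 : DirichletCharacter ℂ (q1 * q2)) (n : ZMod (q1 * q2)) = 1 := MulChar.one_apply hu
  rw [k2] at k1
  have k3 : χ2 (n : ZMod q2) * conj (χ2 (n : ZMod q2)) = 1 := by
    rw [G08_conj, ← MulChar.mul_apply, mul_inv_cancel, MulChar.one_apply hu2]
  calc χ1 (n : ZMod q1) = χ1 (n : ZMod q1) * (χ2 (n : ZMod q2) * conj (χ2 (n : ZMod q2))) := by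
        rw [k3, mul_one]
    _ = (χ1 (n : ZMod q1) * conj (χ2 (n : ZMod q2))) * χ2 (n : ZMod q2) := by ring
    _ = χ2 (n : ZMod q2) := by rw [← k1, one_mul]

theorem G08_pair {k : ℕ} (x : Fin k → Ch) (hx : ∀ i j, i ≠ j → OO.Ne12 (x i).2 (x j).2)
    (i j : Fin k) : ∃ C : ℝ, ∀ δ : ℝ, 0 < δ → δ ≤ 1 →
      |∑' p : Nat.Primes, ((x i).2 ((p : ℕ) : ZMod ((x i).1 + 1)) *
          conj ((x j).2 ((p : ℕ) : ZMod ((x j).1 + 1)))).re * ((p : ℕ) : ℝ) ^ (-(1 + δ)) -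
        (if i = j then Real.log (1 / δ) else 0)| ≤ C := by
  by_cases h : i = j
  · subst h
    obtain ⟨C, hC⟩ := prime_sum_triv ((x i).1 + 1)
    refine ⟨C, fun δ hδ hδ1 => ?_⟩
    have := hC δ hδ hδ1
    rw [if_pos rfl]
    have e : ∀ p : Nat.Primes, (x i).2 ((p : ℕ) : ZMod ((x i).1 + 1)) *
          conj ((x i).2 ((p : ℕ) : ZMod ((x i).1 + 1))) =
          (1 : DirichletCharacter ℂ ((x i).1 + 1)) ((p : ℕ) : ZMod ((x i).1 + 1)) := by
      intro p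
      rw [G08_conj, ← MulChar.mul_apply, mul_inv_cancel]
    simp only [e]
    exact this
  · have : NeZero (((x i).1 + 1) * ((x j).1 + 1)) := ⟨by positivity⟩
    obtain ⟨ψ, hψ, hψe⟩ := G08_pair_ne (x i).2 (x j).2 (hx i j h)
    obtain ⟨C, hC⟩ := prime_sum_nontriv hψ
    refine ⟨C, fun δ hδ hδ1 => ?_⟩
    have := (hC δ hδ hδ1).2
    rw [if_neg h, sub_zero]
    simp only [hψe] at this
    exact this

/-- the square of the coefficient at a prime -/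
theorem G08_bb_sq {k : ℕ} (x : Fin k → Ch) {p : ℕ} (hp : p.Prime) :
    ‖bb x p‖ ^ 2 = 1 / 4 * ∑ i, ∑ j, ((x i).2 ((p : ℕ) : ZMod ((x i).1 + 1)) *
          conj ((x j).2 ((p : ℕ) : ZMod ((x j).1 + 1)))).re := by
  have h1 : ((‖bb x p‖ ^ 2 : ℝ) : ℂ) = bb x p * conj (bb x p) := by
    rw [Complex.mul_conj, Complex.normSq_eq_norm_sq]
  have h2 : bb x p * conj (bb x p) = 1 / 4 * ∑ i, ∑ j, ((x i).2 ((p : ℕ) : ZMod ((x i).1 + 1)) *
          conj ((x j).2 ((p : ℕ) : ZMod ((x j).1 + 1)))) := by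
    rw [bb_prime x hp, map_mul, map_sum, map_div₀, map_one, Complex.conj_ofNat]
    rw [← Finset.sum_mul_sum]
    ring
  have h3 := congrArg Complex.re (h1.trans h2)
  rw [Complex.ofReal_re] at h3
  rw [h3]
  have h4 : (1 / 4 : ℂ) = ((1 / 4 : ℝ) : ℂ) := by push_cast; rfl
  rw [h4, Complex.re_ofReal_mul, Complex.re_sum]
  simp only [Complex.re_sum]

theorem G08_prime_sum {k : ℕ} (x : Fin k → Ch) (hx : ∀ i j, i ≠ j → OO.Ne12 (x i).2 (x j).2) :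
    ∃ C : ℝ, ∀ δ : ℝ, 0 < δ → δ ≤ 1 →
      |∑' p : Nat.Primes, ‖bb x p‖ ^ 2 * ((p : ℕ) : ℝ) ^ (-(1 + δ)) -
        (k : ℝ) / 4 * Real.log (1 / δ)| ≤ C := by
  choose C hC using G08_pair x hx
  refine ⟨1 / 4 * ∑ i, ∑ j, C i j, fun δ hδ hδ1 => ?_⟩
  have hs1 : Summable (fun p : Nat.Primes => ((p : ℕ) : ℝ) ^ (-(1 + δ))) :=
    Nat.Primes.summable_rpow.mpr (by linarith)
  have hsum : ∀ i j, Summable (fun p : Nat.Primes => ((x i).2 ((p : ℕ) : ZMod ((x i).1 + 1)) *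
          conj ((x j).2 ((p : ℕ) : ZMod ((x j).1 + 1)))).re * ((p : ℕ) : ℝ) ^ (-(1 + δ))) := by
    intro i j
    refine Summable.of_norm_bounded hs1 fun p => ?_
    rw [norm_mul, Real.norm_of_nonneg (Real.rpow_nonneg (Nat.cast_nonneg _) _)]
    refine mul_le_of_le_one_left (Real.rpow_nonneg (Nat.cast_nonneg _) _) ?_
    rw [Real.norm_eq_abs]
    refine (Complex.abs_re_le_norm _).trans ?_
    rw [norm_mul, RCLike.norm_conj]
    exact mul_le_one₀ ((x i).2.norm_le_one _) (norm_nonneg _) ((x j).2.norm_le_one _)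
  have e : (∑' p : Nat.Primes, ‖bb x p‖ ^ 2 * ((p : ℕ) : ℝ) ^ (-(1 + δ))) =
      1 / 4 * ∑ i, ∑ j, ∑' p : Nat.Primes, ((x i).2 ((p : ℕ) : ZMod ((x i).1 + 1)) *
          conj ((x j).2 ((p : ℕ) : ZMod ((x j).1 + 1)))).re * ((p : ℕ) : ℝ) ^ (-(1 + δ)) := by
    have h1 : ∀ p : Nat.Primes, ‖bb x p‖ ^ 2 * ((p : ℕ) : ℝ) ^ (-(1 + δ)) =
        1 / 4 * ∑ i, ∑ j, ((x i).2 ((p : ℕ) : ZMod ((x i).1 + 1)) *
          conj ((x j).2 ((p : ℕ) : ZMod ((x j).1 + 1)))).re * ((p : ℕ) : ℝ) ^ (-(1 + δ)) := by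
      intro p
      rw [G08_bb_sq x p.2, mul_assoc, Finset.sum_mul]
      simp only [Finset.sum_mul]
    simp only [h1]
    rw [tsum_mul_left]
    congr 1
    rw [Summable.tsum_finsetSum (fun i _ => summable_sum fun j _ => hsum i j)]
    refine Finset.sum_congr rfl fun i _ => ?_
    rw [Summable.tsum_finsetSum (fun j _ => hsum i j)]
  have e2 : (k : ℝ) / 4 * Real.log (1 / δ) =
      1 / 4 * ∑ i : Fin k, ∑ j : Fin k, (if i = j then Real.log (1 / δ) else 0) := by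
    simp only [Finset.sum_ite_eq, Finset.mem_univ, if_true, Finset.sum_const, Finset.card_univ,
      Fintype.card_fin, nsmul_eq_mul]
    ring
  rw [e, e2, ← mul_sub, abs_mul, abs_of_pos (by norm_num : (0 : ℝ) < 1 / 4)]
  refine mul_le_mul_of_nonneg_left ?_ (by norm_num)
  rw [← Finset.sum_sub_distrib]
  refine (Finset.abs_sum_le_sum_abs _ _).trans (Finset.sum_le_sum fun i _ => ?_)
  rw [← Finset.sum_sub_distrib]
  exact (Finset.abs_sum_le_sum_abs _ _).trans (Finset.sum_le_sum fun j _ => hC i j δ hδ hδ1)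

/-- the summand -/
noncomputable def G08_g {k : ℕ} (x : Fin k → Ch) (δ : ℝ) (n : ℕ) : ℝ :=
  ‖bb x n‖ ^ 2 * (n : ℝ) ^ (-(1 + δ))

theorem G08_g_nonneg {k : ℕ} (x : Fin k → Ch) (δ : ℝ) (n : ℕ) : 0 ≤ G08_g x δ n :=
  mul_nonneg (sq_nonneg _) (Real.rpow_nonneg (Nat.cast_nonneg _) _)

theorem G08_g_summable {k : ℕ} (x : Fin k → Ch) {δ : ℝ} (hδ : 0 < δ) : Summable (G08_g x δ) :=
  bb_sq_summable x (by linarith)

theorem G08_hasProd {k : ℕ} (x : Fin k → Ch) {δ : ℝ} (hδ : 0 < δ) :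
    HasProd (fun p : Nat.Primes => ∑' e : ℕ, G08_g x δ ((p : ℕ) ^ e)) (∑' n, G08_g x δ n) := by
  refine EulerProduct.eulerProduct_hasProd ?_ ?_ ?_ ?_
  · unfold G08_g
    rw [(bb_mult x).map_one]
    simp
  · intro m n hmn
    unfold G08_g
    rw [(bb_mult x).map_mul_of_coprime hmn, norm_mul, mul_pow, Nat.cast_mul,
      Real.mul_rpow (Nat.cast_nonneg _) (Nat.cast_nonneg _)]
    ring
  · refine (G08_g_summable x hδ).congr fun n => ?_
    rw [Real.norm_of_nonneg (G08_g_nonneg x δ n)]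
  · unfold G08_g
    simp

/-- one term, exponent at least one -/
theorem G08_term {k : ℕ} (x : Fin k → Ch) {δ : ℝ} (hδ : 0 < δ) {p : ℕ} (hp : p.Prime) (r : ℕ) :
    G08_g x δ (p ^ r) ≤ ((r : ℝ) + 1) ^ (2 * k) * ((p : ℝ) ^ r)⁻¹ := by
  unfold G08_g
  have h1 := bb_le x hp r
  have hp1 : (1 : ℝ) ≤ (p : ℝ) ^ r := one_le_pow₀ (by exact_mod_cast hp.one_lt.le)
  have h2 : ‖bb x (p ^ r)‖ ^ 2 ≤ ((r : ℝ) + 1) ^ (2 * k) := by
    rw [mul_comm 2 k, pow_mul]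
    exact pow_le_pow_left₀ (norm_nonneg _) h1 2
  have h3 : (((p ^ r : ℕ) : ℝ)) ^ (-(1 + δ)) ≤ ((p : ℝ) ^ r)⁻¹ := by
    rw [Nat.cast_pow, ← Real.rpow_neg_one]
    exact Real.rpow_le_rpow_of_exponent_le hp1 (by linarith)
  exact mul_le_mul h2 h3 (Real.rpow_nonneg (Nat.cast_nonneg _) _) (by positivity)

theorem G08_K_summable (k : ℕ) : Summable (fun e : ℕ => ((e : ℝ) + 3) ^ (2 * k) * (1 / 2 : ℝ) ^ e) := by
  have h := summable_pow_mul_geometric_of_norm_lt_one (R := ℝ) (2 * k)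
    (show ‖(1 / 2 : ℝ)‖ < 1 by rw [Real.norm_of_nonneg (by norm_num)]; norm_num)
  have h3 := (summable_nat_add_iff 3).mpr h
  refine (h3.mul_left 8).congr fun e => ?_
  push_cast
  rw [pow_add]
  ring

/-- the local factor -/
theorem G08_local {k : ℕ} (x : Fin k → Ch) {δ : ℝ} (hδ : 0 < δ) (p : Nat.Primes) :
    1 + G08_g x δ p ≤ ∑' e : ℕ, G08_g x δ ((p : ℕ) ^ e) ∧
    ∑' e : ℕ, G08_g x δ ((p : ℕ) ^ e) ≤ 1 + (G08_g x δ p +
      (∑' e : ℕ, ((e : ℝ) + 3) ^ (2 * k) * (1 / 2 : ℝ) ^ e) * ((p : ℕ) : ℝ) ^ (-2 : ℝ)) := by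
  have hinj : Function.Injective (fun e : ℕ => (p : ℕ) ^ e) := Nat.pow_right_injective p.2.two_le
  have hs : Summable (fun e : ℕ => G08_g x δ ((p : ℕ) ^ e)) :=
    (G08_g_summable x hδ).comp_injective hinj
  have h2 := hs.sum_add_tsum_nat_add 2
  have hs2 : Summable (fun e : ℕ => G08_g x δ ((p : ℕ) ^ (e + 2))) :=
    (summable_nat_add_iff 2).mpr hs
  have h1 : G08_g x δ 1 = 1 := by
    unfold G08_g
    rw [(bb_mult x).map_one]
    simp
  rw [Finset.sum_range_succ, Finset.sum_range_one, pow_zero, pow_one, h1] at h2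
  have hp2 : (2 : ℝ) ≤ ((p : ℕ) : ℝ) := by exact_mod_cast p.2.two_le
  have hp0 : (0 : ℝ) < ((p : ℕ) : ℝ) := by linarith
  constructor
  · rw [← h2]
    have : 0 ≤ ∑' e : ℕ, G08_g x δ ((p : ℕ) ^ (e + 2)) := tsum_nonneg fun e => G08_g_nonneg x δ _
    linarith
  · rw [← h2, add_assoc]
    refine add_le_add le_rfl (add_le_add le_rfl ?_)
    rw [← tsum_mul_right]
    refine Summable.tsum_le_tsum (fun e => ?_) hs2 ((G08_K_summable k).mul_right _)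
    refine (G08_term x hδ p.2 (e + 2)).trans ?_
    have e1 : (((e + 2 : ℕ) : ℝ) + 1) = (e : ℝ) + 3 := by push_cast; ring
    rw [e1, mul_assoc]
    refine mul_le_mul_of_nonneg_left ?_ (by positivity)
    have e2 : ((p : ℕ) : ℝ) ^ (-2 : ℝ) = (((p : ℕ) : ℝ) ^ 2)⁻¹ := by
      rw [Real.rpow_neg hp0.le]
      norm_cast
    rw [e2, pow_add, mul_inv]
    refine mul_le_mul_of_nonneg_right ?_ (by positivity)
    rw [one_div, inv_pow]
    exact inv_anti₀ (by positivity) (pow_le_pow_left₀ (by norm_num) hp2 e)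

theorem G08_g_prime_le {k : ℕ} (x : Fin k → Ch) {δ : ℝ} (hδ : 0 < δ) (p : Nat.Primes) :
    G08_g x δ p ^ 2 ≤ (4 : ℝ) ^ (2 * k) * ((p : ℕ) : ℝ) ^ (-2 : ℝ) := by
  have h := G08_term x hδ p.2 1
  have hp0 : (0 : ℝ) < ((p : ℕ) : ℝ) := by exact_mod_cast p.2.pos
  rw [pow_one, pow_one] at h
  have h2 := pow_le_pow_left₀ (G08_g_nonneg x δ _) h 2
  refine h2.trans (le_of_eq ?_)
  have e2 : ((p : ℕ) : ℝ) ^ (-2 : ℝ) = (((p : ℕ) : ℝ) ^ 2)⁻¹ := by
    rw [Real.rpow_neg hp0.le]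
    norm_cast
  rw [e2, mul_pow, inv_pow]
  congr 1
  have : ((1 : ℕ) : ℝ) + 1 = 2 := by norm_num
  rw [this, ← pow_mul, show (4 : ℝ) = 2 ^ 2 by norm_num, ← pow_mul]
  ring_nf

/-- Row G08. Two-sided bound of the mean square series (Euler product). -/
theorem E_bounds {k : ℕ} (x : Fin k → Ch) (hx : ∀ i j, i ≠ j → OO.Ne12 (x i).2 (x j).2) :
    ∃ c1 C1 : ℝ, 0 < c1 ∧ ∀ δ : ℝ, 0 < δ → δ ≤ 1 →
      c1 * δ ^ (-((k : ℝ) / 4)) ≤ ∑' n : ℕ, ‖bb x n‖ ^ 2 * (n : ℝ) ^ (-(1 + δ)) ∧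
      ∑' n : ℕ, ‖bb x n‖ ^ 2 * (n : ℝ) ^ (-(1 + δ)) ≤ C1 * δ ^ (-((k : ℝ) / 4)) := by
  obtain ⟨C, hC⟩ := G08_prime_sum x hx
  have hZ : Summable (fun p : Nat.Primes => ((p : ℕ) : ℝ) ^ (-2 : ℝ)) :=
    Nat.Primes.summable_rpow.mpr (by norm_num)
  set Z : ℝ := ∑' p : Nat.Primes, ((p : ℕ) : ℝ) ^ (-2 : ℝ) with hZdef
  set K : ℝ := ∑' e : ℕ, ((e : ℝ) + 3) ^ (2 * k) * (1 / 2 : ℝ) ^ e with hKdef
  have hZ0 : ∀ p : Nat.Primes, (0 : ℝ) ≤ ((p : ℕ) : ℝ) ^ (-2 : ℝ) := fun p =>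
    Real.rpow_nonneg (Nat.cast_nonneg _) _
  have hK0 : 0 ≤ K := tsum_nonneg fun e => by positivity
  refine ⟨Real.exp (-C - 4 ^ (2 * k) * Z), Real.exp (C + K * Z), Real.exp_pos _, fun δ hδ hδ1 => ?_⟩
  have hP := hC δ hδ hδ1
  have hE := G08_hasProd x hδ
  have hsp : Summable (fun p : Nat.Primes => G08_g x δ p) :=
    (G08_g_summable x hδ).comp_injective Subtype.val_injective
  have hdelta : Real.exp ((k : ℝ) / 4 * Real.log (1 / δ)) = δ ^ (-((k : ℝ) / 4)) := by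
    rw [Real.rpow_def_of_pos hδ, one_div, Real.log_inv]
    congr 1
    ring
  change _ ≤ ∑' n : ℕ, G08_g x δ n ∧ ∑' n : ℕ, G08_g x δ n ≤ _
  change |∑' p : Nat.Primes, G08_g x δ p - _| ≤ C at hP
  rw [abs_le] at hP
  have hgn := fun p : Nat.Primes => G08_g_nonneg x δ (p : ℕ)
  constructor
  · have hone : ∀ p : Nat.Primes, 1 ≤ ∑' e : ℕ, G08_g x δ ((p : ℕ) ^ e) := fun p =>
      (by linarith [hgn p] : (1 : ℝ) ≤ 1 + G08_g x δ p).trans (G08_local x hδ p).1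
    have hfin : ∀ S : Finset Nat.Primes,
        Real.exp (∑ p ∈ S, G08_g x δ p - 4 ^ (2 * k) * Z) ≤ ∑' n, G08_g x δ n := by
      intro S
      refine le_trans ?_ (G08_partial_le hE hone S)
      have h1 : Real.exp (∑ p ∈ S, (G08_g x δ p - G08_g x δ p ^ 2 / 2)) ≤
          ∏ p ∈ S, ∑' e : ℕ, G08_g x δ ((p : ℕ) ^ e) := by
        rw [Real.exp_sum]
        exact Finset.prod_le_prod (fun p _ => (Real.exp_pos _).le) fun p _ =>
          (G08_log (hgn p)).trans (G08_local x hδ p).1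
      refine le_trans (Real.exp_le_exp.mpr ?_) h1
      rw [Finset.sum_sub_distrib]
      have h2 : ∑ p ∈ S, G08_g x δ p ^ 2 / 2 ≤ 4 ^ (2 * k) * Z := by
        calc ∑ p ∈ S, G08_g x δ p ^ 2 / 2 ≤ ∑ p ∈ S, (4 : ℝ) ^ (2 * k) * ((p : ℕ) : ℝ) ^ (-2 : ℝ) := by
              refine Finset.sum_le_sum fun p _ => ?_
              have := G08_g_prime_le x hδ p
              have h0 : 0 ≤ G08_g x δ p ^ 2 := sq_nonneg _
              linarith
          _ = 4 ^ (2 * k) * ∑ p ∈ S, ((p : ℕ) : ℝ) ^ (-2 : ℝ) := by rw [Finset.mul_sum]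
          _ ≤ 4 ^ (2 * k) * Z := by
              refine mul_le_mul_of_nonneg_left ?_ (by positivity)
              exact hZ.sum_le_tsum S fun p _ => hZ0 p
      linarith
    have hEpos : 0 < ∑' n, G08_g x δ n := lt_of_lt_of_le (Real.exp_pos _) (hfin ∅)
    have hle : ∑' p : Nat.Primes, G08_g x δ p ≤ Real.log (∑' n, G08_g x δ n) + 4 ^ (2 * k) * Z := by
      refine hsp.tsum_le_of_sum_le fun S => ?_
      have := (Real.le_log_iff_exp_le hEpos).mpr (hfin S)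
      linarith
    rw [← hdelta, ← Real.exp_add, ← Real.le_log_iff_exp_le hEpos]
    linarith [hP.1]
  · rw [← hdelta, ← Real.exp_add]
    refine G08_le_of_partial hE fun S => ?_
    have h1 : ∏ p ∈ S, ∑' e : ℕ, G08_g x δ ((p : ℕ) ^ e) ≤
        Real.exp (∑ p ∈ S, (G08_g x δ p + K * ((p : ℕ) : ℝ) ^ (-2 : ℝ))) := by
      rw [Real.exp_sum]
      refine Finset.prod_le_prod (fun p _ => tsum_nonneg fun e => G08_g_nonneg x δ _) fun p _ => ?_
      refine (G08_local x hδ p).2.trans ?_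
      rw [add_comm]
      exact Real.add_one_le_exp _
    refine h1.trans (Real.exp_le_exp.mpr ?_)
    rw [Finset.sum_add_distrib, ← Finset.mul_sum]
    have h2 := hsp.sum_le_tsum S fun p _ => hgn p
    have h3 := mul_le_mul_of_nonneg_left (hZ.sum_le_tsum S fun p _ => hZ0 p) hK0
    linarith [hP.2]

end GG
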