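import Pool.Agent.Lib.MP_0f5a55_nt.GG.G06
import Pool.Agent.Lib.MP_0f5a55_nt.GG.G08
import Pool.Agent.Lib.MP_0f5a55_nt.GG.G09
import Pool.Agent.Lib.MP_0f5a55_nt.OM.K003

open Complex MeasureTheory Set Filter Topology
open scoped Real ComplexConjugate

namespace GG

/-- two characters with `Ne12` are not both principal -/
theorem G10_not_both {q1 q2 : ℕ} [NeZero q1] [NeZero q2] {χ1 : DirichletCharacter ℂ q1}
    {χ2 : DirichletCharacter ℂ q2} (hne : OO.Ne12 χ1 χ2) (h1 : χ1 = 1) : χ2 ≠ 1 := by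
  intro h2
  obtain ⟨n, hn, hne'⟩ := hne
  apply hne'
  have u1 : IsUnit (n : ZMod q1) :=
    (ZMod.isUnit_iff_coprime n q1).mpr (Nat.Coprime.coprime_mul_right_right hn)
  have u2 : IsUnit (n : ZMod q2) :=
    (ZMod.isUnit_iff_coprime n q2).mpr (Nat.Coprime.coprime_mul_left_right hn)
  rw [h1, h2, MulChar.one_apply u1, MulChar.one_apply u2]

/-- the product of the L-functions times `s - 1` is entire -/
theorem G10_entire {k : ℕ} (x : Fin k → Ch) (hx : ∀ i j, i ≠ j → OO.Ne12 (x i).2 (x j).2) :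
    ∃ G : ℂ → ℂ, (∀ s : ℂ, 0 < s.re → DifferentiableAt ℂ G s) ∧
      ∀ s : ℂ, s ≠ 1 → G s = (s - 1) * FL x s := by
  by_cases h : ∃ j0, (x j0).2 = 1
  · obtain ⟨j0, hj0⟩ := h
    refine ⟨fun s => DirichletCharacter.LFunctionTrivChar₁ ((x j0).1 + 1) s *
      ∏ j ∈ Finset.univ.erase j0, DirichletCharacter.LFunction (x j).2 s, ?_, ?_⟩
    · intro s _
      refine (DirichletCharacter.differentiable_LFunctionTrivChar₁ _ s).mul ?_
      refine DifferentiableAt.fun_finsetProd fun j hj => ?_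
      exact DirichletCharacter.differentiable_LFunction
        (G10_not_both (hx j0 j (Finset.ne_of_mem_erase hj).symm) hj0) s
    · intro s hs
      have e1 : DirichletCharacter.LFunctionTrivChar₁ ((x j0).1 + 1) s =
          (s - 1) * DirichletCharacter.LFunction (x j0).2 s := by
        rw [hj0, DirichletCharacter.LFunctionTrivChar₁, Function.update_of_ne hs]
      show _ * _ = _
      rw [e1, FL, ← Finset.mul_prod_erase Finset.univ _ (Finset.mem_univ j0), mul_assoc]
  · push Not at h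
    refine ⟨fun s => (s - 1) * FL x s, ?_, fun s _ => rfl⟩
    intro s _
    refine DifferentiableAt.mul (by fun_prop) ?_
    unfold FL
    refine DifferentiableAt.fun_finsetProd fun j _ => ?_
    exact DirichletCharacter.differentiable_LFunction (h j) s

/-- polynomial growth of the product -/
theorem G10_pol {k : ℕ} (x : Fin k → Ch) : ∃ C : ℝ, ∀ s : ℂ, 1 / 2 ≤ s.re → s.re ≤ 2 → 1 ≤ |s.im| →
    ‖FL x s‖ ≤ C * (1 + |s.im|) ^ k := by
  have h := fun j => LP.per_pol (fun a => (x j).2 a)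
  choose C hC hb using h
  refine ⟨∏ j, C j, ?_⟩
  intro s hs _ him
  have h1 : 1 / 4 ≤ ‖s - 1‖ := by
    have h2 : |(s - 1).im| ≤ ‖s - 1‖ := Complex.abs_im_le_norm _
    have h3 : (s - 1).im = s.im := by simp
    rw [h3] at h2
    linarith
  unfold FL
  rw [norm_prod]
  calc ∏ j, ‖DirichletCharacter.LFunction (x j).2 s‖ ≤ ∏ j, (C j * (1 + |s.im|)) :=
        Finset.prod_le_prod (fun j _ => norm_nonneg _) (fun j _ => hb j s (by linarith) h1)
    _ = (∏ j, C j) * (1 + |s.im|) ^ k := by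
        rw [Finset.prod_mul_distrib, Finset.prod_const, Finset.card_univ, Fintype.card_fin]

/-- Row G10. Lower bound for the first absolute moment of a product of k different L-functions. -/
theorem moment_lower {k : ℕ} (hk : 0 < k) (x : Fin k → Ch)
    (hx : ∀ i j, i ≠ j → OO.Ne12 (x i).2 (x j).2) : ∃ c T0 : ℝ, 0 < c ∧ 3 ≤ T0 ∧ ∀ T : ℝ, T0 ≤ T →
      c * T * Real.log T ^ ((k : ℝ) / 4) ≤ ∫ t in Icc T (2 * T), ‖FL x (1 / 2 + t * I)‖ := by
  obtain ⟨c1, C1, hc1, hE⟩ := E_bounds x hx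
  obtain ⟨C, hpol⟩ := G10_pol x
  have hk0 : (0 : ℝ) < k := by exact_mod_cast hk
  exact dyadic (G10_entire x hx) hpol (fun s hs => FL_series x hs) (bb_sq x)
    (bb_summable x (by norm_num)) (by positivity) hc1
    (fun δ h0 h1 => ⟨bb_sq_summable x (by linarith), hE δ h0 h1⟩)

end GG
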