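import Mathlib

open Complex MeasureTheory Set Filter Topology
open scoped Real ComplexConjugate

namespace GG

theorem G01_abs : Integrable (fun u : ℝ => Real.exp (-|u|)) := by
  have h1 : IntegrableOn (fun u : ℝ => Real.exp (-|u|)) (Ioi 0) := by
    refine (integrableOn_exp_mul_Ioi (a := -(1 : ℝ)) (by norm_num) 0).congr_fun
      (fun u hu => ?_) measurableSet_Ioi
    change Real.exp (-1 * u) = Real.exp (-|u|)
    rw [abs_of_pos hu, neg_one_mul]
  have h2 : IntegrableOn (fun u : ℝ => Real.exp (-|u|)) (Iic 0) := by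
    refine (integrableOn_exp_mul_Iic (a := (1 : ℝ)) (by norm_num) 0).congr_fun
      (fun u hu => ?_) measurableSet_Iic
    change Real.exp (1 * u) = Real.exp (-|u|)
    rw [abs_of_nonpos hu, neg_neg, one_mul]
  rw [← integrableOn_univ, ← Iic_union_Ioi (a := (0 : ℝ))]
  exact h2.union h1

/-- Row G01. Three lines theorem for L1 norms (Hardy-Ingham-Polya). -/
theorem three_l1 {f : ℂ → ℂ} {a b : ℝ} (hab : a < b)
    (hc : ContinuousOn f {s : ℂ | a ≤ s.re ∧ s.re ≤ b})
    (hd : DifferentiableOn ℂ f {s : ℂ | a < s.re ∧ s.re < b}) {C : ℝ}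
    (hC : ∀ s : ℂ, a ≤ s.re → s.re ≤ b → ‖f s‖ ≤ C * Real.exp (-|s.im|)) {σ : ℝ} (h1 : a ≤ σ)
    (h2 : σ ≤ b) :
    ∫ t : ℝ, ‖f (σ + t * I)‖ ≤ (∫ t : ℝ, ‖f (a + t * I)‖) ^ ((b - σ) / (b - a)) *
      (∫ t : ℝ, ‖f (b + t * I)‖) ^ ((σ - a) / (b - a)) := by
  have hC0 : 0 ≤ C := by
    have h := (norm_nonneg _).trans (hC (a : ℂ) (by simp) (by simp; exact hab.le))
    rw [ofReal_im, abs_zero, neg_zero, Real.exp_zero, mul_one] at h
    exact h
  have hre : ∀ (z : ℂ) (t : ℝ), (z + t * I).re = z.re := by
    intro z t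
    simp
  have him : ∀ (z : ℂ) (t : ℝ), (z + t * I).im = z.im + t := by
    intro z t
    simp
  -- continuity on vertical lines
  have hline : ∀ z : ℂ, a ≤ z.re → z.re ≤ b → Continuous fun t : ℝ => f (z + t * I) := by
    intro z hz1 hz2
    have : ContinuousOn (fun t : ℝ => f (z + t * I)) univ := by
      refine hc.comp (f := fun t : ℝ => z + t * I) (by fun_prop) ?_
      intro t _
      exact ⟨by rw [hre]; exact hz1, by rw [hre]; exact hz2⟩
    exact continuousOn_univ.mp this
  obtain ⟨φ, hφ⟩ : ∃ φ : ℝ → ℂ, φ = fun t : ℝ => conj (f (σ + t * I)) / ((‖f (σ + t * I)‖ : ℝ) : ℂ) := ⟨_, rfl⟩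
  have hφm : Measurable φ := by
    have h3 := hline (σ : ℂ) (by simpa using h1) (by simpa using h2)
    rw [hφ]
    have h4 : Measurable fun t : ℝ => f (σ + t * I) := h3.measurable
    exact (continuous_conj.measurable.comp h4).div (continuous_ofReal.measurable.comp h4.norm)
  have hφ1 : ∀ t, ‖φ t‖ ≤ 1 := by
    intro t
    rw [hφ]
    change ‖conj (f (σ + t * I)) / (‖f (σ + t * I)‖ : ℂ)‖ ≤ 1
    rw [norm_div, RCLike.norm_conj, norm_real, norm_norm]
    exact div_self_le_one _
  -- bounds
  have hb : ∀ (z : ℂ), a ≤ z.re → z.re ≤ b → ∀ t : ℝ,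
      ‖f (z + t * I) * φ t‖ ≤ C * Real.exp |z.im| * Real.exp (-|t|) := by
    intro z hz1 hz2 t
    rw [norm_mul]
    have h3 := hC (z + t * I) (by rw [hre]; exact hz1) (by rw [hre]; exact hz2)
    rw [him] at h3
    have h4 : Real.exp (-|z.im + t|) ≤ Real.exp |z.im| * Real.exp (-|t|) := by
      rw [← Real.exp_add]
      apply Real.exp_le_exp.mpr
      have := abs_sub_abs_le_abs_sub t (-z.im)
      rw [abs_neg, sub_neg_eq_add, add_comm t] at this
      linarith
    calc ‖f (z + t * I)‖ * ‖φ t‖ ≤ (C * Real.exp (-|z.im + t|)) * 1 :=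
          mul_le_mul h3 (hφ1 t) (norm_nonneg _) (by positivity)
      _ ≤ _ := by
          rw [mul_one, mul_assoc]
          exact mul_le_mul_of_nonneg_left h4 hC0
  have hmeas : ∀ z : ℂ, a ≤ z.re → z.re ≤ b →
      AEStronglyMeasurable (fun t : ℝ => f (z + t * I) * φ t) volume := by
    intro z hz1 hz2
    exact (hline z hz1 hz2).aestronglyMeasurable.mul hφm.aestronglyMeasurable
  have hintg : ∀ z : ℂ, a ≤ z.re → z.re ≤ b → Integrable (fun t : ℝ => f (z + t * I) * φ t) := by
    intro z hz1 hz2
    exact Integrable.mono' (G01_abs.const_mul _) (hmeas z hz1 hz2)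
      (Eventually.of_forall (hb z hz1 hz2))
  have hintf : ∀ z : ℂ, a ≤ z.re → z.re ≤ b → Integrable (fun t : ℝ => ‖f (z + t * I)‖) := by
    intro z hz1 hz2
    refine Integrable.mono' (G01_abs.const_mul (C * Real.exp |z.im|))
      (hline z hz1 hz2).norm.aestronglyMeasurable (Eventually.of_forall fun t => ?_)
    rw [norm_norm]
    have h3 := hC (z + t * I) (by rw [hre]; exact hz1) (by rw [hre]; exact hz2)
    rw [him] at h3
    have h4 : Real.exp (-|z.im + t|) ≤ Real.exp |z.im| * Real.exp (-|t|) := by
      rw [← Real.exp_add]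
      apply Real.exp_le_exp.mpr
      have := abs_sub_abs_le_abs_sub t (-z.im)
      rw [abs_neg, sub_neg_eq_add, add_comm t] at this
      linarith
    calc _ ≤ _ := h3
      _ ≤ _ := by
        rw [mul_assoc]
        exact mul_le_mul_of_nonneg_left h4 hC0
  obtain ⟨h, hh⟩ : ∃ h : ℂ → ℂ, h = fun z => ∫ t : ℝ, f (z + t * I) * φ t := ⟨_, rfl⟩
  -- continuity
  have hcont : ContinuousOn h (HadamardThreeLines.verticalClosedStrip a b) := by
    intro z0 hz0
    rw [hh]
    refine continuousWithinAt_of_dominated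
      (bound := fun t => C * Real.exp (|z0.im| + 1) * Real.exp (-|t|)) ?_ ?_ ?_ ?_
    · filter_upwards [self_mem_nhdsWithin] with z hz
      exact hmeas z hz.1 hz.2
    · have h3 : ∀ᶠ z : ℂ in 𝓝[HadamardThreeLines.verticalClosedStrip a b] z0, |z.im| < |z0.im| + 1 := by
        have h4 : ContinuousAt (fun z : ℂ => |z.im|) z0 := by fun_prop
        exact mem_nhdsWithin_of_mem_nhds (h4.eventually (gt_mem_nhds (by linarith)))
      filter_upwards [self_mem_nhdsWithin, h3] with z hz hz3
      refine Eventually.of_forall fun t => (hb z hz.1 hz.2 t).trans ?_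
      have h5 : Real.exp |z.im| ≤ Real.exp (|z0.im| + 1) := Real.exp_le_exp.mpr hz3.le
      exact mul_le_mul_of_nonneg_right (mul_le_mul_of_nonneg_left h5 hC0) (Real.exp_nonneg _)
    · exact G01_abs.const_mul _
    · refine Eventually.of_forall fun t => ?_
      refine ContinuousWithinAt.mul ?_ continuousWithinAt_const
      have h3 : ContinuousWithinAt f {s : ℂ | a ≤ s.re ∧ s.re ≤ b} (z0 + t * I) :=
        hc _ ⟨by rw [hre]; exact hz0.1, by rw [hre]; exact hz0.2⟩
      refine ContinuousWithinAt.comp (f := fun z : ℂ => z + t * I) h3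
        (by fun_prop) ?_
      intro z hz
      exact ⟨by rw [hre]; exact hz.1, by rw [hre]; exact hz.2⟩
  -- holomorphy
  have hopen : IsOpen {s : ℂ | a < s.re ∧ s.re < b} :=
    (isOpen_lt continuous_const continuous_re).inter (isOpen_lt continuous_re continuous_const)
  have hdiff : DifferentiableOn ℂ h (HadamardThreeLines.verticalStrip a b) := by
    intro z0 hz0
    have hz1 : a < z0.re := hz0.1
    have hz2 : z0.re < b := hz0.2
    obtain ⟨r, hr0, hr1, hr2⟩ : ∃ r : ℝ, 0 < r ∧ a < z0.re - 2 * r ∧ z0.re + 2 * r < b := by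
      refine ⟨min (z0.re - a) (b - z0.re) / 3, ?_, ?_, ?_⟩
      · have : 0 < min (z0.re - a) (b - z0.re) := lt_min (by linarith) (by linarith)
        linarith
      · have h3 : 0 < min (z0.re - a) (b - z0.re) := lt_min (by linarith) (by linarith)
        have h4 := min_le_left (z0.re - a) (b - z0.re)
        linarith
      · have h3 : 0 < min (z0.re - a) (b - z0.re) := lt_min (by linarith) (by linarith)
        have h4 := min_le_right (z0.re - a) (b - z0.re)
        linarith
    have hball : ∀ z ∈ Metric.ball z0 r, ∀ t : ℝ, ∀ s ∈ Metric.closedBall (z + t * I) r,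
        a < s.re ∧ s.re < b := by
      intro z hz t s hs
      have h3 : |z.re - z0.re| ≤ r := by
        have := abs_re_le_norm (z - z0)
        rw [sub_re] at this
        exact this.trans (by rw [← dist_eq_norm]; exact (Metric.mem_ball.mp hz).le)
      have h4 : |s.re - z.re| ≤ r := by
        have := abs_re_le_norm (s - (z + t * I))
        rw [sub_re, hre] at this
        exact this.trans (by rw [← dist_eq_norm]; exact Metric.mem_closedBall.mp hs)
      rw [abs_le] at h3 h4
      constructor <;> linarith [h3.1, h3.2, h4.1, h4.2]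
    have hder : ∀ z ∈ Metric.ball z0 r, ∀ t : ℝ,
        ‖deriv f (z + t * I)‖ ≤ C * Real.exp (|z0.im| + 2 * r) * Real.exp (-|t|) / r := by
      intro z hz t
      refine norm_deriv_le_of_forall_mem_sphere_norm_le hr0 ?_ ?_
      · refine DifferentiableOn.diffContOnCl ?_
        rw [closure_ball _ hr0.ne']
        intro s hs
        exact ((hd s (hball z hz t s hs)).differentiableAt (hopen.mem_nhds (hball z hz t s hs))).differentiableWithinAt
      · intro s hs
        have hs' := hball z hz t s (Metric.sphere_subset_closedBall hs)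
        refine (hC s hs'.1.le hs'.2.le).trans ?_
        rw [mul_assoc]
        refine mul_le_mul_of_nonneg_left ?_ hC0
        rw [← Real.exp_add]
        apply Real.exp_le_exp.mpr
        have h3 : |z.im - z0.im| ≤ r := by
          have := abs_im_le_norm (z - z0)
          rw [sub_im] at this
          exact this.trans (by rw [← dist_eq_norm]; exact (Metric.mem_ball.mp hz).le)
        have h4 : |s.im - (z.im + t)| ≤ r := by
          have := abs_im_le_norm (s - (z + t * I))
          rw [sub_im, him] at this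
          exact this.trans (by rw [← dist_eq_norm]; exact (Metric.mem_sphere.mp hs).le)
        have h5 : |t| ≤ |s.im| + |z0.im| + 2 * r := by
          have h6 : t = s.im - (s.im - (z.im + t)) - z0.im - (z.im - z0.im) := by ring
          calc |t| = |s.im - (s.im - (z.im + t)) - z0.im - (z.im - z0.im)| := by rw [← h6]
            _ ≤ |s.im - (s.im - (z.im + t)) - z0.im| + |z.im - z0.im| := abs_sub _ _
            _ ≤ |s.im - (s.im - (z.im + t))| + |z0.im| + |z.im - z0.im| := by
                have := abs_sub (s.im - (s.im - (z.im + t))) z0.im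
                linarith
            _ ≤ |s.im| + |s.im - (z.im + t)| + |z0.im| + |z.im - z0.im| := by
                have := abs_sub s.im (s.im - (z.im + t))
                linarith
            _ ≤ _ := by linarith
        linarith
    have hint := (hasDerivAt_integral_of_dominated_loc_of_deriv_le (μ := (volume : Measure ℝ))
      (F := fun z t => f (z + t * I) * φ t) (F' := fun z t => deriv f (z + t * I) * φ t)
      (bound := fun t => C * Real.exp (|z0.im| + 2 * r) * Real.exp (-|t|) / r)
      (x₀ := z0) (Metric.ball_mem_nhds z0 hr0) ?_ (hintg z0 hz1.le hz2.le) ?_ ?_ ?_ ?_).2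
    · rw [hh]
      exact hint.differentiableAt.differentiableWithinAt
    · filter_upwards [Metric.ball_mem_nhds z0 hr0] with z hz
      have h3 := hball z hz 0 z (by simp; exact hr0.le)
      exact hmeas z h3.1.le h3.2.le
    · have h3 : Measurable fun t : ℝ => deriv f (z0 + t * I) := by
        have h4 : Measurable fun t : ℝ => z0 + t * I := by fun_prop
        exact (measurable_deriv f).comp h4
      exact (h3.mul hφm).aestronglyMeasurable
    · refine Eventually.of_forall fun t z hz => ?_
      rw [norm_mul]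
      calc _ ≤ (C * Real.exp (|z0.im| + 2 * r) * Real.exp (-|t|) / r) * 1 :=
            mul_le_mul (hder z hz t) (hφ1 t) (norm_nonneg _) (by positivity)
        _ = _ := mul_one _
    · exact (G01_abs.const_mul _).div_const _
    · refine Eventually.of_forall fun t z hz => ?_
      have h3 := hball z hz t (z + t * I) (Metric.mem_closedBall_self hr0.le)
      have h4 : HasDerivAt f (deriv f (z + t * I)) (z + t * I) :=
        ((hd _ h3).differentiableAt (hopen.mem_nhds h3)).hasDerivAt
      have h5 : HasDerivAt (fun z : ℂ => z + t * I) 1 z := (hasDerivAt_id z).add_const _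
      have h6 := h4.comp z h5
      rw [mul_one] at h6
      exact h6.mul_const _
  have hdcl : DiffContOnCl ℂ h (HadamardThreeLines.verticalStrip a b) := by
    refine ⟨hdiff, ?_⟩
    refine hcont.mono ?_
    refine closure_minimal ?_ (isClosed_Icc.preimage continuous_re)
    exact preimage_mono Ioo_subset_Icc_self
  -- boundedness
  have htrans : ∀ (x : ℝ) (y : ℝ), ∫ t : ℝ, ‖f (x + y * I + t * I)‖ = ∫ t : ℝ, ‖f (x + t * I)‖ := by
    intro x y
    rw [← integral_add_left_eq_self (fun t : ℝ => ‖f (x + t * I)‖) y]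
    refine integral_congr_ae (Eventually.of_forall fun t => ?_)
    change ‖f (x + y * I + t * I)‖ = ‖f (x + ((y + t : ℝ) : ℂ) * I)‖
    congr 2
    push_cast
    ring
  have hnorm : ∀ z : ℂ, a ≤ z.re → z.re ≤ b → ‖h z‖ ≤ ∫ t : ℝ, ‖f (z.re + t * I)‖ := by
    intro z hz1 hz2
    rw [hh, ← htrans z.re z.im]
    refine norm_integral_le_of_norm_le ?_ (Eventually.of_forall fun t => ?_)
    · have := hintf (z.re + z.im * I) (by rw [re_add_im]; exact hz1) (by rw [re_add_im]; exact hz2)
      exact this
    · rw [norm_mul, re_add_im]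
      calc _ ≤ ‖f (z + t * I)‖ * 1 := mul_le_mul_of_nonneg_left (hφ1 t) (norm_nonneg _)
        _ = _ := mul_one _
  have hbd : BddAbove ((norm ∘ h) '' HadamardThreeLines.verticalClosedStrip a b) := by
    refine ⟨∫ t : ℝ, C * Real.exp (-|t|), ?_⟩
    rintro _ ⟨z, hz, rfl⟩
    refine (hnorm z hz.1 hz.2).trans ?_
    refine integral_mono ?_ (G01_abs.const_mul _) fun t => ?_
    · exact hintf (z.re : ℂ) (by simpa using hz.1) (by simpa using hz.2)
    · have h3 := hC ((z.re : ℂ) + t * I) (by rw [hre]; simpa using hz.1) (by rw [hre]; simpa using hz.2)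
      rw [him, ofReal_im, zero_add] at h3
      exact h3
  have hmain := HadamardThreeLines.norm_le_interp_of_mem_verticalClosedStrip' (f := h) (z := (σ : ℂ))
    (a := ∫ t : ℝ, ‖f (a + t * I)‖) (b := ∫ t : ℝ, ‖f (b + t * I)‖) hab ⟨by simpa using h1, by simpa using h2⟩
    hdcl hbd (by
      intro z hz
      have hz' : z.re = a := hz
      have := hnorm z (by rw [hz']) (by rw [hz']; exact hab.le)
      rwa [hz'] at this) (by
      intro z hz
      have hz' : z.re = b := hz
      have := hnorm z (by rw [hz']; exact hab.le) (by rw [hz'])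
      rwa [hz'] at this)
  have hval : h (σ : ℂ) = ((∫ t : ℝ, ‖f (σ + t * I)‖ : ℝ) : ℂ) := by
    rw [hh, ← integral_complex_ofReal]
    refine integral_congr_ae (Eventually.of_forall fun t => ?_)
    rw [hφ]
    change f (σ + t * I) * (conj (f (σ + t * I)) / (‖f (σ + t * I)‖ : ℂ)) = ((‖f (σ + t * I)‖ : ℝ) : ℂ)
    rw [← mul_div_assoc, mul_conj, normSq_eq_norm_sq, ofReal_pow]
    by_cases h0 : (‖f (σ + t * I)‖ : ℂ) = 0
    · rw [h0]
      simp
    · rw [sq, mul_div_assoc, div_self h0, mul_one]
  rw [hval, norm_real, Real.norm_of_nonneg (integral_nonneg fun t => norm_nonneg _), ofReal_re] at hmain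
  have he : 1 - (σ - a) / (b - a) = (b - σ) / (b - a) := by
    have : b - a ≠ 0 := by linarith
    field_simp
    ring
  rwa [he] at hmain

end GG
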