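import Mathlib

open Complex MeasureTheory Set Filter Topology
open scoped Real ComplexConjugate

namespace GG

/-- the Fourier transform of the Gaussian weight -/
theorem G02_gauss {H : ℝ} (hH : 0 < H) (T1 θ : ℝ) :
    ∫ t : ℝ, exp (θ * t * I) * ((Real.exp (-((t - T1) ^ 2 / H ^ 2)) : ℝ) : ℂ) =
      ((√π * H * Real.exp (-(H ^ 2 * θ ^ 2 / 4)) : ℝ) : ℂ) * exp (θ * T1 * I) := by
  have hb : (-(((H ^ 2)⁻¹ : ℝ) : ℂ)).re < 0 := by
    rw [neg_re, ofReal_re]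
    have : 0 < (H ^ 2)⁻¹ := by positivity
    linarith
  have h := integral_cexp_quadratic hb (θ * I + ((2 * T1 / H ^ 2 : ℝ) : ℂ))
    (((-(T1 ^ 2 / H ^ 2) : ℝ) : ℂ))
  have hH' : (H : ℂ) ≠ 0 := ofReal_ne_zero.mpr hH.ne'
  have h1 : ∀ t : ℝ, exp (θ * t * I) * ((Real.exp (-((t - T1) ^ 2 / H ^ 2)) : ℝ) : ℂ) =
      exp (-(((H ^ 2)⁻¹ : ℝ) : ℂ) * t ^ 2 + (θ * I + ((2 * T1 / H ^ 2 : ℝ) : ℂ)) * t +
        (((-(T1 ^ 2 / H ^ 2) : ℝ) : ℂ))) := by
    intro t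
    rw [ofReal_exp, ← exp_add]
    congr 1
    push_cast
    field_simp
    ring
  simp only [h1]
  rw [h]
  have h2 : ((π : ℂ) / -(-(((H ^ 2)⁻¹ : ℝ) : ℂ))) ^ (1 / 2 : ℂ) = ((√π * H : ℝ) : ℂ) := by
    rw [neg_neg, ← ofReal_div, show (1 / 2 : ℂ) = ((1 / 2 : ℝ) : ℂ) by push_cast; rfl,
      ← ofReal_cpow (by positivity)]
    congr 1
    rw [div_inv_eq_mul, ← Real.sqrt_eq_rpow, Real.sqrt_mul Real.pi_pos.le, Real.sqrt_sq hH.le]
  have h3 : exp ((((-(T1 ^ 2 / H ^ 2) : ℝ) : ℂ)) - (θ * I + ((2 * T1 / H ^ 2 : ℝ) : ℂ)) ^ 2 /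
      (4 * -(((H ^ 2)⁻¹ : ℝ) : ℂ))) = ((Real.exp (-(H ^ 2 * θ ^ 2 / 4)) : ℝ) : ℂ) * exp (θ * T1 * I) := by
    rw [ofReal_exp, ← exp_add]
    congr 1
    push_cast
    field_simp
    linear_combination (H ^ 4 * θ ^ 2 : ℂ) * I_sq
  rw [h2, h3]
  push_cast
  ring

theorem G02_log {m n N : ℕ} (hm : 1 ≤ m) (hn : 1 ≤ n) (hmN : m ≤ N) (hnN : n ≤ N) (hmn : m ≠ n) :
    1 / (N : ℝ) ≤ |Real.log n - Real.log m| := by
  wlog h : m < n generalizing m n
  · rw [abs_sub_comm]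
    exact this hn hm hnN hmN hmn.symm (by omega)
  have hm0 : (0 : ℝ) < m := by exact_mod_cast hm
  have hn0 : (0 : ℝ) < n := by exact_mod_cast hn
  have hN0 : (0 : ℝ) < N := by exact_mod_cast (by omega : 0 < N)
  refine le_trans ?_ (le_abs_self _)
  rw [← Real.log_div hn0.ne' hm0.ne']
  have h1 := Real.one_sub_inv_le_log_of_pos (x := (n : ℝ) / m) (by positivity)
  refine le_trans ?_ h1
  rw [inv_div, one_sub_div hn0.ne', div_le_div_iff₀ hN0 hn0]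
  have h2 : (m : ℝ) + 1 ≤ n := by exact_mod_cast h
  have h3 : (n : ℝ) ≤ N := by exact_mod_cast hnN
  nlinarith

theorem G02_exp {N : ℕ} (hN : 4 ≤ N) : (N : ℝ) * Real.exp (-((N : ℝ) ^ 2 / 4)) ≤ 1 / 2 := by
  have hN' : (4 : ℝ) ≤ N := by exact_mod_cast hN
  have h1 : (2 : ℝ) * N ≤ Real.exp ((N : ℝ) ^ 2 / 4) := by
    have h2 : (N : ℝ) ≤ (N : ℝ) ^ 2 / 4 := by nlinarith
    have h3 := Real.quadratic_le_exp_of_nonneg (x := (N : ℝ)) (by linarith)
    have h4 : Real.exp (N : ℝ) ≤ Real.exp ((N : ℝ) ^ 2 / 4) := Real.exp_le_exp.mpr h2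
    nlinarith
  rw [Real.exp_neg, ← div_eq_mul_inv, div_le_iff₀ (Real.exp_pos _)]
  linarith

/-- Row G02. Mean square of a short Dirichlet polynomial with Gaussian weight. -/
theorem gauss_mean {N : ℕ} (hN : 4 ≤ N) (c : ℕ → ℂ) {H : ℝ} (hH : (N : ℝ) ^ 2 ≤ H) (T1 : ℝ) :
    1 / 2 * (√π * H * ∑ n ∈ Finset.Icc 1 N, ‖c n‖ ^ 2) ≤
      ∫ t : ℝ, ‖∑ n ∈ Finset.Icc 1 N, c n * (n : ℂ) ^ (-(t * I))‖ ^ 2 * Real.exp (-((t - T1) ^ 2 / H ^ 2)) ∧
    ∫ t : ℝ, ‖∑ n ∈ Finset.Icc 1 N, c n * (n : ℂ) ^ (-(t * I))‖ ^ 2 * Real.exp (-((t - T1) ^ 2 / H ^ 2)) ≤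
      3 / 2 * (√π * H * ∑ n ∈ Finset.Icc 1 N, ‖c n‖ ^ 2) := by
  classical
  have hN0 : (0 : ℝ) < N := by exact_mod_cast (by omega : 0 < N)
  have hH0 : 0 < H := lt_of_lt_of_le (by positivity) hH
  set S := ∑ n ∈ Finset.Icc 1 N, ‖c n‖ ^ 2 with hS
  set G := √π * H with hG
  have hG0 : 0 ≤ G := by positivity
  set w : ℝ → ℝ := fun t => Real.exp (-((t - T1) ^ 2 / H ^ 2)) with hw
  -- the expansion
  have hexp : ∀ t : ℝ, ((‖∑ n ∈ Finset.Icc 1 N, c n * (n : ℂ) ^ (-(t * I))‖ ^ 2 * w t : ℝ) : ℂ) =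
      ∑ m ∈ Finset.Icc 1 N, ∑ n ∈ Finset.Icc 1 N, c m * conj (c n) *
        (exp (((Real.log n - Real.log m : ℝ) : ℂ) * t * I) * ((w t : ℝ) : ℂ)) := by
    intro t
    have h1 : ((‖∑ n ∈ Finset.Icc 1 N, c n * (n : ℂ) ^ (-(t * I))‖ ^ 2 : ℝ) : ℂ) =
        (∑ m ∈ Finset.Icc 1 N, c m * (m : ℂ) ^ (-(t * I))) *
          conj (∑ n ∈ Finset.Icc 1 N, c n * (n : ℂ) ^ (-(t * I))) := by
      rw [mul_conj, normSq_eq_norm_sq]
    rw [ofReal_mul, h1, map_sum, Finset.sum_mul_sum, Finset.sum_mul]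
    refine Finset.sum_congr rfl fun m hm => ?_
    rw [Finset.sum_mul]
    refine Finset.sum_congr rfl fun n hn => ?_
    rw [Finset.mem_Icc] at hm hn
    have hm0 : (m : ℂ) ≠ 0 := by
      have : m ≠ 0 := by omega
      exact_mod_cast this
    have hn0 : (n : ℂ) ≠ 0 := by
      have : n ≠ 0 := by omega
      exact_mod_cast this
    have e1 : (m : ℂ) ^ (-(t * I)) = exp (-((Real.log m : ℝ) * t * I)) := by
      rw [cpow_def_of_ne_zero hm0, ← natCast_log]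
      congr 1
      ring
    have e2 : conj ((n : ℂ) ^ (-(t * I))) = exp ((Real.log n : ℝ) * t * I) := by
      rw [cpow_def_of_ne_zero hn0, ← natCast_log, ← exp_conj, map_mul, map_neg, map_mul, conj_I,
        conj_ofReal, conj_ofReal]
      congr 1
      ring
    rw [map_mul, e1, e2]
    have e3 : exp (((Real.log n - Real.log m : ℝ) : ℂ) * t * I) =
        exp (-((Real.log m : ℝ) * t * I)) * exp ((Real.log n : ℝ) * t * I) := by
      rw [← exp_add]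
      congr 1
      push_cast
      ring
    rw [e3]
    ring
  have hint : ∀ θ : ℝ, Integrable fun t : ℝ => exp ((θ : ℂ) * t * I) * ((w t : ℝ) : ℂ) := by
    intro θ
    have h1 : Integrable w := by
      have h2 := (integrable_exp_neg_mul_sq (b := (H ^ 2)⁻¹) (by positivity)).comp_sub_right T1
      refine h2.congr (Eventually.of_forall fun t => ?_)
      change Real.exp (-(H ^ 2)⁻¹ * (t - T1) ^ 2) = Real.exp (-((t - T1) ^ 2 / H ^ 2))
      congr 1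
      field_simp
    refine Integrable.mono' h1 ?_ (Eventually.of_forall fun t => ?_)
    · have : Continuous fun t : ℝ => exp ((θ : ℂ) * t * I) * ((w t : ℝ) : ℂ) := by
        rw [hw]
        fun_prop
      exact this.aestronglyMeasurable
    · rw [norm_mul, norm_real, Real.norm_of_nonneg (Real.exp_nonneg _),
        show ((θ : ℂ) * t * I) = ((θ * t : ℝ) : ℂ) * I by push_cast; ring, norm_exp_ofReal_mul_I, one_mul]
  set J := ∫ t : ℝ, ‖∑ n ∈ Finset.Icc 1 N, c n * (n : ℂ) ^ (-(t * I))‖ ^ 2 * w t with hJ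
  have hJ2 : ((J : ℝ) : ℂ) = ∑ m ∈ Finset.Icc 1 N, ∑ n ∈ Finset.Icc 1 N, c m * conj (c n) *
      (((G * Real.exp (-(H ^ 2 * (Real.log n - Real.log m) ^ 2 / 4)) : ℝ) : ℂ) *
        exp (((Real.log n - Real.log m : ℝ) : ℂ) * T1 * I)) := by
    rw [hJ, ← integral_complex_ofReal]
    have h1 : ∫ t : ℝ, ((‖∑ n ∈ Finset.Icc 1 N, c n * (n : ℂ) ^ (-(t * I))‖ ^ 2 * w t : ℝ) : ℂ) =
        ∫ t : ℝ, ∑ m ∈ Finset.Icc 1 N, ∑ n ∈ Finset.Icc 1 N, c m * conj (c n) *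
        (exp (((Real.log n - Real.log m : ℝ) : ℂ) * t * I) * ((w t : ℝ) : ℂ)) :=
      integral_congr_ae (Eventually.of_forall hexp)
    rw [h1, integral_finsetSum _ fun m _ => integrable_finsetSum _ fun n _ => (hint _).const_mul _]
    refine Finset.sum_congr rfl fun m _ => ?_
    rw [integral_finsetSum _ fun n _ => (hint _).const_mul _]
    refine Finset.sum_congr rfl fun n _ => ?_
    rw [integral_const_mul, G02_gauss hH0]
  -- the diagonal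
  have hdiag : ∀ m ∈ Finset.Icc 1 N, ∑ n ∈ Finset.Icc 1 N, c m * conj (c n) *
      (((G * Real.exp (-(H ^ 2 * (Real.log n - Real.log m) ^ 2 / 4)) : ℝ) : ℂ) *
        exp (((Real.log n - Real.log m : ℝ) : ℂ) * T1 * I)) =
      ((G * ‖c m‖ ^ 2 : ℝ) : ℂ) + ∑ n ∈ (Finset.Icc 1 N).erase m, c m * conj (c n) *
      (((G * Real.exp (-(H ^ 2 * (Real.log n - Real.log m) ^ 2 / 4)) : ℝ) : ℂ) *
        exp (((Real.log n - Real.log m : ℝ) : ℂ) * T1 * I)) := by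
    intro m hm
    rw [← Finset.add_sum_erase _ _ hm]
    congr 1
    rw [sub_self, mul_conj, normSq_eq_norm_sq]
    simp
    ring
  rw [Finset.sum_congr rfl hdiag, Finset.sum_add_distrib] at hJ2
  set R := ∑ m ∈ Finset.Icc 1 N, ∑ n ∈ (Finset.Icc 1 N).erase m, c m * conj (c n) *
      (((G * Real.exp (-(H ^ 2 * (Real.log n - Real.log m) ^ 2 / 4)) : ℝ) : ℂ) *
        exp (((Real.log n - Real.log m : ℝ) : ℂ) * T1 * I)) with hR
  have hD : ∑ m ∈ Finset.Icc 1 N, ((G * ‖c m‖ ^ 2 : ℝ) : ℂ) = ((G * S : ℝ) : ℂ) := by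
    rw [hS, Finset.mul_sum, ofReal_sum]
  rw [hD] at hJ2
  have hRle : ‖R‖ ≤ 1 / 2 * (G * S) := by
    have h1 : ∀ m ∈ Finset.Icc 1 N, ‖∑ n ∈ (Finset.Icc 1 N).erase m, c m * conj (c n) *
      (((G * Real.exp (-(H ^ 2 * (Real.log n - Real.log m) ^ 2 / 4)) : ℝ) : ℂ) *
        exp (((Real.log n - Real.log m : ℝ) : ℂ) * T1 * I))‖ ≤
        ∑ n ∈ Finset.Icc 1 N, G * Real.exp (-((N : ℝ) ^ 2 / 4)) * ((‖c m‖ ^ 2 + ‖c n‖ ^ 2) / 2) := by
      intro m hm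
      refine (norm_sum_le _ _).trans ?_
      refine (Finset.sum_le_sum fun n hn => ?_).trans
        (Finset.sum_le_sum_of_subset_of_nonneg (Finset.erase_subset m _) fun n _ _ => ?_)
      · rw [Finset.mem_erase, Finset.mem_Icc] at hn
        rw [Finset.mem_Icc] at hm
        rw [norm_mul, norm_mul, norm_mul, RCLike.norm_conj, norm_real,
          Real.norm_of_nonneg (by positivity),
          show (((Real.log n - Real.log m : ℝ) : ℂ) * T1 * I) =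
            (((Real.log n - Real.log m) * T1 : ℝ) : ℂ) * I by push_cast; ring,
          norm_exp_ofReal_mul_I, mul_one]
        have h2 := G02_log hm.1 hn.2.1 hm.2 hn.2.2 hn.1.symm
        have h3 : (N : ℝ) ^ 2 ≤ H ^ 2 * (Real.log n - Real.log m) ^ 2 := by
          have h4 : (1 / (N : ℝ)) ^ 2 ≤ (Real.log n - Real.log m) ^ 2 := by
            rw [← sq_abs (Real.log n - Real.log m)]
            exact pow_le_pow_left₀ (by positivity) h2 2
          have h5 : ((N : ℝ) ^ 2) ^ 2 ≤ H ^ 2 := pow_le_pow_left₀ (by positivity) hH 2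
          calc (N : ℝ) ^ 2 = ((N : ℝ) ^ 2) ^ 2 * (1 / (N : ℝ)) ^ 2 := by field_simp
            _ ≤ _ := mul_le_mul h5 h4 (by positivity) (by positivity)
        have h6 : Real.exp (-(H ^ 2 * (Real.log n - Real.log m) ^ 2 / 4)) ≤
            Real.exp (-((N : ℝ) ^ 2 / 4)) := Real.exp_le_exp.mpr (by linarith)
        have h7 : ‖c m‖ * ‖c n‖ ≤ (‖c m‖ ^ 2 + ‖c n‖ ^ 2) / 2 := by
          nlinarith [sq_nonneg (‖c m‖ - ‖c n‖)]
        calc ‖c m‖ * ‖c n‖ * (G * Real.exp (-(H ^ 2 * (Real.log n - Real.log m) ^ 2 / 4))) ≤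
            ((‖c m‖ ^ 2 + ‖c n‖ ^ 2) / 2) * (G * Real.exp (-((N : ℝ) ^ 2 / 4))) :=
              mul_le_mul h7 (mul_le_mul_of_nonneg_left h6 hG0) (by positivity) (by positivity)
          _ = _ := by ring
      · positivity
    refine (norm_sum_le _ _).trans ((Finset.sum_le_sum h1).trans ?_)
    have h8 : ∑ m ∈ Finset.Icc 1 N, ∑ n ∈ Finset.Icc 1 N,
        G * Real.exp (-((N : ℝ) ^ 2 / 4)) * ((‖c m‖ ^ 2 + ‖c n‖ ^ 2) / 2) =
        G * Real.exp (-((N : ℝ) ^ 2 / 4)) * (N * S) := by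
      have h9 : ∀ m ∈ Finset.Icc 1 N, ∑ n ∈ Finset.Icc 1 N,
          G * Real.exp (-((N : ℝ) ^ 2 / 4)) * ((‖c m‖ ^ 2 + ‖c n‖ ^ 2) / 2) =
          G * Real.exp (-((N : ℝ) ^ 2 / 4)) / 2 * (N * ‖c m‖ ^ 2 + S) := by
        intro m _
        rw [← Finset.mul_sum, ← Finset.sum_div, Finset.sum_add_distrib, Finset.sum_const,
          Nat.card_Icc, nsmul_eq_mul, ← hS, Nat.add_sub_cancel]
        ring
      rw [Finset.sum_congr rfl h9, ← Finset.mul_sum, Finset.sum_add_distrib, ← Finset.mul_sum,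
        Finset.sum_const, Nat.card_Icc, nsmul_eq_mul, ← hS, Nat.add_sub_cancel]
      ring
    rw [h8]
    have h10 := G02_exp hN
    have hS0 : 0 ≤ S := by positivity
    calc G * Real.exp (-((N : ℝ) ^ 2 / 4)) * (N * S) =
        (N * Real.exp (-((N : ℝ) ^ 2 / 4))) * (G * S) := by ring
      _ ≤ 1 / 2 * (G * S) := mul_le_mul_of_nonneg_right h10 (by positivity)
  have hre : J = G * S + R.re := by
    have := congrArg re hJ2
    rwa [ofReal_re, add_re, ofReal_re] at this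
  have h11 := abs_re_le_norm R
  have h12 := abs_le.mp (h11.trans hRle)
  rw [hre]
  constructor <;> linarith [h12.1, h12.2]

end GG
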