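import Mathlib

open Complex MeasureTheory Set Filter Topology
open scoped Real ComplexConjugate

namespace GG

/-- the terms on Re s = 2 -/
private theorem G03_term (b : ArithmeticFunction ℂ) (t : ℝ) (n : ℕ) :
    ‖LSeries.term (fun n => b n) (2 + t * I) n‖ ≤ ‖b n‖ * (n : ℝ) ^ (-(2 : ℝ)) := by
  rw [LSeries.norm_term_eq]
  split_ifs with h
  · positivity
  · have hre : (2 + (t : ℂ) * I).re = 2 := by simp
    rw [hre, Real.rpow_neg (Nat.cast_nonneg n), div_eq_mul_inv]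

private theorem G03_pow (n : ℕ) : (n : ℝ) ^ (-(2 : ℝ)) ≤ (n : ℝ) ^ (-(3 / 2 : ℝ)) := by
  rcases Nat.eq_zero_or_pos n with rfl | hn
  · rw [Nat.cast_zero, Real.zero_rpow (by norm_num), Real.zero_rpow (by norm_num)]
  · have h1 : (1 : ℝ) ≤ n := by exact_mod_cast hn
    exact Real.rpow_le_rpow_of_exponent_le h1 (by norm_num)

private theorem G03_pow' {N n : ℕ} (hN : 1 ≤ N) (hn : N ≤ n) :
    (n : ℝ) ^ (-(2 : ℝ)) ≤ (N : ℝ) ^ (-(1 / 2 : ℝ)) * (n : ℝ) ^ (-(3 / 2 : ℝ)) := by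
  have hN0 : (0 : ℝ) < N := by exact_mod_cast hN
  have hn0 : (0 : ℝ) < n := by exact_mod_cast lt_of_lt_of_le hN hn
  have h1 : (n : ℝ) ^ (-(2 : ℝ)) = (n : ℝ) ^ (-(1 / 2 : ℝ)) * (n : ℝ) ^ (-(3 / 2 : ℝ)) := by
    rw [← Real.rpow_add hn0]; norm_num
  rw [h1]
  have h2 : (n : ℝ) ^ (-(1 / 2 : ℝ)) ≤ (N : ℝ) ^ (-(1 / 2 : ℝ)) :=
    Real.rpow_le_rpow_of_nonpos hN0 (by exact_mod_cast hn) (by norm_num)
  exact mul_le_mul_of_nonneg_right h2 (by positivity)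

/-- Row G03. Re s = 2. -/
theorem tail_bound {a b : ArithmeticFunction ℂ} (hab : b * b = a)
    (hb : Summable (fun n : ℕ => ‖b n‖ * (n : ℝ) ^ (-(3 / 2 : ℝ)))) : ∃ C : ℝ, 0 < C ∧
    ∀ N : ℕ, 1 ≤ N → ∀ t : ℝ,
      ‖LSeries a (2 + t * I) - (∑ n ∈ Finset.Icc 1 N, b n * (n : ℂ) ^ (-(2 + t * I))) ^ 2‖ ≤
        C * (N : ℝ) ^ (-(1 / 2 : ℝ)) ∧ ‖LSeries a (2 + t * I)‖ ≤ C := by
  set g : ℕ → ℝ := fun n : ℕ => ‖b n‖ * (n : ℝ) ^ (-(3 / 2 : ℝ)) with hg
  set B : ℝ := ∑' n, g n with hB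
  have hg0 : ∀ n, 0 ≤ g n := fun n => by positivity
  have hB0 : 0 ≤ B := tsum_nonneg hg0
  have hterm : ∀ (t : ℝ) (n : ℕ), ‖LSeries.term (fun n => b n) (2 + t * I) n‖ ≤ g n := fun t n =>
    (G03_term b t n).trans (mul_le_mul_of_nonneg_left (G03_pow n) (norm_nonneg _))
  have hsum : ∀ t : ℝ, LSeriesSummable (fun n => b n) (2 + t * I) := fun t =>
    Summable.of_norm_bounded hb (hterm t)
  have hmul : ∀ t : ℝ, LSeries (fun n => a n) (2 + t * I) =
      LSeries (fun n => b n) (2 + t * I) * LSeries (fun n => b n) (2 + t * I) := by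
    intro t
    rw [← hab]
    exact ArithmeticFunction.LSeries_mul' (hsum t) (hsum t)
  have hL : ∀ t : ℝ, ‖LSeries (fun n => b n) (2 + t * I)‖ ≤ B := by
    intro t
    unfold LSeries
    refine (norm_tsum_le_tsum_norm ((hsum t).norm)).trans ?_
    exact (hsum t).norm.tsum_le_tsum (hterm t) hb
  refine ⟨2 * B ^ 2 + 1, by positivity, ?_⟩
  intro N hN t
  have hN0 : (0 : ℝ) < N := by exact_mod_cast hN
  have hS : ∑ n ∈ Finset.Icc 1 N, b n * (n : ℂ) ^ (-(2 + t * I)) =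
      ∑ n ∈ Finset.range (N + 1), LSeries.term (fun n => b n) (2 + t * I) n := by
    rw [Finset.sum_range_succ', LSeries.term_zero, add_zero]
    rw [Finset.range_eq_Ico, Finset.sum_Ico_add' (fun n => LSeries.term (fun n => b n) (2 + t * I) n) 0 N 1]
    refine Finset.sum_congr ?_ ?_
    · ext n; simp
    · intro n hn
      rw [LSeries.term_def₀ (by simp)]
  have hsplit := (hsum t).sum_add_tsum_nat_add (N + 1)
  have hdiff : ‖LSeries (fun n => b n) (2 + t * I) -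
      ∑ n ∈ Finset.Icc 1 N, b n * (n : ℂ) ^ (-(2 + t * I))‖ ≤ B * (N : ℝ) ^ (-(1 / 2 : ℝ)) := by
    rw [hS]
    have e1 : LSeries (fun n => b n) (2 + t * I) -
        ∑ n ∈ Finset.range (N + 1), LSeries.term (fun n => b n) (2 + t * I) n =
        ∑' n, LSeries.term (fun n => b n) (2 + t * I) (n + (N + 1)) := by
      unfold LSeries
      rw [← hsplit]; ring
    rw [e1]
    have s1 : Summable (fun n => ‖LSeries.term (fun n => b n) (2 + t * I) (n + (N + 1))‖) :=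
      ((summable_nat_add_iff (N + 1)).2 (hsum t)).norm
    have s2 : Summable (fun n => g (n + (N + 1))) := (summable_nat_add_iff (N + 1)).2 hb
    refine (norm_tsum_le_tsum_norm s1).trans ?_
    have e2 : ∀ n, ‖LSeries.term (fun n => b n) (2 + t * I) (n + (N + 1))‖ ≤
        (N : ℝ) ^ (-(1 / 2 : ℝ)) * g (n + (N + 1)) := by
      intro n
      refine (G03_term b t _).trans ?_
      have := G03_pow' hN (show N ≤ n + (N + 1) by omega)
      calc ‖b (n + (N + 1))‖ * ((n + (N + 1) : ℕ) : ℝ) ^ (-(2 : ℝ)) ≤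
          ‖b (n + (N + 1))‖ * ((N : ℝ) ^ (-(1 / 2 : ℝ)) *
            ((n + (N + 1) : ℕ) : ℝ) ^ (-(3 / 2 : ℝ))) :=
            mul_le_mul_of_nonneg_left this (norm_nonneg _)
        _ = (N : ℝ) ^ (-(1 / 2 : ℝ)) * g (n + (N + 1)) := by rw [hg]; ring
    refine (s1.tsum_le_tsum e2 (s2.mul_left _)).trans ?_
    rw [tsum_mul_left, mul_comm]
    have e3 := Summable.sum_add_tsum_nat_add (N + 1) hb
    have e4 : 0 ≤ ∑ n ∈ Finset.range (N + 1), g n := Finset.sum_nonneg fun n _ => hg0 n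
    have e5 : ∑' n, g (n + (N + 1)) ≤ B := by
      rw [hB, ← e3]; linarith
    exact mul_le_mul_of_nonneg_right e5 (by positivity)
  have hSB : ‖∑ n ∈ Finset.Icc 1 N, b n * (n : ℂ) ^ (-(2 + t * I))‖ ≤ B := by
    rw [hS]
    refine (norm_sum_le _ _).trans ?_
    refine (Finset.sum_le_sum fun n _ => hterm t n).trans ?_
    exact hb.sum_le_tsum _ (fun n _ => hg0 n)
  constructor
  · rw [hmul t]
    set L := LSeries (fun n => b n) (2 + t * I) with hLd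
    set S := ∑ n ∈ Finset.Icc 1 N, b n * (n : ℂ) ^ (-(2 + t * I)) with hSd
    have e1 : L * L - S ^ 2 = (L - S) * (L + S) := by ring
    rw [e1, norm_mul]
    have e2 : ‖L + S‖ ≤ 2 * B := (norm_add_le _ _).trans (by linarith [hL t])
    calc ‖L - S‖ * ‖L + S‖ ≤ (B * (N : ℝ) ^ (-(1 / 2 : ℝ))) * (2 * B) := by gcongr
      _ = 2 * B ^ 2 * (N : ℝ) ^ (-(1 / 2 : ℝ)) := by ring
      _ ≤ (2 * B ^ 2 + 1) * (N : ℝ) ^ (-(1 / 2 : ℝ)) := by gcongr; linarith
  · rw [hmul t, norm_mul]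
    have := hL t
    calc ‖LSeries (fun n => b n) (2 + t * I)‖ * ‖LSeries (fun n => b n) (2 + t * I)‖
        ≤ B * B := by gcongr
      _ ≤ 2 * B ^ 2 + 1 := by nlinarith

end GG
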