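import Mathlib

open Complex MeasureTheory Set Filter Topology
open scoped Real ComplexConjugate

namespace GG

/-- Row G04. Partial sums from the two-sided bound of the Dirichlet series. -/
theorem partial_sums {β : ℕ → ℝ} (h0 : ∀ n, 0 ≤ β n) {κ c1 C1 : ℝ} (hκ : 0 < κ) (hc1 : 0 < c1)
    (hE : ∀ δ : ℝ, 0 < δ → δ ≤ 1 → Summable (fun n : ℕ => β n * (n : ℝ) ^ (-(1 + δ))) ∧
      c1 * δ ^ (-κ) ≤ ∑' n : ℕ, β n * (n : ℝ) ^ (-(1 + δ)) ∧
      ∑' n : ℕ, β n * (n : ℝ) ^ (-(1 + δ)) ≤ C1 * δ ^ (-κ)) :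
    ∃ c2 C2 A0 : ℝ, 0 < c2 ∧ 0 < C2 ∧ 1 ≤ A0 ∧ ∀ A : ℝ, A0 ≤ A → ∃ N0 : ℕ, ∀ N : ℕ, N0 ≤ N →
      ∑ n ∈ Finset.Icc 1 N, β n * (n : ℝ)⁻¹ ≤ C2 * Real.log N ^ κ ∧
      c2 * (Real.log N / A) ^ κ ≤ ∑ n ∈ Finset.Icc 1 N, β n * (n : ℝ) ^ (-(1 + 2 * A / Real.log N)) := by
  have hC1 : 0 < C1 := by
    obtain ⟨_, h1, h2⟩ := hE 1 one_pos le_rfl
    rw [Real.one_rpow, mul_one] at h1 h2
    linarith
  have hterm : ∀ (n : ℕ) (x : ℝ), 0 ≤ β n * (n : ℝ) ^ x := fun n x =>
    mul_nonneg (h0 n) (Real.rpow_nonneg (Nat.cast_nonneg n) x)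
  set c : ℝ := c1 * 2 ^ (-κ) with hc
  have hc0 : 0 < c := by positivity
  -- `A0`
  obtain ⟨A1, hA1⟩ : ∃ A1 : ℝ, ∀ A, A1 ≤ A → Real.exp (-A) * C1 ≤ c / 2 := by
    refine ⟨-Real.log (c / 2 / C1), fun A hA => ?_⟩
    rw [← le_div_iff₀ hC1, ← Real.exp_log (show 0 < c / 2 / C1 by positivity)]
    exact Real.exp_le_exp.mpr (by linarith)
  refine ⟨c / 2, Real.exp 1 * C1, max 1 A1, by positivity, by positivity, le_max_left _ _,
    fun A hA => ?_⟩
  have hA0 : 1 ≤ A := (le_max_left _ _).trans hA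
  have hAA : A1 ≤ A := (le_max_right _ _).trans hA
  obtain ⟨N0, hN0⟩ := exists_nat_ge (Real.exp (2 * A))
  refine ⟨N0, fun N hN => ?_⟩
  have hNe : Real.exp (2 * A) ≤ N := hN0.trans (by exact_mod_cast hN)
  have hNpos : (0 : ℝ) < N := (Real.exp_pos _).trans_le hNe
  have hN1 : 1 ≤ N := by
    have : N ≠ 0 := by
      rintro rfl
      simp at hNpos
    omega
  set L := Real.log N with hL
  have hL2 : 2 * A ≤ L := by
    rw [hL, Real.le_log_iff_exp_le hNpos]
    exact hNe
  have hL0 : 0 < L := by linarith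
  constructor
  · obtain ⟨hs, _, h2⟩ := hE (1 / L) (by positivity) (by rw [div_le_one hL0]; linarith)
    have e1 : (1 / L) ^ (-κ) = L ^ κ := by
      rw [one_div, Real.inv_rpow hL0.le, Real.rpow_neg hL0.le, inv_inv]
    rw [e1] at h2
    calc ∑ n ∈ Finset.Icc 1 N, β n * (n : ℝ)⁻¹ ≤
          ∑ n ∈ Finset.Icc 1 N, Real.exp 1 * (β n * (n : ℝ) ^ (-(1 + 1 / L))) := by
          refine Finset.sum_le_sum fun n hn => ?_
          rw [Finset.mem_Icc] at hn
          have hn0 : (0 : ℝ) < n := by exact_mod_cast hn.1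
          have e2 : (n : ℝ)⁻¹ ≤ Real.exp 1 * (n : ℝ) ^ (-(1 + 1 / L)) := by
            have e3 : (n : ℝ) ^ (-(1 + 1 / L)) = (n : ℝ)⁻¹ * (n : ℝ) ^ (-(1 / L)) := by
              rw [neg_add, Real.rpow_add hn0, Real.rpow_neg_one]
            have e4 : Real.exp (-1) ≤ (n : ℝ) ^ (-(1 / L)) := by
              rw [Real.rpow_def_of_pos hn0]
              refine Real.exp_le_exp.mpr ?_
              have : Real.log n ≤ L := Real.log_le_log hn0 (by exact_mod_cast hn.2)
              have h3 : Real.log n * (1 / L) ≤ 1 := by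
                rw [mul_one_div, div_le_one hL0]
                exact this
              linarith
            rw [e3]
            have e5 : Real.exp 1 * Real.exp (-1) = 1 := by
              rw [← Real.exp_add]
              simp
            calc (n : ℝ)⁻¹ = (n : ℝ)⁻¹ * (Real.exp 1 * Real.exp (-1)) := by rw [e5, mul_one]
              _ ≤ (n : ℝ)⁻¹ * (Real.exp 1 * (n : ℝ) ^ (-(1 / L))) := by gcongr
              _ = _ := by ring
          calc β n * (n : ℝ)⁻¹ ≤ β n * (Real.exp 1 * (n : ℝ) ^ (-(1 + 1 / L))) :=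
                mul_le_mul_of_nonneg_left e2 (h0 n)
            _ = _ := by ring
      _ = Real.exp 1 * ∑ n ∈ Finset.Icc 1 N, β n * (n : ℝ) ^ (-(1 + 1 / L)) := by
          rw [Finset.mul_sum]
      _ ≤ Real.exp 1 * (C1 * L ^ κ) := by
          refine mul_le_mul_of_nonneg_left ?_ (Real.exp_pos _).le
          exact (hs.sum_le_tsum _ fun n _ => hterm n _).trans h2
      _ = _ := by ring
  · have hA' : 0 < A := by linarith
    obtain ⟨hs1, h1, _⟩ := hE (2 * A / L) (by positivity) (by rw [div_le_one hL0]; linarith)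
    obtain ⟨hs2, _, h2⟩ := hE (A / L) (by positivity) (by rw [div_le_one hL0]; linarith)
    have e1 : (2 * A / L) ^ (-κ) = 2 ^ (-κ) * (L / A) ^ κ := by
      rw [Real.rpow_neg (by positivity), ← Real.inv_rpow (by positivity), Real.rpow_neg (by norm_num),
        ← Real.inv_rpow (by norm_num), ← Real.mul_rpow (by norm_num) (by positivity)]
      congr 1
      field_simp
    have e2 : (A / L) ^ (-κ) = (L / A) ^ κ := by
      rw [Real.rpow_neg (by positivity), ← Real.inv_rpow (by positivity), inv_div]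
    rw [e1] at h1
    rw [e2] at h2
    set g : ℕ → ℝ := fun n => β n * (n : ℝ) ^ (-(1 + 2 * A / L)) with hg
    have hsplit : ∑' n, g n ≤ ∑ n ∈ Finset.Icc 1 N, g n +
        Real.exp (-A) * ∑' n : ℕ, β n * (n : ℝ) ^ (-(1 + A / L)) := by
      have h3 : ∀ n, g n ≤ (if n ∈ Finset.Icc 1 N then g n else 0) +
          Real.exp (-A) * (β n * (n : ℝ) ^ (-(1 + A / L))) := by
        intro n
        have h4 : 0 ≤ Real.exp (-A) * (β n * (n : ℝ) ^ (-(1 + A / L))) :=
          mul_nonneg (Real.exp_pos _).le (hterm n _)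
        split_ifs with hn
        · linarith
        · rw [zero_add]
          rcases Nat.eq_zero_or_pos n with rfl | hn0
          · have : g 0 = 0 := by
              simp only [hg]
              rw [Nat.cast_zero, Real.zero_rpow (by
                have : 0 < 2 * A / L := by positivity
                linarith), mul_zero]
            rw [this]
            exact h4
          · rw [Finset.mem_Icc] at hn
            have hnN : N < n := by
              by_contra hcon
              exact hn ⟨hn0, by omega⟩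
            have hn0' : (0 : ℝ) < n := by exact_mod_cast hn0
            have e3 : (n : ℝ) ^ (-(1 + 2 * A / L)) =
                (n : ℝ) ^ (-(1 + A / L)) * (n : ℝ) ^ (-(A / L)) := by
              rw [← Real.rpow_add hn0']
              congr 1
              ring
            have e4 : (n : ℝ) ^ (-(A / L)) ≤ Real.exp (-A) := by
              rw [Real.rpow_def_of_pos hn0']
              refine Real.exp_le_exp.mpr ?_
              have h5 : L ≤ Real.log n := Real.log_le_log hNpos (by exact_mod_cast hnN.le)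
              have h6 : A ≤ Real.log n * (A / L) := by
                calc A = L * (A / L) := by field_simp
                  _ ≤ Real.log n * (A / L) := by gcongr
              linarith
            simp only [hg]
            rw [e3]
            calc β n * ((n : ℝ) ^ (-(1 + A / L)) * (n : ℝ) ^ (-(A / L))) ≤
                  β n * ((n : ℝ) ^ (-(1 + A / L)) * Real.exp (-A)) := by
                  refine mul_le_mul_of_nonneg_left ?_ (h0 n)
                  exact mul_le_mul_of_nonneg_left e4 (Real.rpow_nonneg hn0'.le _)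
              _ = _ := by ring
      have hfin : Summable (fun n => if n ∈ Finset.Icc 1 N then g n else 0) :=
        summable_of_ne_finset_zero (s := Finset.Icc 1 N) fun n hn => if_neg hn
      have h4 := hs1.tsum_le_tsum h3 (hfin.add (hs2.mul_left _))
      rw [hfin.tsum_add (hs2.mul_left _), tsum_mul_left,
        tsum_eq_sum (s := Finset.Icc 1 N) (fun n hn => if_neg hn)] at h4
      refine h4.trans (le_of_eq ?_)
      congr 1
      exact Finset.sum_congr rfl fun n hn => if_pos hn
    have h5 : Real.exp (-A) * ∑' n : ℕ, β n * (n : ℝ) ^ (-(1 + A / L)) ≤ c / 2 * (L / A) ^ κ := by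
      calc Real.exp (-A) * ∑' n : ℕ, β n * (n : ℝ) ^ (-(1 + A / L)) ≤
            Real.exp (-A) * (C1 * (L / A) ^ κ) := mul_le_mul_of_nonneg_left h2 (Real.exp_pos _).le
        _ = (Real.exp (-A) * C1) * (L / A) ^ κ := by ring
        _ ≤ _ := mul_le_mul_of_nonneg_right (hA1 A hAA) (by positivity)
    have h6 : c * (L / A) ^ κ ≤ ∑' n, g n := by
      refine le_trans (le_of_eq ?_) h1
      rw [hc]
      ring
    have h7 : c / 2 * (L / A) ^ κ + c / 2 * (L / A) ^ κ = c * (L / A) ^ κ := by ring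
    linarith

end GG
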