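import Pool.Agent.Lib.MP_0f5a55_nt.GG.G01
import Pool.Agent.Lib.MP_0f5a55_nt.GG.G02
import Pool.Agent.Lib.MP_0f5a55_nt.GG.G03
import Pool.Agent.Lib.MP_0f5a55_nt.GG.G04

open Complex MeasureTheory Set Filter Topology
open scoped Real ComplexConjugate

namespace GG

/-- L1 norm on a vertical line -/
noncomputable def G05_J (f : ℂ → ℂ) (σ : ℝ) : ℝ := ∫ t : ℝ, ‖f (σ + t * I)‖

/-- holomorphic and exponentially decaying on the strip -/
def G05_Adm (f : ℂ → ℂ) : Prop :=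
  (∀ s : ℂ, 0 < s.re → DifferentiableAt ℂ f s) ∧
    ∃ C : ℝ, ∀ s : ℂ, 1 / 2 ≤ s.re → s.re ≤ 2 → ‖f s‖ ≤ C * Real.exp (-|s.im|)

theorem G05_J_nonneg (f : ℂ → ℂ) (σ : ℝ) : 0 ≤ G05_J f σ :=
  integral_nonneg fun _ => norm_nonneg _

theorem G05_int_exp_abs : Integrable (fun t : ℝ => Real.exp (-|t|)) := by
  refine Integrable.mono' (integrable_inv_one_add_sq.const_mul 2)
    (by fun_prop : Continuous fun t : ℝ => Real.exp (-|t|)).aestronglyMeasurable ?_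
  refine Filter.Eventually.of_forall fun t => ?_
  rw [Real.norm_of_nonneg (Real.exp_pos _).le, Real.exp_neg]
  have h := Real.quadratic_le_exp_of_nonneg (abs_nonneg t)
  have h2 : |t| ^ 2 = t ^ 2 := sq_abs t
  have h3 : (1 + t ^ 2) / 2 ≤ Real.exp |t| := by
    have := abs_nonneg t
    rw [h2] at h
    linarith
  calc (Real.exp |t|)⁻¹ ≤ ((1 + t ^ 2) / 2)⁻¹ := inv_anti₀ (by positivity) h3
    _ = 2 * (1 + t ^ 2)⁻¹ := by rw [inv_div]; ring

theorem G05_cont_line {f : ℂ → ℂ} (hf : ∀ s : ℂ, 0 < s.re → DifferentiableAt ℂ f s) {σ : ℝ}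
    (h : 0 < σ) : Continuous (fun t : ℝ => f (σ + t * I)) := by
  rw [continuous_iff_continuousAt]
  intro t
  have h1 : ContinuousAt f ((σ : ℂ) + t * I) := (hf _ (by simpa using h)).continuousAt
  have h2 : ContinuousAt (fun t : ℝ => (σ : ℂ) + t * I) t := by fun_prop
  exact ContinuousAt.comp (f := fun t : ℝ => (σ : ℂ) + t * I) h1 h2

theorem G05_Adm_int {f : ℂ → ℂ} (hf : G05_Adm f) {σ : ℝ} (h1 : 1 / 2 ≤ σ) (h2 : σ ≤ 2) :
    Integrable (fun t : ℝ => ‖f (σ + t * I)‖) := by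
  obtain ⟨hd, C, hC⟩ := hf
  refine Integrable.mono' (G05_int_exp_abs.const_mul C)
    (G05_cont_line hd (by linarith)).norm.aestronglyMeasurable ?_
  refine Filter.Eventually.of_forall fun t => ?_
  rw [Real.norm_of_nonneg (norm_nonneg _)]
  simpa using hC (σ + t * I) (by simpa using h1) (by simpa using h2)

theorem G05_Adm_sub {f g : ℂ → ℂ} (hf : G05_Adm f) (hg : G05_Adm g) :
    G05_Adm (fun s => f s - g s) := by
  obtain ⟨hd, C, hC⟩ := hf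
  obtain ⟨hd', C', hC'⟩ := hg
  refine ⟨fun s hs => (hd s hs).sub (hd' s hs), C + C', fun s h1 h2 => ?_⟩
  calc ‖f s - g s‖ ≤ ‖f s‖ + ‖g s‖ := norm_sub_le _ _
    _ ≤ C * Real.exp (-|s.im|) + C' * Real.exp (-|s.im|) := add_le_add (hC s h1 h2) (hC' s h1 h2)
    _ = _ := by ring

theorem G05_tl {f : ℂ → ℂ} (hf : G05_Adm f) {σ : ℝ} (h1 : 1 / 2 ≤ σ) (h2 : σ ≤ 2) :
    G05_J f σ ≤ G05_J f (1 / 2) ^ ((2 - σ) / (2 - 1 / 2)) * G05_J f 2 ^ ((σ - 1 / 2) / (2 - 1 / 2)) := by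
  obtain ⟨hd, C, hC⟩ := hf
  have := three_l1 (f := f) (a := 1 / 2) (b := 2) (by norm_num)
    (fun s hs => (hd s (by have := hs.1; linarith)).continuousAt.continuousWithinAt)
    (fun s hs => (hd s (by have := hs.1; linarith)).differentiableWithinAt) (C := C)
    (fun s h1 h2 => hC s h1 h2) h1 h2
  simpa [G05_J] using this

theorem G05_amgm {x y θ : ℝ} (hx : 0 ≤ x) (hy : 0 ≤ y) (h0 : 0 ≤ θ) (h1 : θ ≤ 1) :
    x ^ (1 - θ) * y ^ θ ≤ x + y := by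
  have h := Real.geom_mean_le_arith_mean2_weighted (by linarith : 0 ≤ 1 - θ) h0 hx hy (by ring)
  nlinarith [mul_nonneg h0 hx, mul_nonneg (by linarith : 0 ≤ 1 - θ) hy]

/-- the abstract comparison -/
theorem G05_compare {f g : ℂ → ℂ} (hf : G05_Adm f) (hg : G05_Adm g) {M A : ℝ} {N : ℕ}
    (hN : 2 ≤ N) (hA : 0 ≤ A) (hσ : A / Real.log N ≤ 3 / 2)
    (h1 : G05_J (fun s => f s - g s) 2 ≤ M * (N : ℝ) ^ (-(1 / 2 : ℝ))) (h2 : G05_J f 2 ≤ M) :
    G05_J g (1 / 2 + A / Real.log N) ≤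
      2 * G05_J f (1 / 2) + 2 * M + Real.exp (-(A / 3)) * G05_J g (1 / 2) := by
  have hN' : (2 : ℝ) ≤ N := by exact_mod_cast hN
  have hlog : 0 < Real.log N := Real.log_pos (by linarith)
  set σ : ℝ := 1 / 2 + A / Real.log N with hσdef
  have hA' : 0 ≤ A / Real.log N := div_nonneg hA hlog.le
  have hs1 : 1 / 2 ≤ σ := by linarith
  have hs2 : σ ≤ 2 := by linarith
  set θ : ℝ := (σ - 1 / 2) / (2 - 1 / 2) with hθ
  have hθ0 : 0 ≤ θ := div_nonneg (by linarith) (by norm_num)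
  have hθ1 : θ ≤ 1 := by rw [hθ, div_le_one (by norm_num)]; linarith
  have hθ2 : (2 - σ) / (2 - 1 / 2) = 1 - θ := by rw [hθ]; field_simp; ring
  have hM : 0 ≤ M := (G05_J_nonneg f 2).trans h2
  have hsub := G05_Adm_sub hf hg
  have i1 := G05_Adm_int hf hs1 hs2
  have i2 := G05_Adm_int hg hs1 hs2
  have i3 := G05_Adm_int hsub hs1 hs2
  have j1 := G05_Adm_int hf (σ := 1 / 2) (le_refl _) (by norm_num)
  have j2 := G05_Adm_int hg (σ := 1 / 2) (le_refl _) (by norm_num)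
  have j3 := G05_Adm_int hsub (σ := 1 / 2) (le_refl _) (by norm_num)
  -- triangle inequalities
  have t1 : G05_J g σ ≤ G05_J f σ + G05_J (fun s => f s - g s) σ := by
    unfold G05_J
    rw [← integral_add i1 i3]
    refine integral_mono i2 (i1.add i3) fun t => ?_
    have := norm_sub_le (f (σ + t * I)) (f (σ + t * I) - g (σ + t * I))
    simpa using this
  have t2 : G05_J (fun s => f s - g s) (1 / 2) ≤ G05_J f (1 / 2) + G05_J g (1 / 2) := by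
    unfold G05_J
    rw [← integral_add j1 j2]
    refine integral_mono j3 (j1.add j2) fun t => ?_
    exact norm_sub_le _ _
  -- J f σ
  have u1 : G05_J f σ ≤ G05_J f (1 / 2) + M := by
    refine (G05_tl hf hs1 hs2).trans ?_
    rw [hθ2]
    refine (G05_amgm (G05_J_nonneg _ _) (G05_J_nonneg _ _) hθ0 hθ1).trans ?_
    linarith
  have hexp : ((N : ℝ) ^ (-(1 / 2 : ℝ))) ^ θ = Real.exp (-(A / 3)) := by
    rw [← Real.rpow_mul (by linarith), Real.rpow_def_of_pos (by linarith)]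
    congr 1
    rw [hθ, hσdef]
    field_simp
    ring
  have u2 : G05_J (fun s => f s - g s) σ ≤
      Real.exp (-(A / 3)) * (G05_J f (1 / 2) + G05_J g (1 / 2) + M) := by
    refine (G05_tl hsub hs1 hs2).trans ?_
    rw [hθ2]
    have v1 : G05_J (fun s => f s - g s) 2 ^ θ ≤ M ^ θ * Real.exp (-(A / 3)) := by
      rw [← hexp, ← Real.mul_rpow hM (by positivity)]
      exact Real.rpow_le_rpow (G05_J_nonneg _ _) h1 hθ0
    have v2 : G05_J (fun s => f s - g s) (1 / 2) ^ (1 - θ) ≤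
        (G05_J f (1 / 2) + G05_J g (1 / 2)) ^ (1 - θ) :=
      Real.rpow_le_rpow (G05_J_nonneg _ _) t2 (by linarith)
    have hJK : 0 ≤ G05_J f (1 / 2) + G05_J g (1 / 2) :=
      add_nonneg (G05_J_nonneg _ _) (G05_J_nonneg _ _)
    calc _ ≤ (G05_J f (1 / 2) + G05_J g (1 / 2)) ^ (1 - θ) * (M ^ θ * Real.exp (-(A / 3))) :=
          mul_le_mul v2 v1 (by have := G05_J_nonneg (fun s => f s - g s) 2; positivity) (by positivity)
      _ = ((G05_J f (1 / 2) + G05_J g (1 / 2)) ^ (1 - θ) * M ^ θ) * Real.exp (-(A / 3)) := by ring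
      _ ≤ (G05_J f (1 / 2) + G05_J g (1 / 2) + M) * Real.exp (-(A / 3)) :=
          mul_le_mul_of_nonneg_right (G05_amgm hJK hM hθ0 hθ1) (Real.exp_pos _).le
      _ = _ := by ring
  have he : Real.exp (-(A / 3)) ≤ 1 := Real.exp_le_one_iff.mpr (by linarith)
  have he0 := (Real.exp_pos (-(A / 3))).le
  have hJ0 := G05_J_nonneg f (1 / 2)
  have w1 : Real.exp (-(A / 3)) * (G05_J f (1 / 2) + M) ≤ G05_J f (1 / 2) + M := by
    have : 0 ≤ G05_J f (1 / 2) + M := by linarith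
    nlinarith
  nlinarith [w1]

/-- the Gaussian weight -/
noncomputable def G05_w (T H : ℝ) (s : ℂ) : ℂ := Complex.exp ((s - T * I) ^ 2 / (H : ℂ) ^ 2)

theorem G05_w_norm (T H : ℝ) (s : ℂ) :
    ‖G05_w T H s‖ = Real.exp (s.re ^ 2 / H ^ 2) * Real.exp (-((s.im - T) ^ 2 / H ^ 2)) := by
  unfold G05_w
  rw [Complex.norm_exp, ← Real.exp_add]
  congr 1
  have h : ((H : ℂ) ^ 2) = ((H ^ 2 : ℝ) : ℂ) := by push_cast; ring
  rw [h, Complex.div_ofReal_re, pow_two, Complex.mul_re]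
  simp
  ring

theorem G05_w_diff (T H : ℝ) (s : ℂ) : DifferentiableAt ℂ (G05_w T H) s := by
  unfold G05_w
  fun_prop

theorem G05_growth {T H : ℝ} (hH : 0 < H) (k : ℕ) (t : ℝ) :
    (1 + |t|) ^ k * Real.exp (-((t - T) ^ 2 / H ^ 2)) ≤
      Real.exp ((k + 1) * |T| + (k + 1) ^ 2 * H ^ 2 / 4) * Real.exp (-|t|) := by
  have h1 : (1 + |t|) ^ k ≤ Real.exp (k * |t|) := by
    rw [Real.exp_nat_mul]
    exact pow_le_pow_left₀ (by positivity) (by have := Real.add_one_le_exp |t|; linarith) k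
  refine (mul_le_mul_of_nonneg_right h1 (Real.exp_pos _).le).trans ?_
  rw [← Real.exp_add, ← Real.exp_add]
  refine Real.exp_le_exp.mpr ?_
  have h2 : |t| ≤ |T| + |t - T| := by
    have := abs_add_le T (t - T)
    simpa using this
  have h3 : ((k : ℝ) + 1) * |t - T| ≤ (k + 1) ^ 2 * H ^ 2 / 4 + (t - T) ^ 2 / H ^ 2 := by
    have h4 : 0 ≤ (|t - T| / H - (k + 1) * H / 2) ^ 2 := sq_nonneg _
    have h5 : (|t - T| / H - (k + 1) * H / 2) ^ 2 =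
        (t - T) ^ 2 / H ^ 2 - (k + 1) * |t - T| + (k + 1) ^ 2 * H ^ 2 / 4 := by
      rw [← sq_abs (t - T)]
      field_simp
      ring
    linarith
  have hk : (0 : ℝ) ≤ k + 1 := by positivity
  nlinarith [mul_le_mul_of_nonneg_left h2 hk]

theorem G05_Adm_w {g : ℂ → ℂ} (hg : ∀ s : ℂ, 0 < s.re → DifferentiableAt ℂ g s) {C : ℝ} {k : ℕ}
    (hC : ∀ s : ℂ, 1 / 2 ≤ s.re → s.re ≤ 2 → ‖g s‖ ≤ C * (1 + |s.im|) ^ k) {T H : ℝ} (hH : 0 < H) :
    G05_Adm (fun s => g s * G05_w T H s) := by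
  have hC0 : 0 ≤ C := by
    have h := (norm_nonneg _).trans (hC 1 (by norm_num) (by norm_num))
    simpa using h
  refine ⟨fun s hs => (hg s hs).mul (G05_w_diff T H s),
    C * Real.exp (4 / H ^ 2) * Real.exp ((k + 1) * |T| + (k + 1) ^ 2 * H ^ 2 / 4), fun s h1 h2 => ?_⟩
  rw [norm_mul, G05_w_norm]
  have h3 : Real.exp (s.re ^ 2 / H ^ 2) ≤ Real.exp (4 / H ^ 2) := by
    refine Real.exp_le_exp.mpr ?_
    gcongr
    nlinarith
  calc ‖g s‖ * (Real.exp (s.re ^ 2 / H ^ 2) * Real.exp (-((s.im - T) ^ 2 / H ^ 2)))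
      ≤ (C * (1 + |s.im|) ^ k) * (Real.exp (4 / H ^ 2) * Real.exp (-((s.im - T) ^ 2 / H ^ 2))) := by
        gcongr
        exact hC s h1 h2
    _ = C * Real.exp (4 / H ^ 2) * ((1 + |s.im|) ^ k * Real.exp (-((s.im - T) ^ 2 / H ^ 2))) := by ring
    _ ≤ C * Real.exp (4 / H ^ 2) *
        (Real.exp ((k + 1) * |T| + (k + 1) ^ 2 * H ^ 2 / 4) * Real.exp (-|s.im|)) :=
        mul_le_mul_of_nonneg_left (G05_growth hH k s.im) (by positivity)
    _ = _ := by ring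

theorem G05_G_bound {F G : ℂ → ℂ} {C : ℝ} {m : ℕ} (hd : ∀ s : ℂ, 0 < s.re → DifferentiableAt ℂ G s)
    (hG : ∀ s : ℂ, s ≠ 1 → G s = (s - 1) * F s)
    (hpol : ∀ s : ℂ, 1 / 2 ≤ s.re → s.re ≤ 2 → 1 ≤ |s.im| → ‖F s‖ ≤ C * (1 + |s.im|) ^ m) :
    ∃ C' : ℝ, ∀ s : ℂ, 1 / 2 ≤ s.re → s.re ≤ 2 → ‖G s‖ ≤ C' * (1 + |s.im|) ^ (m + 1) := by
  have hK : IsCompact (Icc (1 / 2 : ℝ) 2 ×ℂ Icc (-1 : ℝ) 1) := isCompact_Icc.reProdIm isCompact_Icc
  have hcont : ContinuousOn G (Icc (1 / 2 : ℝ) 2 ×ℂ Icc (-1 : ℝ) 1) := fun s hs =>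
    (hd s (by have := hs.1.1; simp at this ⊢; linarith)).continuousAt.continuousWithinAt
  obtain ⟨B, hB⟩ := hK.exists_bound_of_continuousOn hcont
  refine ⟨max B 0 + max C 0, fun s h1 h2 => ?_⟩
  have hone : (1 : ℝ) ≤ (1 + |s.im|) ^ (m + 1) := one_le_pow₀ (by have := abs_nonneg s.im; linarith)
  rcases le_total |s.im| 1 with h | h
  · have h3 := hB s ⟨⟨h1, h2⟩, abs_le.mp h⟩
    have h4 : (max B 0 + max C 0) * 1 ≤ (max B 0 + max C 0) * (1 + |s.im|) ^ (m + 1) :=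
      mul_le_mul_of_nonneg_left hone (by positivity)
    have h5 := le_max_left B 0
    have h6 := le_max_right C 0
    linarith
  · have hs1 : s ≠ 1 := by
      rintro rfl
      simp at h
      linarith
    rw [hG s hs1, norm_mul]
    have h3 : ‖s - 1‖ ≤ 1 + |s.im| := by
      have h4 := Complex.norm_le_abs_re_add_abs_im (s - 1)
      have h5 : |(s - 1).re| ≤ 1 := by
        simp only [sub_re, one_re]
        rw [abs_le]; constructor <;> linarith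
      simp only [sub_im, one_im, sub_zero] at h4
      linarith
    have h4 : ‖F s‖ ≤ (max B 0 + max C 0) * (1 + |s.im|) ^ m := by
      refine (hpol s h1 h2 h).trans ?_
      have h5 := le_max_left C 0
      have h6 := le_max_right B 0
      gcongr
      linarith
    calc ‖s - 1‖ * ‖F s‖ ≤ (1 + |s.im|) * ((max B 0 + max C 0) * (1 + |s.im|) ^ m) := by gcongr
      _ = _ := by ring

/-- the Gaussian integral -/
theorem G05_gauss {T H : ℝ} (hH : 0 < H) :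
    Integrable (fun t : ℝ => Real.exp (-((t - T) ^ 2 / H ^ 2))) ∧
      ∫ t : ℝ, Real.exp (-((t - T) ^ 2 / H ^ 2)) = √π * H := by
  have h1 : ∀ t : ℝ, Real.exp (-((t - T) ^ 2 / H ^ 2)) =
      (fun x : ℝ => Real.exp (-(1 / H ^ 2) * x ^ 2)) (t - T) := fun t => by
    congr 1; ring
  have hb : 0 < 1 / H ^ 2 := by positivity
  constructor
  · simp_rw [h1]
    exact (integrable_exp_neg_mul_sq hb).comp_sub_right T
  · simp_rw [h1]
    rw [integral_sub_right_eq_self (fun x : ℝ => Real.exp (-(1 / H ^ 2) * x ^ 2)) T, integral_gaussian]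
    rw [div_div_eq_mul_div, div_one, Real.sqrt_mul Real.pi_pos.le, Real.sqrt_sq hH.le]

/-- the Dirichlet polynomial -/
noncomputable def G05_S (b : ℕ → ℂ) (N : ℕ) (s : ℂ) : ℂ :=
  ∑ n ∈ Finset.Icc 1 N, b n * (n : ℂ) ^ (-s)

theorem G05_S_diff (b : ℕ → ℂ) (N : ℕ) (s : ℂ) : DifferentiableAt ℂ (G05_S b N) s := by
  unfold G05_S
  refine DifferentiableAt.fun_sum fun n hn => ?_
  have hn1 : (n : ℂ) ≠ 0 := by
    have := (Finset.mem_Icc.mp hn).1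
    exact_mod_cast (by omega : n ≠ 0)
  exact (differentiableAt_const _).mul (differentiableAt_id.neg.const_cpow (Or.inl hn1))

theorem G05_S_bound (b : ℕ → ℂ) (N : ℕ) {s : ℂ} (hs : 0 ≤ s.re) :
    ‖G05_S b N s‖ ≤ ∑ n ∈ Finset.Icc 1 N, ‖b n‖ := by
  unfold G05_S
  refine (norm_sum_le _ _).trans (Finset.sum_le_sum fun n hn => ?_)
  have hn1 := (Finset.mem_Icc.mp hn).1
  rw [norm_mul, Complex.norm_natCast_cpow_of_pos (by omega)]
  have h2 : (n : ℝ) ^ (-s).re ≤ 1 :=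
    Real.rpow_le_one_of_one_le_of_nonpos (by exact_mod_cast hn1) (by simpa using hs)
  have := norm_nonneg (b n)
  nlinarith

theorem G05_coef (b : ℕ → ℂ) {n : ℕ} (hn : 1 ≤ n) (σ : ℝ) :
    ‖b n * (n : ℂ) ^ (-(σ : ℂ))‖ ^ 2 = ‖b n‖ ^ 2 * (n : ℝ) ^ (-(2 * σ)) := by
  have h0 : (0 : ℝ) ≤ n := by positivity
  rw [norm_mul, Complex.norm_natCast_cpow_of_pos (by omega), mul_pow, ← Real.rpow_natCast,
    ← Real.rpow_natCast, ← Real.rpow_mul h0]
  congr 2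
  simp
  ring

theorem G05_S_split (b : ℕ → ℂ) (N : ℕ) (σ t : ℝ) :
    G05_S b N (σ + t * I) =
      ∑ n ∈ Finset.Icc 1 N, (b n * (n : ℂ) ^ (-(σ : ℂ))) * (n : ℂ) ^ (-(t * I)) := by
  unfold G05_S
  refine Finset.sum_congr rfl fun n hn => ?_
  have hn1 : (n : ℂ) ≠ 0 := by
    have := (Finset.mem_Icc.mp hn).1
    exact_mod_cast (by omega : n ≠ 0)
  rw [neg_add, Complex.cpow_add _ _ hn1, mul_assoc]

theorem G05_Smean (b : ℕ → ℂ) {N : ℕ} (hN : 4 ≤ N) {H : ℝ} (hH : (N : ℝ) ^ 2 ≤ H) (T σ : ℝ) :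
    1 / 2 * (√π * H * ∑ n ∈ Finset.Icc 1 N, ‖b n‖ ^ 2 * (n : ℝ) ^ (-(2 * σ))) ≤
      ∫ t : ℝ, ‖G05_S b N (σ + t * I)‖ ^ 2 * Real.exp (-((t - T) ^ 2 / H ^ 2)) ∧
    ∫ t : ℝ, ‖G05_S b N (σ + t * I)‖ ^ 2 * Real.exp (-((t - T) ^ 2 / H ^ 2)) ≤
      3 / 2 * (√π * H * ∑ n ∈ Finset.Icc 1 N, ‖b n‖ ^ 2 * (n : ℝ) ^ (-(2 * σ))) := by
  have h := gauss_mean hN (fun n => b n * (n : ℂ) ^ (-(σ : ℂ))) hH T
  have h1 : ∑ n ∈ Finset.Icc 1 N, ‖b n * (n : ℂ) ^ (-(σ : ℂ))‖ ^ 2 =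
      ∑ n ∈ Finset.Icc 1 N, ‖b n‖ ^ 2 * (n : ℝ) ^ (-(2 * σ)) :=
    Finset.sum_congr rfl fun n hn => G05_coef b (Finset.mem_Icc.mp hn).1 σ
  simp only [h1] at h
  simp only [G05_S_split]
  exact h

theorem G05_S_cs (b : ℕ → ℂ) (N : ℕ) (σ t : ℝ) :
    ‖G05_S b N (σ + t * I)‖ ^ 2 ≤ N * ∑ n ∈ Finset.Icc 1 N, ‖b n‖ ^ 2 * (n : ℝ) ^ (-(2 * σ)) := by
  have h1 : ‖G05_S b N (σ + t * I)‖ ≤ ∑ n ∈ Finset.Icc 1 N, ‖b n * (n : ℂ) ^ (-(σ : ℂ))‖ := by
    rw [G05_S_split]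
    refine (norm_sum_le _ _).trans (Finset.sum_le_sum fun n hn => ?_)
    have hn1 := (Finset.mem_Icc.mp hn).1
    rw [norm_mul, Complex.norm_natCast_cpow_of_pos (by omega) (-(t * I))]
    simp
  calc ‖G05_S b N (σ + t * I)‖ ^ 2 ≤ (∑ n ∈ Finset.Icc 1 N, ‖b n * (n : ℂ) ^ (-(σ : ℂ))‖) ^ 2 :=
        pow_le_pow_left₀ (norm_nonneg _) h1 2
    _ ≤ (Finset.Icc 1 N).card * ∑ n ∈ Finset.Icc 1 N, ‖b n * (n : ℂ) ^ (-(σ : ℂ))‖ ^ 2 :=
        sq_sum_le_card_mul_sum_sq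
    _ = _ := by
        rw [Finset.sum_congr rfl fun n hn => G05_coef b (Finset.mem_Icc.mp hn).1 σ]
        simp

/-- the factor that removes the pole -/
noncomputable def G05_lam (s : ℂ) : ℂ := (s - 1) / (s + 2)

theorem G05_add_two_ne {s : ℂ} (hs : 0 < s.re) : s + 2 ≠ 0 := by
  intro h
  have h1 := congrArg Complex.re h
  simp at h1
  linarith

theorem G05_lam_diff {s : ℂ} (hs : 0 < s.re) : DifferentiableAt ℂ G05_lam s := by
  unfold G05_lam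
  exact (differentiableAt_id.sub_const 1).div (differentiableAt_id.add_const 2) (G05_add_two_ne hs)

theorem G05_lam_le {s : ℂ} (hs : 1 / 2 ≤ s.re) : ‖G05_lam s‖ ≤ 1 := by
  unfold G05_lam
  have h2 : 0 < ‖s + 2‖ := norm_pos_iff.mpr (G05_add_two_ne (by linarith))
  rw [norm_div, div_le_one h2]
  have h3 : ‖s - 1‖ ^ 2 ≤ ‖s + 2‖ ^ 2 := by
    rw [Complex.sq_norm, Complex.sq_norm, Complex.normSq_apply, Complex.normSq_apply]
    simp
    nlinarith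
  exact (sq_le_sq₀ (norm_nonneg _) (norm_nonneg _)).mp h3

theorem G05_lam_ge {s : ℂ} (h1 : 1 / 2 ≤ s.re) (h2 : s.re ≤ 2) (h3 : 4 ≤ |s.im|) :
    1 / 2 ≤ ‖G05_lam s‖ := by
  unfold G05_lam
  have h4 : 0 < ‖s + 2‖ := norm_pos_iff.mpr (G05_add_two_ne (by linarith))
  rw [norm_div, le_div_iff₀ h4]
  have h5 : |s.im| ≤ ‖s - 1‖ := by
    have := Complex.abs_im_le_norm (s - 1)
    simpa using this
  have h6 : ‖s + 2‖ ≤ 4 + |s.im| := by
    have h7 := Complex.norm_le_abs_re_add_abs_im (s + 2)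
    have h8 : |(s + 2).re| ≤ 4 := by
      simp only [add_re, re_ofNat]
      rw [abs_le]; constructor <;> linarith
    have h9 : (s + 2).im = s.im := by simp
    rw [h9] at h7
    linarith
  linarith

theorem G05_lam_half (t : ℝ) : 1 / 5 ≤ ‖G05_lam ((1 / 2 : ℝ) + t * I)‖ := by
  have h4 : 0 < ‖((1 / 2 : ℝ) : ℂ) + t * I + 2‖ :=
    norm_pos_iff.mpr (G05_add_two_ne (by simp))
  unfold G05_lam
  rw [norm_div, le_div_iff₀ h4]
  have h3 : (1 / 5 * ‖((1 / 2 : ℝ) : ℂ) + t * I + 2‖) ^ 2 ≤ ‖((1 / 2 : ℝ) : ℂ) + t * I - 1‖ ^ 2 := by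
    rw [mul_pow, Complex.sq_norm, Complex.sq_norm, Complex.normSq_apply, Complex.normSq_apply]
    simp
    nlinarith [sq_nonneg t]
  exact (sq_le_sq₀ (by positivity) (norm_nonneg _)).mp h3

/-- the comparison for fixed T -/
theorem G05_step {F G : ℂ → ℂ} {b : ℕ → ℂ} {m : ℕ} {C C3 : ℝ}
    (hd : ∀ s : ℂ, 0 < s.re → DifferentiableAt ℂ G s)
    (hG : ∀ s : ℂ, s ≠ 1 → G s = (s - 1) * F s)
    (hpol : ∀ s : ℂ, 1 / 2 ≤ s.re → s.re ≤ 2 → 1 ≤ |s.im| → ‖F s‖ ≤ C * (1 + |s.im|) ^ m)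
    (hC3 : 0 < C3)
    (h2 : ∀ N : ℕ, 1 ≤ N → ∀ t : ℝ,
      ‖F (2 + t * I) - (G05_S b N (2 + t * I)) ^ 2‖ ≤ C3 * (N : ℝ) ^ (-(1 / 2 : ℝ)) ∧
        ‖F (2 + t * I)‖ ≤ C3)
    {T H A : ℝ} {N : ℕ} (hN : 32 ≤ N) (hH : (N : ℝ) ^ 2 ≤ H) (hA : 0 ≤ A)
    (hσ : A / Real.log N ≤ 3 / 2) :
    Integrable (fun t : ℝ => ‖F (1 / 2 + t * I)‖ * Real.exp (-((t - T) ^ 2 / H ^ 2))) ∧
    1 / 8 * H * ∑ n ∈ Finset.Icc 1 N, ‖b n‖ ^ 2 * (n : ℝ) ^ (-(1 + 2 * A / Real.log N)) ≤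
      2 * (Real.exp 1 * ∫ t : ℝ, ‖F (1 / 2 + t * I)‖ * Real.exp (-((t - T) ^ 2 / H ^ 2))) +
        2 * (C3 * Real.exp 4 * (√π * H)) + Real.exp (-(A / 3)) *
          (Real.exp 1 * (3 / 2 * (√π * H * ∑ n ∈ Finset.Icc 1 N, ‖b n‖ ^ 2 * (n : ℝ)⁻¹))) := by
  have hN' : (32 : ℝ) ≤ N := by exact_mod_cast hN
  have hH1 : 1024 ≤ H := by nlinarith
  have hH0 : 0 < H := by linarith
  have hHsq : 1 ≤ H ^ 2 := by nlinarith
  have hlog : 0 < Real.log N := Real.log_pos (by linarith)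
  have hA' : 0 ≤ A / Real.log N := div_nonneg hA hlog.le
  obtain ⟨C', hC'⟩ := G05_G_bound hd hG hpol
  set w := G05_w T H with hw
  set f1 : ℂ → ℂ := fun s => G s / (s + 2) * w s with hf1
  set f2 : ℂ → ℂ := fun s => G05_lam s * G05_S b N s ^ 2 * w s with hf2
  have hadm1 : G05_Adm f1 := by
    refine G05_Adm_w (g := fun s => G s / (s + 2)) (C := C') (k := m + 1) (fun s hs => ?_)
      (fun s h3 h4 => ?_) hH0
    · exact (hd s hs).div (differentiableAt_id.add_const 2) (G05_add_two_ne hs)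
    · have h5 : 1 ≤ ‖s + 2‖ := by
        have h6 := Complex.re_le_norm (s + 2)
        simp only [add_re, re_ofNat] at h6
        linarith
      rw [norm_div]
      exact (div_le_self (norm_nonneg _) h5).trans (hC' s h3 h4)
  have hadmS : G05_Adm (fun s => G05_S b N s ^ 2 * w s) := by
    refine G05_Adm_w (g := fun s => G05_S b N s ^ 2) (C := (∑ n ∈ Finset.Icc 1 N, ‖b n‖) ^ 2)
      (k := 0) (fun s hs => (G05_S_diff b N s).pow 2) (fun s h3 h4 => ?_) hH0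
    rw [norm_pow, pow_zero, mul_one]
    exact pow_le_pow_left₀ (norm_nonneg _) (G05_S_bound b N (by linarith)) 2
  have hadm2 : G05_Adm f2 := by
    refine G05_Adm_w (g := fun s => G05_lam s * G05_S b N s ^ 2)
      (C := (∑ n ∈ Finset.Icc 1 N, ‖b n‖) ^ 2)
      (k := 0) (fun s hs => (G05_lam_diff hs).mul ((G05_S_diff b N s).pow 2)) (fun s h3 h4 => ?_) hH0
    rw [norm_mul, norm_pow, pow_zero, mul_one]
    have h5 := G05_lam_le h3
    have h6 := pow_le_pow_left₀ (norm_nonneg _) (G05_S_bound b N (s := s) (by linarith)) 2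
    calc ‖G05_lam s‖ * ‖G05_S b N s‖ ^ 2 ≤ 1 * (∑ n ∈ Finset.Icc 1 N, ‖b n‖) ^ 2 := by gcongr
      _ = _ := one_mul _
  obtain ⟨gi, gv⟩ := G05_gauss (T := T) hH0
  -- line 2
  have hline2 : ∀ t : ℝ, ‖w ((2 : ℝ) + t * I)‖ ≤ Real.exp 4 * Real.exp (-((t - T) ^ 2 / H ^ 2)) := by
    intro t
    rw [hw, G05_w_norm]
    simp only [add_re, ofReal_re, mul_re, I_re, mul_zero, ofReal_im, I_im, mul_one, sub_self, add_zero,
      add_im, mul_im, zero_add]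
    refine mul_le_mul_of_nonneg_right (Real.exp_le_exp.mpr ?_) (Real.exp_pos _).le
    rw [div_le_iff₀ (by positivity)]
    linarith
  have hne2 : ∀ t : ℝ, ((2 : ℝ) : ℂ) + t * I ≠ 1 := by
    intro t h
    have h1 := congrArg Complex.re h
    simp at h1
  have hf1eq : ∀ s : ℂ, s ≠ 1 → f1 s = G05_lam s * F s * w s := by
    intro s hs
    rw [hf1]
    simp only [G05_lam]
    rw [hG s hs]
    ring
  have hJ2 : G05_J f1 2 ≤ C3 * Real.exp 4 * (√π * H) := by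
    unfold G05_J
    calc ∫ t : ℝ, ‖f1 ((2 : ℝ) + t * I)‖
        ≤ ∫ t : ℝ, C3 * Real.exp 4 * Real.exp (-((t - T) ^ 2 / H ^ 2)) := by
          refine integral_mono (G05_Adm_int hadm1 (by norm_num) le_rfl) (gi.const_mul _) fun t => ?_
          simp only
          rw [hf1eq _ (hne2 t), norm_mul, norm_mul]
          have h3 : ‖G05_lam ((2 : ℝ) + t * I)‖ ≤ 1 := G05_lam_le (by simp; norm_num)
          have h4 : ‖F ((2 : ℝ) + t * I)‖ ≤ C3 := by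
            have := (h2 1 le_rfl t).2
            simpa using this
          calc ‖G05_lam ((2 : ℝ) + t * I)‖ * ‖F ((2 : ℝ) + t * I)‖ * ‖w ((2 : ℝ) + t * I)‖
              ≤ 1 * C3 * (Real.exp 4 * Real.exp (-((t - T) ^ 2 / H ^ 2))) := by
                gcongr
                exact hline2 t
            _ = _ := by ring
      _ = _ := by rw [integral_const_mul, gv]
  have hL2 : G05_J (fun s => f1 s - f2 s) 2 ≤
      C3 * Real.exp 4 * (√π * H) * (N : ℝ) ^ (-(1 / 2 : ℝ)) := by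
    unfold G05_J
    calc ∫ t : ℝ, ‖f1 ((2 : ℝ) + t * I) - f2 ((2 : ℝ) + t * I)‖
        ≤ ∫ t : ℝ, C3 * Real.exp 4 * (N : ℝ) ^ (-(1 / 2 : ℝ)) * Real.exp (-((t - T) ^ 2 / H ^ 2)) := by
          refine integral_mono (G05_Adm_int (G05_Adm_sub hadm1 hadm2) (by norm_num) le_rfl)
            (gi.const_mul _) fun t => ?_
          simp only
          rw [hf1eq _ (hne2 t)]
          have h5 : G05_lam ((2 : ℝ) + t * I) * F ((2 : ℝ) + t * I) * w ((2 : ℝ) + t * I) -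
              f2 ((2 : ℝ) + t * I) = G05_lam ((2 : ℝ) + t * I) *
                (F ((2 : ℝ) + t * I) - G05_S b N ((2 : ℝ) + t * I) ^ 2) * w ((2 : ℝ) + t * I) := by
            rw [hf2]; ring
          rw [h5, norm_mul, norm_mul]
          have h3 : ‖G05_lam ((2 : ℝ) + t * I)‖ ≤ 1 := G05_lam_le (by simp; norm_num)
          have h4 : ‖F ((2 : ℝ) + t * I) - G05_S b N ((2 : ℝ) + t * I) ^ 2‖ ≤
              C3 * (N : ℝ) ^ (-(1 / 2 : ℝ)) := by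
            have := (h2 N (by omega) t).1
            simpa using this
          calc ‖G05_lam ((2 : ℝ) + t * I)‖ *
                ‖F ((2 : ℝ) + t * I) - G05_S b N ((2 : ℝ) + t * I) ^ 2‖ * ‖w ((2 : ℝ) + t * I)‖
              ≤ 1 * (C3 * (N : ℝ) ^ (-(1 / 2 : ℝ))) *
                (Real.exp 4 * Real.exp (-((t - T) ^ 2 / H ^ 2))) := by
                gcongr
                exact hline2 t
            _ = _ := by ring
      _ = _ := by rw [integral_const_mul, gv]; ring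
  -- line 1/2
  have hhalf : ∀ t : ℝ, ‖w ((1 / 2 : ℝ) + t * I)‖ =
      Real.exp ((1 / 2) ^ 2 / H ^ 2) * Real.exp (-((t - T) ^ 2 / H ^ 2)) := by
    intro t
    rw [hw, G05_w_norm]
    simp only [add_re, ofReal_re, mul_re, I_re, mul_zero, ofReal_im, I_im, mul_one, sub_self, add_zero,
      add_im, mul_im, zero_add]
  have hexp1 : Real.exp ((1 / 2) ^ 2 / H ^ 2) ≤ Real.exp 1 := by
    refine Real.exp_le_exp.mpr ?_
    rw [div_le_iff₀ (by positivity)]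
    linarith
  have hneh : ∀ t : ℝ, ((1 / 2 : ℝ) : ℂ) + t * I ≠ 1 := by
    intro t h
    have h1 := congrArg Complex.re h
    norm_num at h1
  have hintF : Integrable (fun t : ℝ => ‖F (1 / 2 + t * I)‖ * Real.exp (-((t - T) ^ 2 / H ^ 2))) := by
    have hcast : ∀ t : ℝ, (1 / 2 + t * I : ℂ) = ((1 / 2 : ℝ) : ℂ) + t * I := fun t => by push_cast; ring
    have hFeq : (fun t : ℝ => F (1 / 2 + t * I)) =
        fun t : ℝ => G (((1 / 2 : ℝ) : ℂ) + t * I) / (((1 / 2 : ℝ) : ℂ) + t * I - 1) := by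
      funext t
      rw [hcast, hG _ (hneh t), mul_div_cancel_left₀ _ (sub_ne_zero.mpr (hneh t))]
    have hcF : Continuous (fun t : ℝ => F (1 / 2 + t * I)) := by
      rw [hFeq]
      exact (G05_cont_line hd (by norm_num)).div (by fun_prop) fun t => sub_ne_zero.mpr (hneh t)
    refine Integrable.mono' ((G05_Adm_int hadm1 (σ := 1 / 2) le_rfl (by norm_num)).const_mul 5)
      (hcF.norm.mul (by fun_prop)).aestronglyMeasurable ?_
    refine Filter.Eventually.of_forall fun t => ?_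
    rw [Real.norm_of_nonneg (by positivity), hcast, hf1eq _ (hneh t), norm_mul, norm_mul, hhalf t]
    have h3 := G05_lam_half t
    have h4 : 1 ≤ Real.exp ((1 / 2) ^ 2 / H ^ 2) := Real.one_le_exp (by positivity)
    have h5 : 1 / 5 * 1 ≤ ‖G05_lam ((1 / 2 : ℝ) + t * I)‖ * Real.exp ((1 / 2) ^ 2 / H ^ 2) := by gcongr
    have h6 : 0 ≤ ‖F (((1 / 2 : ℝ) : ℂ) + t * I)‖ * Real.exp (-((t - T) ^ 2 / H ^ 2)) := by positivity
    nlinarith
  have hJh : G05_J f1 (1 / 2) ≤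
      Real.exp 1 * ∫ t : ℝ, ‖F (1 / 2 + t * I)‖ * Real.exp (-((t - T) ^ 2 / H ^ 2)) := by
    unfold G05_J
    rw [← integral_const_mul]
    refine integral_mono (G05_Adm_int hadm1 le_rfl (by norm_num)) (hintF.const_mul _) fun t => ?_
    have hcast : (1 / 2 + t * I : ℂ) = ((1 / 2 : ℝ) : ℂ) + t * I := by push_cast; ring
    simp only
    rw [hcast, hf1eq _ (hneh t), norm_mul, norm_mul, hhalf t]
    have h3 : ‖G05_lam ((1 / 2 : ℝ) + t * I)‖ ≤ 1 := G05_lam_le (by simp)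
    calc ‖G05_lam ((1 / 2 : ℝ) + t * I)‖ * ‖F ((1 / 2 : ℝ) + t * I)‖ *
          (Real.exp ((1 / 2) ^ 2 / H ^ 2) * Real.exp (-((t - T) ^ 2 / H ^ 2)))
        ≤ 1 * ‖F ((1 / 2 : ℝ) + t * I)‖ * (Real.exp 1 * Real.exp (-((t - T) ^ 2 / H ^ 2))) := by
          gcongr
      _ = _ := by ring
  -- S with the weight
  have hSint : ∀ σ : ℝ, 1 / 2 ≤ σ → σ ≤ 2 → Integrable (fun t : ℝ =>
      ‖G05_S b N (σ + t * I)‖ ^ 2 * Real.exp (-((t - T) ^ 2 / H ^ 2))) := by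
    intro σ h3 h4
    have h5 := (G05_Adm_int hadmS h3 h4).const_mul (Real.exp (-(σ ^ 2 / H ^ 2)))
    refine h5.congr (Filter.Eventually.of_forall fun t => ?_)
    simp only
    rw [norm_mul, norm_pow, hw, G05_w_norm]
    simp only [add_re, ofReal_re, mul_re, I_re, mul_zero, ofReal_im, I_im, mul_one, sub_self, add_zero,
      add_im, mul_im, zero_add]
    have h6 : Real.exp (-(σ ^ 2 / H ^ 2)) * Real.exp (σ ^ 2 / H ^ 2) = 1 := by
      rw [← Real.exp_add]; simp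
    calc _ = (Real.exp (-(σ ^ 2 / H ^ 2)) * Real.exp (σ ^ 2 / H ^ 2)) *
        (‖G05_S b N (σ + t * I)‖ ^ 2 * Real.exp (-((t - T) ^ 2 / H ^ 2))) := by ring
      _ = _ := by rw [h6, one_mul]
  have hKh : G05_J f2 (1 / 2) ≤
      Real.exp 1 * (3 / 2 * (√π * H * ∑ n ∈ Finset.Icc 1 N, ‖b n‖ ^ 2 * (n : ℝ)⁻¹)) := by
    have hm := (G05_Smean b (by omega : 4 ≤ N) hH T (1 / 2)).2
    have hs : ∑ n ∈ Finset.Icc 1 N, ‖b n‖ ^ 2 * (n : ℝ) ^ (-(2 * (1 / 2 : ℝ))) =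
        ∑ n ∈ Finset.Icc 1 N, ‖b n‖ ^ 2 * (n : ℝ)⁻¹ := by
      refine Finset.sum_congr rfl fun n _ => ?_
      rw [mul_one_div_cancel (by norm_num), Real.rpow_neg_one]
    rw [hs] at hm
    refine le_trans ?_ (mul_le_mul_of_nonneg_left hm (Real.exp_pos 1).le)
    unfold G05_J
    rw [← integral_const_mul]
    refine integral_mono (G05_Adm_int hadm2 le_rfl (by norm_num))
      ((hSint (1 / 2) le_rfl (by norm_num)).const_mul _) fun t => ?_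
    simp only
    rw [hf2]
    simp only
    rw [norm_mul, norm_mul, norm_pow, hhalf t]
    have h3 : ‖G05_lam ((1 / 2 : ℝ) + t * I)‖ ≤ 1 := G05_lam_le (by simp)
    calc ‖G05_lam ((1 / 2 : ℝ) + t * I)‖ * ‖G05_S b N ((1 / 2 : ℝ) + t * I)‖ ^ 2 *
          (Real.exp ((1 / 2) ^ 2 / H ^ 2) * Real.exp (-((t - T) ^ 2 / H ^ 2)))
        ≤ 1 * ‖G05_S b N ((1 / 2 : ℝ) + t * I)‖ ^ 2 *
          (Real.exp 1 * Real.exp (-((t - T) ^ 2 / H ^ 2))) := by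
          gcongr
      _ = _ := by ring
  -- lower bound on the line σ
  set σ : ℝ := 1 / 2 + A / Real.log N with hσdef
  have hs1 : 1 / 2 ≤ σ := by linarith
  have hs2 : σ ≤ 2 := by linarith
  set D : ℝ := ∑ n ∈ Finset.Icc 1 N, ‖b n‖ ^ 2 * (n : ℝ) ^ (-(2 * σ)) with hD
  have hD0 : 0 ≤ D := Finset.sum_nonneg fun n _ => by positivity
  have hDeq : ∑ n ∈ Finset.Icc 1 N, ‖b n‖ ^ 2 * (n : ℝ) ^ (-(1 + 2 * A / Real.log N)) = D := by
    rw [hD]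
    refine Finset.sum_congr rfl fun n _ => ?_
    congr 3
    rw [hσdef]; ring
  have hKσ : 1 / 8 * H * D ≤ G05_J f2 σ := by
    have hm := (G05_Smean b (by omega : 4 ≤ N) hH T σ).1
    rw [← hD] at hm
    have hpt : ∀ t : ℝ, 1 / 2 * (‖G05_S b N (σ + t * I)‖ ^ 2 * Real.exp (-((t - T) ^ 2 / H ^ 2))) -
        (Icc (-4 : ℝ) 4).indicator (fun _ => 1 / 2 * (N * D)) t ≤ ‖f2 (σ + t * I)‖ := by
      intro t
      have hE0 : 0 ≤ ‖G05_S b N (σ + t * I)‖ ^ 2 * Real.exp (-((t - T) ^ 2 / H ^ 2)) := by positivity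
      by_cases ht : t ∈ Icc (-4 : ℝ) 4
      · rw [indicator_of_mem ht]
        have h3 := G05_S_cs b N σ t
        rw [← hD] at h3
        have h4 : Real.exp (-((t - T) ^ 2 / H ^ 2)) ≤ 1 := by
          rw [Real.exp_le_one_iff]
          have : 0 ≤ (t - T) ^ 2 / H ^ 2 := by positivity
          linarith
        have h5 : ‖G05_S b N (σ + t * I)‖ ^ 2 * Real.exp (-((t - T) ^ 2 / H ^ 2)) ≤ N * D :=
          (mul_le_of_le_one_right (by positivity) h4).trans h3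
        have := norm_nonneg (f2 (σ + t * I))
        linarith
      · rw [indicator_of_notMem ht, sub_zero, hf2]
        simp only
        rw [norm_mul, norm_mul, norm_pow, hw, G05_w_norm]
        have h3 : 4 ≤ |t| := by
          by_contra h
          push Not at h
          exact ht ⟨(abs_lt.mp h).1.le, (abs_lt.mp h).2.le⟩
        have h4 : 1 / 2 ≤ ‖G05_lam (σ + t * I)‖ :=
          G05_lam_ge (by simpa using hs1) (by simpa using hs2) (by simpa using h3)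
        simp only [add_re, ofReal_re, mul_re, I_re, mul_zero, ofReal_im, I_im, mul_one, sub_self,
          add_zero, add_im, mul_im, zero_add]
        have h5 : 1 ≤ Real.exp (σ ^ 2 / H ^ 2) := Real.one_le_exp (by positivity)
        calc 1 / 2 * (‖G05_S b N (σ + t * I)‖ ^ 2 * Real.exp (-((t - T) ^ 2 / H ^ 2)))
            = 1 / 2 * ‖G05_S b N (σ + t * I)‖ ^ 2 * (1 * Real.exp (-((t - T) ^ 2 / H ^ 2))) := by ring
          _ ≤ _ := by gcongr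
    have hind : Integrable ((Icc (-4 : ℝ) 4).indicator (fun _ : ℝ => 1 / 2 * (N * D))) :=
      (integrable_indicator_iff measurableSet_Icc).mpr
        (integrableOn_const (by simp))
    have hint : ∫ t : ℝ, (Icc (-4 : ℝ) 4).indicator (fun _ : ℝ => 1 / 2 * (N * D)) t = 4 * (N * D) := by
      rw [integral_indicator measurableSet_Icc, setIntegral_const]
      simp
      ring
    have h6 := integral_mono (((hSint σ hs1 hs2).const_mul (1 / 2)).sub hind)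
      (G05_Adm_int hadm2 hs1 hs2) hpt
    have h7 : ∫ t : ℝ, (1 / 2 * (‖G05_S b N (σ + t * I)‖ ^ 2 * Real.exp (-((t - T) ^ 2 / H ^ 2))) -
        (Icc (-4 : ℝ) 4).indicator (fun _ => 1 / 2 * (N * D)) t) =
        1 / 2 * (∫ t : ℝ, ‖G05_S b N (σ + t * I)‖ ^ 2 * Real.exp (-((t - T) ^ 2 / H ^ 2))) -
          4 * (N * D) := by
      rw [integral_sub ((hSint σ hs1 hs2).const_mul (1 / 2)) hind, hint, integral_const_mul]
    have h8 : 1 / 2 * (∫ t : ℝ, ‖G05_S b N (σ + t * I)‖ ^ 2 * Real.exp (-((t - T) ^ 2 / H ^ 2))) -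
        4 * (N * D) ≤ G05_J f2 σ := by
      unfold G05_J
      rw [← h7]
      exact h6
    have hpi : 1 ≤ √π := by
      rw [Real.one_le_sqrt]
      have := Real.pi_gt_three
      linarith
    have h9 : 4 * (N * D) ≤ 1 / 8 * H * D := by
      have : 4 * (N : ℝ) ≤ 1 / 8 * H := by nlinarith
      nlinarith
    have h10 : H * D ≤ √π * H * D := by
      have : 0 ≤ H * D := by positivity
      nlinarith
    nlinarith
  refine ⟨hintF, ?_⟩
  rw [hDeq]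
  have hcmp := G05_compare hadm1 hadm2 (by omega : 2 ≤ N) hA hσ hL2 hJ2
  have he := (Real.exp_pos (-(A / 3))).le
  have h11 := mul_le_mul_of_nonneg_left hKh he
  rw [← hσdef] at hcmp
  linarith

/-- choice of A -/
theorem G05_chooseA {κ c2 K A0 : ℝ} (hc2 : 0 < c2) (hK : 0 < K) :
    ∃ A : ℝ, A0 ≤ A ∧ 1 ≤ A ∧ Real.exp (-(A / 3)) * K ≤ c2 / 16 * A ^ (-κ) := by
  have hlim := tendsto_rpow_mul_exp_neg_mul_atTop_nhds_zero κ (1 / 3) (by norm_num)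
  have hε : 0 < c2 / 16 / K := by positivity
  have h1 := (hlim.eventually (gt_mem_nhds hε)).and
    ((eventually_ge_atTop A0).and (eventually_ge_atTop (1 : ℝ)))
  obtain ⟨A, h2, h3, h4⟩ := h1.exists
  refine ⟨A, h3, h4, ?_⟩
  have hA : 0 < A := by linarith
  have hAκ : 0 < A ^ κ := Real.rpow_pos_of_pos hA κ
  have he : Real.exp (-(1 / 3) * A) = Real.exp (-(A / 3)) := by congr 1; ring
  rw [he, lt_div_iff₀ hK] at h2
  rw [Real.rpow_neg hA.le, ← div_eq_mul_inv, le_div_iff₀ hAκ]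
  nlinarith

/-- conditions on T -/
theorem G05_large (N0 : ℕ) (A Y : ℝ) {κ : ℝ} (hκ : 0 < κ) : ∃ T0 : ℝ, 3 ≤ T0 ∧ ∀ T : ℝ, T0 ≤ T →
    N0 ≤ ⌊T ^ (1 / 4 : ℝ)⌋₊ ∧ 32 ≤ ⌊T ^ (1 / 4 : ℝ)⌋₊ ∧
      ((⌊T ^ (1 / 4 : ℝ)⌋₊ : ℕ) : ℝ) ^ 2 ≤ T / Real.log T ∧
      A / Real.log (⌊T ^ (1 / 4 : ℝ)⌋₊ : ℕ) ≤ 3 / 2 ∧
      Real.log T / 8 ≤ Real.log (⌊T ^ (1 / 4 : ℝ)⌋₊ : ℕ) ∧
      Y ≤ Real.log (⌊T ^ (1 / 4 : ℝ)⌋₊ : ℕ) ^ κ := by
  have e1 : ∀ᶠ T : ℝ in atTop, max (N0 : ℝ) 32 ≤ T ^ (1 / 8 : ℝ) :=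
    (tendsto_rpow_atTop (by norm_num : (0 : ℝ) < 1 / 8)).eventually (eventually_ge_atTop _)
  have e2 : ∀ᶠ T : ℝ in atTop, ‖Real.log T‖ ≤ 1 * ‖T ^ (1 / 2 : ℝ)‖ :=
    (isLittleO_log_rpow_atTop (by norm_num : (0 : ℝ) < 1 / 2)).bound one_pos
  have e3 : ∀ᶠ T : ℝ in atTop, max (8 * |A|) 1 ≤ Real.log T :=
    Real.tendsto_log_atTop.eventually (eventually_ge_atTop _)
  have e4 : ∀ᶠ T : ℝ in atTop, Y ≤ (Real.log T / 8) ^ κ := by
    have h : Tendsto (fun T : ℝ => (Real.log T / 8) ^ κ) atTop atTop :=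
      (tendsto_rpow_atTop hκ).comp (Real.tendsto_log_atTop.atTop_div_const (by norm_num))
    exact h.eventually (eventually_ge_atTop _)
  obtain ⟨T1, hT1⟩ := Filter.eventually_atTop.mp (e1.and (e2.and (e3.and e4)))
  refine ⟨max T1 3, le_max_right _ _, fun T hT => ?_⟩
  obtain ⟨a1, a2, a3, a4⟩ := hT1 T ((le_max_left _ _).trans hT)
  have hT3 : 3 ≤ T := (le_max_right _ _).trans hT
  have hT0 : 0 < T := by linarith
  have hlog1 : 1 ≤ Real.log T := (le_max_right _ _).trans a3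
  have hlog0 : 0 < Real.log T := by linarith
  set y : ℝ := T ^ (1 / 8 : ℝ) with hy
  have hy32 : 32 ≤ y := (le_max_right _ _).trans a1
  have hyN : (N0 : ℝ) ≤ y := (le_max_left _ _).trans a1
  have hy2 : T ^ (1 / 4 : ℝ) = y ^ 2 := by
    rw [hy, ← Real.rpow_natCast, ← Real.rpow_mul hT0.le]
    norm_num
  set N : ℕ := ⌊T ^ (1 / 4 : ℝ)⌋₊ with hN
  have hNle : (N : ℝ) ≤ T ^ (1 / 4 : ℝ) := Nat.floor_le (by positivity)
  have hNge : y ≤ N := by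
    have h1 : T ^ (1 / 4 : ℝ) < N + 1 := Nat.lt_floor_add_one _
    rw [hy2] at h1
    nlinarith
  have hlogN : Real.log T / 8 ≤ Real.log N := by
    have h1 : Real.log y = Real.log T / 8 := by
      rw [hy, Real.log_rpow hT0]; ring
    rw [← h1]
    exact Real.log_le_log (by linarith) hNge
  refine ⟨by exact_mod_cast hyN.trans hNge, by exact_mod_cast hy32.trans hNge, ?_, ?_, hlogN, ?_⟩
  · rw [le_div_iff₀ hlog0]
    have h1 : (N : ℝ) ^ 2 ≤ T ^ (1 / 2 : ℝ) := by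
      calc (N : ℝ) ^ 2 ≤ (T ^ (1 / 4 : ℝ)) ^ 2 := pow_le_pow_left₀ (by positivity) hNle 2
        _ = T ^ (1 / 2 : ℝ) := by
          rw [← Real.rpow_natCast, ← Real.rpow_mul hT0.le]
          norm_num
    have h2 : Real.log T ≤ T ^ (1 / 2 : ℝ) := by
      rw [Real.norm_of_nonneg hlog0.le, Real.norm_of_nonneg (by positivity), one_mul] at a2
      exact a2
    calc (N : ℝ) ^ 2 * Real.log T ≤ T ^ (1 / 2 : ℝ) * T ^ (1 / 2 : ℝ) := by gcongr
      _ = T := by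
        rw [← Real.rpow_add hT0]
        norm_num
  · have h1 : 0 < Real.log N := by linarith
    rw [div_le_iff₀ h1]
    have h2 : 8 * |A| ≤ Real.log T := (le_max_left _ _).trans a3
    have h3 := le_abs_self A
    nlinarith
  · exact a4.trans (Real.rpow_le_rpow (by positivity) hlogN hκ.le)

/-- Row G05. Core: lower bound for the mean of abs F with a Gaussian weight. -/
theorem core {F : ℂ → ℂ} {a b : ArithmeticFunction ℂ} {κ c1 C1 C : ℝ} {m : ℕ}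
    (hG : ∃ G : ℂ → ℂ, (∀ s : ℂ, 0 < s.re → DifferentiableAt ℂ G s) ∧ ∀ s : ℂ, s ≠ 1 → G s = (s - 1) * F s)
    (hpol : ∀ s : ℂ, 1 / 2 ≤ s.re → s.re ≤ 2 → 1 ≤ |s.im| → ‖F s‖ ≤ C * (1 + |s.im|) ^ m)
    (hFa : ∀ s : ℂ, 1 < s.re → LSeriesSummable a s ∧ F s = LSeries a s) (hab : b * b = a)
    (hb : Summable (fun n : ℕ => ‖b n‖ * (n : ℝ) ^ (-(3 / 2 : ℝ)))) (hκ : 0 < κ) (hc1 : 0 < c1)
    (hE : ∀ δ : ℝ, 0 < δ → δ ≤ 1 → Summable (fun n : ℕ => ‖b n‖ ^ 2 * (n : ℝ) ^ (-(1 + δ))) ∧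
      c1 * δ ^ (-κ) ≤ ∑' n : ℕ, ‖b n‖ ^ 2 * (n : ℝ) ^ (-(1 + δ)) ∧
      ∑' n : ℕ, ‖b n‖ ^ 2 * (n : ℝ) ^ (-(1 + δ)) ≤ C1 * δ ^ (-κ)) :
    ∃ c T0 : ℝ, 0 < c ∧ 3 ≤ T0 ∧ ∀ T : ℝ, T0 ≤ T →
      Integrable (fun t : ℝ => ‖F (1 / 2 + t * I)‖ * Real.exp (-((t - T) ^ 2 / (T / Real.log T) ^ 2))) ∧
      c * (T / Real.log T) * Real.log T ^ κ ≤
        ∫ t : ℝ, ‖F (1 / 2 + t * I)‖ * Real.exp (-((t - T) ^ 2 / (T / Real.log T) ^ 2)) := by
  obtain ⟨G, hd, hG'⟩ := hG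
  obtain ⟨C3, hC3, h3⟩ := tail_bound hab hb
  have h2 : ∀ N : ℕ, 1 ≤ N → ∀ t : ℝ,
      ‖F (2 + t * I) - (G05_S b N (2 + t * I)) ^ 2‖ ≤ C3 * (N : ℝ) ^ (-(1 / 2 : ℝ)) ∧
        ‖F (2 + t * I)‖ ≤ C3 := by
    intro N hN t
    rw [(hFa (2 + t * I) (by simp)).2]
    exact h3 N hN t
  obtain ⟨c2, C2, A0, hc2, hC2, hA0, hps⟩ :=
    partial_sums (β := fun n => ‖b n‖ ^ 2) (fun n => by positivity) hκ hc1 hE
  have hpi : 0 < √π := Real.sqrt_pos.mpr Real.pi_pos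
  obtain ⟨A, hA1, hA2, hA3⟩ := G05_chooseA (κ := κ) (c2 := c2)
    (K := Real.exp 1 * (3 / 2 * (√π * C2))) (A0 := A0) hc2 (by positivity)
  have hA : 0 < A := by linarith
  have hAκ : 0 < A ^ (-κ) := Real.rpow_pos_of_pos hA _
  obtain ⟨N0, hN0⟩ := hps A hA1
  set C6 : ℝ := C3 * Real.exp 4 * √π with hC6
  have hC6pos : 0 < C6 := by positivity
  obtain ⟨T0, hT0, hlarge⟩ := G05_large N0 A (2 * C6 / (c2 / 32 * A ^ (-κ))) hκ
  refine ⟨c2 / 32 * A ^ (-κ) * (8 : ℝ) ^ (-κ) / (2 * Real.exp 1), T0, by positivity, hT0,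
    fun T hT => ?_⟩
  obtain ⟨g1, g2, g3, g4, g5, g6⟩ := hlarge T hT
  set N : ℕ := ⌊T ^ (1 / 4 : ℝ)⌋₊ with hN
  set H : ℝ := T / Real.log T with hH
  obtain ⟨s1, s2⟩ := G05_step hd hG' hpol hC3 h2 (T := T) (H := H) (A := A) (N := N) g2 g3 hA.le g4
  refine ⟨s1, ?_⟩
  obtain ⟨p1, p2⟩ := hN0 N g1
  set I0 : ℝ := ∫ t : ℝ, ‖F (1 / 2 + t * I)‖ * Real.exp (-((t - T) ^ 2 / H ^ 2)) with hI0
  have hTpos : 0 < T := by linarith
  have hlogT : 0 < Real.log T := Real.log_pos (by linarith)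
  have hHpos : 0 < H := div_pos hTpos hlogT
  have hlogN : 0 < Real.log N := by linarith
  set X : ℝ := Real.log N ^ κ with hX
  have hXpos : 0 < X := Real.rpow_pos_of_pos hlogN _
  have hdiv : (Real.log N / A) ^ κ = X * A ^ (-κ) := by
    rw [Real.div_rpow hlogN.le hA.le, Real.rpow_neg hA.le, div_eq_mul_inv]
  rw [hdiv] at p2
  -- collect
  have q1 : 1 / 8 * H * (c2 * (X * A ^ (-κ))) ≤ 1 / 8 * H *
      ∑ n ∈ Finset.Icc 1 N, ‖b n‖ ^ 2 * (n : ℝ) ^ (-(1 + 2 * A / Real.log N)) :=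
    mul_le_mul_of_nonneg_left p2 (by positivity)
  have q2 : Real.exp (-(A / 3)) *
      (Real.exp 1 * (3 / 2 * (√π * H * ∑ n ∈ Finset.Icc 1 N, ‖b n‖ ^ 2 * (n : ℝ)⁻¹))) ≤
      (c2 / 16 * A ^ (-κ)) * (H * X) := by
    calc Real.exp (-(A / 3)) *
        (Real.exp 1 * (3 / 2 * (√π * H * ∑ n ∈ Finset.Icc 1 N, ‖b n‖ ^ 2 * (n : ℝ)⁻¹)))
        ≤ Real.exp (-(A / 3)) * (Real.exp 1 * (3 / 2 * (√π * H * (C2 * X)))) := by gcongr
      _ = (Real.exp (-(A / 3)) * (Real.exp 1 * (3 / 2 * (√π * C2)))) * (H * X) := by ring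
      _ ≤ _ := mul_le_mul_of_nonneg_right hA3 (by positivity)
  have q3 : 2 * C6 ≤ c2 / 32 * A ^ (-κ) * X := by
    rw [div_le_iff₀ (by positivity)] at g6
    linarith
  have q4 : 2 * (C3 * Real.exp 4 * (√π * H)) ≤ (c2 / 32 * A ^ (-κ)) * (H * X) := by
    calc 2 * (C3 * Real.exp 4 * (√π * H)) = (2 * C6) * H := by rw [hC6]; ring
      _ ≤ (c2 / 32 * A ^ (-κ) * X) * H := mul_le_mul_of_nonneg_right q3 hHpos.le
      _ = _ := by ring
  have q5 : (c2 / 32 * A ^ (-κ)) * (H * X) ≤ 2 * (Real.exp 1 * I0) := by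
    have : 1 / 8 * H * (c2 * (X * A ^ (-κ))) = 4 * ((c2 / 32 * A ^ (-κ)) * (H * X)) := by ring
    have h16 : (c2 / 16 * A ^ (-κ)) * (H * X) = 2 * ((c2 / 32 * A ^ (-κ)) * (H * X)) := by ring
    linarith
  have q6 : Real.log T ^ κ * (8 : ℝ) ^ (-κ) ≤ X := by
    have h8 : Real.log T ^ κ * (8 : ℝ) ^ (-κ) = (Real.log T / 8) ^ κ := by
      rw [Real.div_rpow hlogT.le (by norm_num), Real.rpow_neg (by norm_num), div_eq_mul_inv]
    rw [h8]
    exact Real.rpow_le_rpow (by positivity) g5 hκ.le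
  have he1 : 0 < Real.exp 1 := Real.exp_pos 1
  have q7 : (c2 / 32 * A ^ (-κ)) * (H * (Real.log T ^ κ * (8 : ℝ) ^ (-κ))) ≤ 2 * (Real.exp 1 * I0) :=
    le_trans (by gcongr) q5
  have q8 : c2 / 32 * A ^ (-κ) * (8 : ℝ) ^ (-κ) / (2 * Real.exp 1) * H * Real.log T ^ κ =
      (c2 / 32 * A ^ (-κ)) * (H * (Real.log T ^ κ * (8 : ℝ) ^ (-κ))) / (2 * Real.exp 1) := by ring
  rw [q8, div_le_iff₀ (by positivity)]
  linarith

end GG
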