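import Pool.Agent.Lib.MP_0f5a55_nt.GG.G05

open Complex MeasureTheory Set Filter Topology
open scoped Real ComplexConjugate

namespace GG

theorem G06_sum_gauss (x : ℝ) (n : ℕ) :
    ∑ i ∈ Finset.range n, Real.exp (-((x - i) ^ 2 / 4)) ≤
      Real.exp (1 / 4) * Real.sqrt (π / (1 / 8)) := by
  set f : ℝ → ℝ := fun s => Real.exp (-(1 / 8) * (s - x) ^ 2) with hf
  have hfc : Continuous f := by
    rw [hf]
    fun_prop
  have hfi : Integrable f := by
    have h1 := (integrable_exp_neg_mul_sq (by norm_num : (0 : ℝ) < 1 / 8)).comp_sub_right x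
    exact h1
  have hfint : ∫ s, f s = Real.sqrt (π / (1 / 8)) := by
    have h1 := integral_sub_right_eq_self (μ := volume)
      (fun s : ℝ => Real.exp (-(1 / 8) * s ^ 2)) x
    rw [integral_gaussian] at h1
    exact h1
  have hstep : ∀ i : ℕ, Real.exp (-((x - i) ^ 2 / 4)) ≤
      Real.exp (1 / 4) * ∫ s in ((i : ℕ) : ℝ)..((i + 1 : ℕ) : ℝ), f s := by
    intro i
    have h1 : ∫ _s in ((i : ℕ) : ℝ)..((i + 1 : ℕ) : ℝ), Real.exp (-((x - i) ^ 2 / 4) - 1 / 4) ≤
        ∫ s in ((i : ℕ) : ℝ)..((i + 1 : ℕ) : ℝ), f s := by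
      refine intervalIntegral.integral_mono_on (by push_cast; linarith)
        intervalIntegrable_const (hfc.intervalIntegrable _ _) ?_
      intro s hs
      rw [hf]
      simp only
      apply Real.exp_le_exp.mpr
      have h2 := hs.1
      have h3 := hs.2
      push_cast at h3
      nlinarith [sq_nonneg ((i : ℝ) - x - (s - i)), sq_nonneg (s - i), mul_nonneg (sub_nonneg.mpr h2)
        (by linarith : 0 ≤ (i : ℝ) + 1 - s)]
    rw [intervalIntegral.integral_const, smul_eq_mul] at h1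
    have h4 : (((i + 1 : ℕ) : ℝ) - ((i : ℕ) : ℝ)) = 1 := by push_cast; ring
    rw [h4, one_mul] at h1
    have h5 : Real.exp (-((x - i) ^ 2 / 4)) =
        Real.exp (1 / 4) * Real.exp (-((x - i) ^ 2 / 4) - 1 / 4) := by
      rw [← Real.exp_add]
      congr 1
      ring
    rw [h5]
    exact mul_le_mul_of_nonneg_left h1 (Real.exp_pos _).le
  refine (Finset.sum_le_sum fun i _ => hstep i).trans ?_
  rw [← Finset.mul_sum, intervalIntegral.sum_integral_adjacent_intervals
    (a := fun i : ℕ => (i : ℝ)) (fun k _ => hfc.intervalIntegrable _ _)]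
  refine mul_le_mul_of_nonneg_left ?_ (Real.exp_pos _).le
  rw [← hfint, intervalIntegral.integral_of_le (by simp)]
  exact setIntegral_le_integral hfi (ae_of_all _ fun s => (Real.exp_pos _).le)

theorem G06_tail (m : ℕ) {T v : ℝ} (hT : Real.exp (240 * (m + 3)) ≤ T) (hv : T / 4 ≤ |v|) :
    (1 + 9 * |v|) ^ m * Real.exp (-(v ^ 2 * Real.log T ^ 2 / (4 * T ^ 2))) ≤
      T⁻¹ * (1 + v ^ 2)⁻¹ := by
  have hm : (0 : ℝ) ≤ m := Nat.cast_nonneg m
  have hT0 : 0 < T := (Real.exp_pos _).trans_le hT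
  have hL : 240 * ((m : ℝ) + 3) ≤ Real.log T := (Real.le_log_iff_exp_le hT0).mpr hT
  have hT4 : 4 ≤ T := by
    have h1 := Real.add_one_le_exp (240 * ((m : ℝ) + 3))
    linarith
  set L := Real.log T with hLdef
  set w := |v| with hw
  have hw1 : 1 ≤ w := by linarith
  have hw0 : 0 < w := by linarith
  have hvw : v ^ 2 = w ^ 2 := (sq_abs v).symm
  rw [hvw]
  set r := w / T with hr
  have hr0 : 1 / 4 ≤ r := by
    rw [hr, le_div_iff₀ hT0]
    linarith
  have hwr : w = r * T := by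
    rw [hr]
    field_simp
  -- the exponent
  have h1 : w ^ 2 * L ^ 2 / (4 * T ^ 2) = r ^ 2 * L ^ 2 / 4 := by
    rw [hwr]
    field_simp
  rw [h1]
  have h2 : (1 + 9 * w) ^ m * (T * (1 + w ^ 2)) ≤ (10 * w) ^ (m + 3) := by
    have h3 : (1 + 9 * w) ^ m ≤ (10 * w) ^ m :=
      pow_le_pow_left₀ (by positivity) (by linarith) m
    have h4 : T * (1 + w ^ 2) ≤ (10 * w) ^ 3 := by
      have h5 : T ≤ 4 * w := by linarith
      have h6 : T * (1 + w ^ 2) ≤ 4 * w * (1 + w ^ 2) :=
        mul_le_mul_of_nonneg_right h5 (by positivity)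
      nlinarith [pow_pos hw0 3, mul_pos hw0 hw0]
    rw [pow_add]
    exact mul_le_mul h3 h4 (by positivity) (by positivity)
  have h7 : (10 * w) ^ (m + 3) ≤ Real.exp (r ^ 2 * L ^ 2 / 4) := by
    have h8 : (10 * w) ^ (m + 3) = Real.exp (((m : ℝ) + 3) * Real.log (10 * w)) := by
      rw [mul_comm ((m : ℝ) + 3), Real.exp_mul, Real.exp_log (by positivity)]
      rw [show ((m : ℝ) + 3) = ((m + 3 : ℕ) : ℝ) by push_cast; ring, Real.rpow_natCast]
    rw [h8]
    apply Real.exp_le_exp.mpr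
    have h9 : Real.log (10 * w) ≤ L + 10 * r := by
      have h10 : 10 * w = T * (10 * r) := by rw [hwr]; ring
      rw [h10, Real.log_mul (by positivity) (by positivity)]
      have h11 := Real.log_le_sub_one_of_pos (show 0 < 10 * r by positivity)
      linarith
    have hL0 : 0 < L := by nlinarith
    have h12 : L + 10 * r ≤ r * (4 * L + 10) := by nlinarith
    have h13 : ((m : ℝ) + 3) * (4 * L + 10) ≤ L ^ 2 / 16 := by nlinarith
    have h14 : ((m : ℝ) + 3) * Real.log (10 * w) ≤ ((m : ℝ) + 3) * (r * (4 * L + 10)) :=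
      mul_le_mul_of_nonneg_left (h9.trans h12) (by positivity)
    have h15 : ((m : ℝ) + 3) * (r * (4 * L + 10)) ≤ r * (L ^ 2 / 16) := by
      have : ((m : ℝ) + 3) * (r * (4 * L + 10)) = r * (((m : ℝ) + 3) * (4 * L + 10)) := by ring
      rw [this]
      exact mul_le_mul_of_nonneg_left h13 (by positivity)
    have h16 : r * (L ^ 2 / 16) ≤ r ^ 2 * L ^ 2 / 4 := by
      have h17 : 0 ≤ L ^ 2 := sq_nonneg L
      nlinarith [mul_nonneg (by positivity : 0 ≤ r * L ^ 2) (by linarith : 0 ≤ r - 1 / 4)]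
    linarith
  have h18 := h2.trans h7
  rw [Real.exp_neg, ← mul_inv, ← div_eq_mul_inv, div_le_iff₀ (Real.exp_pos _),
    ← div_eq_inv_mul, le_div_iff₀ (by positivity)]
  exact h18

/-- Row G06. From Gaussian weights to [T, 2T]. -/
theorem dyadic {F : ℂ → ℂ} {a b : ArithmeticFunction ℂ} {κ c1 C1 C : ℝ} {m : ℕ}
    (hG : ∃ G : ℂ → ℂ, (∀ s : ℂ, 0 < s.re → DifferentiableAt ℂ G s) ∧ ∀ s : ℂ, s ≠ 1 → G s = (s - 1) * F s)
    (hpol : ∀ s : ℂ, 1 / 2 ≤ s.re → s.re ≤ 2 → 1 ≤ |s.im| → ‖F s‖ ≤ C * (1 + |s.im|) ^ m)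
    (hFa : ∀ s : ℂ, 1 < s.re → LSeriesSummable a s ∧ F s = LSeries a s) (hab : b * b = a)
    (hb : Summable (fun n : ℕ => ‖b n‖ * (n : ℝ) ^ (-(3 / 2 : ℝ)))) (hκ : 0 < κ) (hc1 : 0 < c1)
    (hE : ∀ δ : ℝ, 0 < δ → δ ≤ 1 → Summable (fun n : ℕ => ‖b n‖ ^ 2 * (n : ℝ) ^ (-(1 + δ))) ∧
      c1 * δ ^ (-κ) ≤ ∑' n : ℕ, ‖b n‖ ^ 2 * (n : ℝ) ^ (-(1 + δ)) ∧
      ∑' n : ℕ, ‖b n‖ ^ 2 * (n : ℝ) ^ (-(1 + δ)) ≤ C1 * δ ^ (-κ)) :
    ∃ c T0 : ℝ, 0 < c ∧ 3 ≤ T0 ∧ ∀ T : ℝ, T0 ≤ T →
      c * T * Real.log T ^ κ ≤ ∫ t in Icc T (2 * T), ‖F (1 / 2 + t * I)‖ := by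
  obtain ⟨c, T0, hc, hT0, hcore⟩ := core hG hpol hFa hab hb hκ hc1 hE
  obtain ⟨G, hG1, hG2⟩ := hG
  -- continuity on the critical line
  have hcont : Continuous fun t : ℝ => F (1 / 2 + t * I) := by
    have h1 : (fun t : ℝ => F (1 / 2 + t * I)) =
        fun t : ℝ => G (1 / 2 + t * I) / ((1 / 2 + t * I : ℂ) - 1) := by
      funext t
      have hne : (1 / 2 + t * I : ℂ) ≠ 1 := by
        intro h
        have := congrArg Complex.re h
        norm_num at this
      rw [hG2 _ hne, mul_div_cancel_left₀ _ (sub_ne_zero.mpr hne)]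
    rw [h1]
    refine Continuous.div ?_ (by fun_prop) ?_
    · rw [continuous_iff_continuousAt]
      intro t
      have h2 : ContinuousAt G (1 / 2 + t * I) := (hG1 _ (by norm_num)).continuousAt
      exact ContinuousAt.comp (f := fun t : ℝ => (1 / 2 + t * I : ℂ)) h2
        (by fun_prop)
    · intro t h
      have := congrArg Complex.re h
      norm_num at this
  -- polynomial bound on the critical line
  obtain ⟨M, hM⟩ : ∃ M : ℝ, ∀ t ∈ Icc (-1 : ℝ) 1, ‖F (1 / 2 + t * I)‖ ≤ M :=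
    isCompact_Icc.exists_bound_of_continuousOn hcont.continuousOn
  set C' : ℝ := max (max C M) 1 with hC'
  have hC'1 : 1 ≤ C' := le_max_right _ _
  have hbd : ∀ t : ℝ, ‖F (1 / 2 + t * I)‖ ≤ C' * (1 + |t|) ^ m := by
    intro t
    by_cases ht : 1 ≤ |t|
    · have him : (1 / 2 + t * I : ℂ).im = t := by simp
      have hre : (1 / 2 + t * I : ℂ).re = 1 / 2 := by simp
      have h1 := hpol (1 / 2 + t * I) (by rw [hre]) (by rw [hre]; norm_num) (by rw [him]; exact ht)
      rw [him] at h1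
      refine h1.trans (mul_le_mul_of_nonneg_right ?_ (by positivity))
      exact (le_max_left _ _).trans (le_max_left _ _)
    · push Not at ht
      have h1 := hM t (abs_le.mp ht.le)
      have h2 : (1 : ℝ) ≤ (1 + |t|) ^ m := one_le_pow₀ (by linarith [abs_nonneg t])
      have h3 : M ≤ C' := (le_max_right _ _).trans (le_max_left _ _)
      nlinarith
  set CG : ℝ := Real.exp (1 / 4) * Real.sqrt (π / (1 / 8)) with hCG
  have hCG0 : 0 < CG := by positivity
  set T1 : ℝ := max (max T0 (Real.exp (240 * ((m : ℝ) + 3)))) (4 * C' * π / c) with hT1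
  refine ⟨c / (16 * CG), T1, by positivity, hT0.trans ((le_max_left _ _).trans (le_max_left _ _)),
    fun T hT => ?_⟩
  have hTT0 : T0 ≤ T := ((le_max_left _ _).trans (le_max_left _ _)).trans hT
  have hTe : Real.exp (240 * ((m : ℝ) + 3)) ≤ T :=
    ((le_max_right _ _).trans (le_max_left _ _)).trans hT
  have hTc : 4 * C' * π / c ≤ T := (le_max_right _ _).trans hT
  have hT3 : 3 ≤ T := hT0.trans hTT0
  have hTpos : 0 < T := by linarith
  set L : ℝ := Real.log T with hL
  have hm0 : (0 : ℝ) ≤ m := Nat.cast_nonneg m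
  have hL720 : 720 ≤ L := by
    have h1 : 240 * ((m : ℝ) + 3) ≤ L := (Real.le_log_iff_exp_le hTpos).mpr hTe
    linarith
  have hLpos : 0 < L := by linarith
  have hLT : L ≤ T := by
    have := Real.log_le_sub_one_of_pos hTpos
    linarith
  set n : ℕ := ⌊L / 2⌋₊ with hn
  have hn1 : (n : ℝ) ≤ L / 2 := Nat.floor_le (by positivity)
  have hn2 : L / 4 ≤ n := by
    have := Nat.lt_floor_add_one (L / 2)
    rw [← hn] at this
    linarith
  set τ : ℕ → ℝ := fun i => 5 * T / 4 + i * (T / L) with hτ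
  have hτ1 : ∀ i, 5 * T / 4 ≤ τ i := by
    intro i
    rw [hτ]
    have : 0 ≤ (i : ℝ) * (T / L) := by positivity
    simp only
    linarith
  have hτ2 : ∀ i ∈ Finset.range n, τ i ≤ 7 * T / 4 := by
    intro i hi
    have h1 : (i : ℝ) ≤ L / 2 := by
      have : (i : ℝ) ≤ n := by exact_mod_cast (Finset.mem_range.mp hi).le
      linarith
    have h2 : (i : ℝ) * (T / L) ≤ L / 2 * (T / L) := mul_le_mul_of_nonneg_right h1 (by positivity)
    have h3 : L / 2 * (T / L) = T / 2 := by field_simp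
    rw [hτ]
    simp only
    linarith
  have hlogτ1 : ∀ i, L ≤ Real.log (τ i) := fun i =>
    Real.log_le_log hTpos (by linarith [hτ1 i])
  have hlogτ2 : ∀ i ∈ Finset.range n, Real.log (τ i) ≤ 2 * L := by
    intro i hi
    have h1 : Real.log (τ i) ≤ Real.log (T * T) :=
      Real.log_le_log (by linarith [hτ1 i]) (by nlinarith [hτ2 i hi])
    rw [Real.log_mul hTpos.ne' hTpos.ne'] at h1
    linarith
  -- the widths
  have hH1 : ∀ i ∈ Finset.range n, τ i / Real.log (τ i) ≤ 2 * T / L := by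
    intro i hi
    have h1 := hτ2 i hi
    exact div_le_div₀ (by positivity) (by linarith) hLpos (hlogτ1 i)
  have hH0 : ∀ i, 0 < τ i / Real.log (τ i) := fun i =>
    div_pos (by linarith [hτ1 i]) (by linarith [hlogτ1 i])
  have hH2 : ∀ i ∈ Finset.range n, T / (2 * L) ≤ τ i / Real.log (τ i) := by
    intro i hi
    exact div_le_div₀ (by linarith [hτ1 i]) (by linarith [hτ1 i]) (by linarith [hlogτ1 i])
      (hlogτ2 i hi)
  have hexp : ∀ i ∈ Finset.range n, ∀ t : ℝ, (t - τ i) ^ 2 * L ^ 2 / (4 * T ^ 2) ≤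
      (t - τ i) ^ 2 / (τ i / Real.log (τ i)) ^ 2 := by
    intro i hi t
    have h1 : (τ i / Real.log (τ i)) ^ 2 ≤ (2 * T / L) ^ 2 :=
      pow_le_pow_left₀ (hH0 i).le (hH1 i hi) 2
    have h2 : (t - τ i) ^ 2 * L ^ 2 / (4 * T ^ 2) = (t - τ i) ^ 2 / (2 * T / L) ^ 2 := by
      field_simp
      ring
    rw [h2]
    exact div_le_div_of_nonneg_left (sq_nonneg _) (pow_pos (hH0 i) 2) h1
  set f : ℝ → ℝ := fun t => ‖F (1 / 2 + t * I)‖ with hf
  set g : ℕ → ℝ → ℝ := fun i t =>
    Real.exp (-((t - τ i) ^ 2 / (τ i / Real.log (τ i)) ^ 2)) with hg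
  have hfcont : Continuous f := hcont.norm
  have hgcont : ∀ i, Continuous (g i) := fun i => by
    rw [hg]
    simp only
    fun_prop
  have hcore' : ∀ i, Integrable (fun t => f t * g i t) ∧
      c * (τ i / Real.log (τ i)) * Real.log (τ i) ^ κ ≤ ∫ t, f t * g i t := fun i =>
    hcore (τ i) (by linarith [hτ1 i])
  -- lower bound
  have hlow : ∀ i ∈ Finset.range n, c * (T / (2 * L)) * L ^ κ ≤ ∫ t, f t * g i t := by
    intro i hi
    refine le_trans ?_ (hcore' i).2
    have h1 : L ^ κ ≤ Real.log (τ i) ^ κ := Real.rpow_le_rpow hLpos.le (hlogτ1 i) hκ.le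
    exact mul_le_mul (mul_le_mul_of_nonneg_left (hH2 i hi) hc.le) h1 (by positivity)
      (mul_nonneg hc.le (hH0 i).le)
  -- tails
  have htail : ∀ i ∈ Finset.range n, ∫ t in (Icc T (2 * T))ᶜ, f t * g i t ≤ C' * π / T := by
    intro i hi
    have hint : Integrable fun t : ℝ => C' * (T⁻¹ * (1 + (t - τ i) ^ 2)⁻¹) :=
      ((integrable_inv_one_add_sq.comp_sub_right (τ i)).const_mul T⁻¹).const_mul C'
    have h1 : ∫ t in (Icc T (2 * T))ᶜ, f t * g i t ≤
        ∫ t in (Icc T (2 * T))ᶜ, C' * (T⁻¹ * (1 + (t - τ i) ^ 2)⁻¹) := by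
      refine setIntegral_mono_on (hcore' i).1.integrableOn hint.integrableOn
        measurableSet_Icc.compl ?_
      intro t ht
      have hv : T / 4 ≤ |t - τ i| := by
        have h2 := hτ1 i
        have h3 := hτ2 i hi
        rw [Set.mem_compl_iff, Set.mem_Icc, not_and_or, not_le, not_le] at ht
        rcases ht with ht | ht
        · rw [abs_of_nonpos (by linarith)]
          linarith
        · rw [abs_of_nonneg (by linarith)]
          linarith
      have h4 : |t| ≤ 9 * |t - τ i| := by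
        have h5 : |t| ≤ |t - τ i| + |τ i| := by
          have := abs_add_le (t - τ i) (τ i)
          rwa [sub_add_cancel] at this
        have h6 : |τ i| = τ i := abs_of_nonneg (by linarith [hτ1 i])
        rw [h6] at h5
        linarith [hτ2 i hi]
      have h7 := G06_tail m hTe hv
      have h8 : f t ≤ C' * (1 + 9 * |t - τ i|) ^ m := by
        refine (hbd t).trans (mul_le_mul_of_nonneg_left ?_ (by linarith))
        exact pow_le_pow_left₀ (by positivity) (by linarith) m
      have h9 : g i t ≤ Real.exp (-((t - τ i) ^ 2 * L ^ 2 / (4 * T ^ 2))) :=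
        Real.exp_le_exp.mpr (neg_le_neg (hexp i hi t))
      calc f t * g i t ≤ (C' * (1 + 9 * |t - τ i|) ^ m) *
            Real.exp (-((t - τ i) ^ 2 * L ^ 2 / (4 * T ^ 2))) :=
            mul_le_mul h8 h9 (Real.exp_pos _).le (by positivity)
        _ = C' * ((1 + 9 * |t - τ i|) ^ m *
            Real.exp (-((t - τ i) ^ 2 * L ^ 2 / (4 * T ^ 2)))) := by ring
        _ ≤ C' * (T⁻¹ * (1 + (t - τ i) ^ 2)⁻¹) := mul_le_mul_of_nonneg_left h7 (by linarith)
    refine h1.trans ((setIntegral_le_integral hint (ae_of_all _ fun t => ?_)).trans (le_of_eq ?_))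
    · change (0 : ℝ) ≤ C' * (T⁻¹ * (1 + (t - τ i) ^ 2)⁻¹)
      positivity
    · rw [integral_const_mul, integral_const_mul,
        integral_sub_right_eq_self (μ := volume) (fun t : ℝ => (1 + t ^ 2)⁻¹) (τ i),
        integral_univ_inv_one_add_sq]
      field_simp
  -- the main part
  have hmain : ∑ i ∈ Finset.range n, ∫ t in Icc T (2 * T), f t * g i t ≤
      CG * ∫ t in Icc T (2 * T), f t := by
    rw [← integral_finsetSum _ fun i _ => (hcore' i).1.integrableOn, ← integral_const_mul]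
    have hfI : IntegrableOn f (Icc T (2 * T)) := hfcont.continuousOn.integrableOn_Icc
    refine setIntegral_mono_on ?_ (hfI.const_mul CG) measurableSet_Icc ?_
    · exact (continuous_finsetSum _ fun i _ => hfcont.mul (hgcont i)).continuousOn.integrableOn_Icc
    · intro t _
      rw [← Finset.mul_sum, mul_comm CG]
      refine mul_le_mul_of_nonneg_left ?_ (norm_nonneg _)
      refine le_trans (Finset.sum_le_sum fun i hi => ?_) (G06_sum_gauss ((t - 5 * T / 4) * L / T) n)
      apply Real.exp_le_exp.mpr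
      refine neg_le_neg ((le_of_eq ?_).trans (hexp i hi t))
      rw [hτ]
      simp only
      field_simp
      ring
  -- assembly
  have hsum : (n : ℝ) * (c * (T / (2 * L)) * L ^ κ) ≤
      CG * (∫ t in Icc T (2 * T), f t) + n * (C' * π / T) := by
    have h1 : (n : ℝ) * (c * (T / (2 * L)) * L ^ κ) =
        ∑ _i ∈ Finset.range n, c * (T / (2 * L)) * L ^ κ := by
      rw [Finset.sum_const, Finset.card_range, nsmul_eq_mul]
    rw [h1]
    refine (Finset.sum_le_sum hlow).trans ?_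
    have h2 : ∀ i ∈ Finset.range n, ∫ t, f t * g i t =
        (∫ t in Icc T (2 * T), f t * g i t) + ∫ t in (Icc T (2 * T))ᶜ, f t * g i t := fun i _ =>
      (integral_add_compl measurableSet_Icc (hcore' i).1).symm
    rw [Finset.sum_congr rfl h2, Finset.sum_add_distrib]
    have h3 : ∑ i ∈ Finset.range n, ∫ t in (Icc T (2 * T))ᶜ, f t * g i t ≤
        n * (C' * π / T) := by
      refine (Finset.sum_le_sum htail).trans (le_of_eq ?_)
      rw [Finset.sum_const, Finset.card_range, nsmul_eq_mul]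
    exact add_le_add hmain h3
  have hLκ : 1 ≤ L ^ κ := Real.one_le_rpow (by linarith) hκ.le
  have herr : C' * π / T ≤ c * (T / (4 * L)) * L ^ κ := by
    have h1 : 4 * C' * π ≤ c * T := by
      rw [div_le_iff₀ hc] at hTc
      linarith
    have h2 : C' * π / T ≤ c * (T / (4 * L)) := by
      rw [div_le_iff₀ hTpos]
      have h3 : c * (T / (4 * L)) * T = c * T * T / (4 * L) := by ring
      rw [h3, le_div_iff₀ (by positivity)]
      have h4 : C' * π * (4 * L) = 4 * C' * π * L := by ring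
      rw [h4]
      have h5 : 0 ≤ 4 * C' * π := by positivity
      nlinarith
    calc C' * π / T ≤ c * (T / (4 * L)) := h2
      _ = c * (T / (4 * L)) * 1 := by ring
      _ ≤ c * (T / (4 * L)) * L ^ κ := mul_le_mul_of_nonneg_left hLκ (by positivity)
  have hfin : (n : ℝ) * (c * (T / (4 * L)) * L ^ κ) ≤ CG * ∫ t in Icc T (2 * T), f t := by
    have h1 : c * (T / (2 * L)) * L ^ κ = 2 * (c * (T / (4 * L)) * L ^ κ) := by
      field_simp
      ring
    rw [h1] at hsum
    have h2 : (n : ℝ) * (C' * π / T) ≤ n * (c * (T / (4 * L)) * L ^ κ) :=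
      mul_le_mul_of_nonneg_left herr (Nat.cast_nonneg n)
    linarith
  have hfin2 : c * T * L ^ κ / 16 ≤ CG * ∫ t in Icc T (2 * T), f t := by
    refine le_trans ?_ hfin
    have h1 : c * T * L ^ κ / 16 = L / 4 * (c * (T / (4 * L)) * L ^ κ) := by
      field_simp
      ring
    rw [h1]
    exact mul_le_mul_of_nonneg_right hn2 (by positivity)
  have h9 : c / (16 * CG) * T * L ^ κ = c * T * L ^ κ / 16 / CG := by
    field_simp
  rw [h9, div_le_iff₀ hCG0]
  exact hfin2.trans (le_of_eq (mul_comm _ _))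

end GG
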