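import Mathlib

open Complex MeasureTheory Set Filter Topology
open scoped Real ComplexConjugate

namespace GG

theorem G07_aux {q : ℕ} [NeZero q] (ψ : DirichletCharacter ℂ q) : ∃ C : ℝ,
    ∀ δ : ℝ, 0 < δ → δ ≤ 1 →
      Summable (fun p : Nat.Primes => ‖ψ ((p : ℕ) : ZMod q)‖ * ((p : ℕ) : ℝ) ^ (-(1 + δ))) ∧
      |∑' p : Nat.Primes, (ψ ((p : ℕ) : ZMod q)).re * ((p : ℕ) : ℝ) ^ (-(1 + δ)) -
        Real.log ‖DirichletCharacter.LFunction ψ ((1 + δ : ℝ) : ℂ)‖| ≤ C := by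
  refine ⟨∑' p : Nat.Primes, ((p : ℕ) : ℝ) ^ (-2 : ℝ), fun δ hδ hδ1 => ?_⟩
  have hs2 : Summable (fun p : Nat.Primes => ((p : ℕ) : ℝ) ^ (-2 : ℝ)) :=
    Nat.Primes.summable_rpow.mpr (by norm_num)
  have hs1 : Summable (fun p : Nat.Primes => ((p : ℕ) : ℝ) ^ (-(1 + δ))) :=
    Nat.Primes.summable_rpow.mpr (by linarith)
  have hψ1 : ∀ p : Nat.Primes, ‖ψ ((p : ℕ) : ZMod q)‖ ≤ 1 := fun p => ψ.norm_le_one _
  have hpos : ∀ p : Nat.Primes, (0 : ℝ) ≤ ((p : ℕ) : ℝ) ^ (-(1 + δ)) := fun p =>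
    Real.rpow_nonneg (Nat.cast_nonneg _) _
  have hp2 : ∀ p : Nat.Primes, (2 : ℝ) ≤ ((p : ℕ) : ℝ) := fun p => by exact_mod_cast p.2.two_le
  have hsum : Summable (fun p : Nat.Primes =>
      ‖ψ ((p : ℕ) : ZMod q)‖ * ((p : ℕ) : ℝ) ^ (-(1 + δ))) := by
    refine Summable.of_nonneg_of_le (fun p => mul_nonneg (norm_nonneg _) (hpos p)) (fun p => ?_) hs1
    exact mul_le_of_le_one_left (hpos p) (hψ1 p)
  refine ⟨hsum, ?_⟩
  set s : ℂ := ((1 + δ : ℝ) : ℂ) with hs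
  have hsre : 1 < s.re := by rw [hs, ofReal_re]; linarith
  have hcp : ∀ p : Nat.Primes, (((p : ℕ) : ℂ)) ^ (-s) =
      ((((p : ℕ) : ℝ) ^ (-(1 + δ)) : ℝ) : ℂ) := by
    intro p
    rw [Complex.ofReal_cpow (Nat.cast_nonneg _)]
    simp [hs]
  set z : Nat.Primes → ℂ := fun p => ψ ((p : ℕ) : ZMod q) * ((p : ℕ) : ℂ) ^ (-s) with hz
  have hzn : ∀ p, ‖z p‖ = ‖ψ ((p : ℕ) : ZMod q)‖ * ((p : ℕ) : ℝ) ^ (-(1 + δ)) := by
    intro p
    simp only [hz]
    rw [norm_mul, hcp, Complex.norm_real, Real.norm_of_nonneg (hpos p)]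
  have hzre : ∀ p, (z p).re = (ψ ((p : ℕ) : ZMod q)).re * ((p : ℕ) : ℝ) ^ (-(1 + δ)) := by
    intro p
    simp only [hz]
    rw [hcp, Complex.re_mul_ofReal]
  have hzle : ∀ p, ‖z p‖ ≤ ((p : ℕ) : ℝ) ^ (-1 : ℝ) := by
    intro p
    rw [hzn]
    refine (mul_le_of_le_one_left (hpos p) (hψ1 p)).trans ?_
    exact Real.rpow_le_rpow_of_exponent_le (by linarith [hp2 p]) (by linarith)
  have hzhalf : ∀ p, ‖z p‖ ≤ 1 / 2 := by
    intro p
    refine (hzle p).trans ?_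
    rw [Real.rpow_neg_one, one_div]
    exact inv_anti₀ (by norm_num) (hp2 p)
  have hzsq : ∀ p, ‖z p‖ ^ 2 ≤ ((p : ℕ) : ℝ) ^ (-2 : ℝ) := by
    intro p
    have h1 := pow_le_pow_left₀ (norm_nonneg _) (hzle p) 2
    refine h1.trans (le_of_eq ?_)
    rw [← Real.rpow_natCast, ← Real.rpow_mul (Nat.cast_nonneg _)]
    norm_num
  have hzsum : Summable z := by
    refine Summable.of_norm ?_
    simpa only [hzn] using hsum
  set r : Nat.Primes → ℂ := fun p => -Complex.log (1 - z p) - z p with hr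
  have hrle : ∀ p, ‖r p‖ ≤ ((p : ℕ) : ℝ) ^ (-2 : ℝ) := by
    intro p
    have h1 : ‖-z p‖ < 1 := by rw [norm_neg]; linarith [hzhalf p]
    have h2 := Complex.norm_log_one_add_sub_self_le h1
    have h3 : r p = -(Complex.log (1 + -z p) - -z p) := by
      simp only [hr]; rw [← sub_eq_add_neg]; ring
    rw [h3, norm_neg]
    refine h2.trans ?_
    rw [norm_neg]
    have h4 : (1 - ‖z p‖)⁻¹ ≤ 2 := by
      rw [inv_le_comm₀ (by linarith [hzhalf p]) two_pos]
      linarith [hzhalf p]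
    have h5 : ‖z p‖ ^ 2 * (1 - ‖z p‖)⁻¹ / 2 ≤ ‖z p‖ ^ 2 := by
      have := mul_le_mul_of_nonneg_left h4 (sq_nonneg ‖z p‖)
      linarith
    exact h5.trans (hzsq p)
  have hrsum' : Summable (fun p => ‖r p‖) :=
    Summable.of_nonneg_of_le (fun p => norm_nonneg _) hrle hs2
  have hrsum : Summable r := Summable.of_norm hrsum'
  have hexp := DirichletCharacter.LSeries_eulerProduct_exp_log ψ hsre
  rw [← DirichletCharacter.LFunction_eq_LSeries ψ hsre] at hexp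
  have hS : ∑' p : Nat.Primes, -Complex.log (1 - ψ ((p : ℕ) : ZMod q) * ((p : ℕ) : ℂ) ^ (-s)) =
      ∑' p, z p + ∑' p, r p := by
    rw [← hzsum.tsum_add hrsum]
    refine tsum_congr fun p => ?_
    simp only [hr, hz]; ring
  rw [hS] at hexp
  have hlog : Real.log ‖DirichletCharacter.LFunction ψ s‖ = (∑' p, z p).re + (∑' p, r p).re := by
    rw [← hexp, Complex.norm_exp, Real.log_exp, Complex.add_re]
  have hre : ∑' p : Nat.Primes, (ψ ((p : ℕ) : ZMod q)).re * ((p : ℕ) : ℝ) ^ (-(1 + δ)) =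
      (∑' p, z p).re := by
    rw [Complex.re_tsum hzsum]
    exact tsum_congr fun p => (hzre p).symm
  rw [hre, hlog]
  have h6 : (∑' p, z p).re - ((∑' p, z p).re + (∑' p, r p).re) = -(∑' p, r p).re := by ring
  rw [h6, abs_neg]
  refine (Complex.abs_re_le_norm _).trans ?_
  refine (norm_tsum_le_tsum_norm hrsum').trans ?_
  exact hrsum'.tsum_le_tsum hrle hs2

/-- Row G07. Sums over primes near s = 1. -/
theorem prime_sum_nontriv {q : ℕ} [NeZero q] {ψ : DirichletCharacter ℂ q} (hψ : ψ ≠ 1) : ∃ C : ℝ,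
    ∀ δ : ℝ, 0 < δ → δ ≤ 1 →
      Summable (fun p : Nat.Primes => ‖ψ ((p : ℕ) : ZMod q)‖ * ((p : ℕ) : ℝ) ^ (-(1 + δ))) ∧
      |∑' p : Nat.Primes, (ψ ((p : ℕ) : ZMod q)).re * ((p : ℕ) : ℝ) ^ (-(1 + δ))| ≤ C := by
  obtain ⟨C, hC⟩ := G07_aux ψ
  have hcont : ContinuousOn (fun δ : ℝ =>
      Real.log ‖DirichletCharacter.LFunction ψ ((1 + δ : ℝ) : ℂ)‖) (Set.Icc 0 1) := by
    refine ContinuousOn.log ?_ ?_
    · refine Continuous.continuousOn ?_
      refine Continuous.norm ?_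
      exact (DirichletCharacter.differentiable_LFunction hψ).continuous.comp
        (Complex.continuous_ofReal.comp (continuous_const.add continuous_id))
    · intro δ hδ
      rw [norm_ne_zero_iff]
      refine DirichletCharacter.LFunction_ne_zero_of_one_le_re ψ (Or.inl hψ) ?_
      rw [Complex.ofReal_re]
      linarith [hδ.1]
  obtain ⟨K, hK⟩ := isCompact_Icc.exists_bound_of_continuousOn hcont
  refine ⟨C + K, fun δ hδ hδ1 => ⟨(hC δ hδ hδ1).1, ?_⟩⟩
  have h1 := (hC δ hδ hδ1).2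
  have h2 := hK δ ⟨hδ.le, hδ1⟩
  rw [Real.norm_eq_abs] at h2
  have h3 := abs_le.mp h1
  have h4 := abs_le.mp h2
  rw [abs_le]
  constructor <;> linarith [h3.1, h3.2, h4.1, h4.2]

theorem prime_sum_triv (q : ℕ) [NeZero q] : ∃ C : ℝ, ∀ δ : ℝ, 0 < δ → δ ≤ 1 →
      |∑' p : Nat.Primes, ((1 : DirichletCharacter ℂ q) ((p : ℕ) : ZMod q)).re *
        ((p : ℕ) : ℝ) ^ (-(1 + δ)) - Real.log (1 / δ)| ≤ C := by
  obtain ⟨C, hC⟩ := G07_aux (1 : DirichletCharacter ℂ q)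
  have hne : ∀ δ : ℝ, δ ∈ Set.Icc (0 : ℝ) 1 →
      DirichletCharacter.LFunctionTrivChar₁ q ((1 + δ : ℝ) : ℂ) ≠ 0 := by
    intro δ hδ
    by_cases h0 : δ = 0
    · subst h0
      simpa using! DirichletCharacter.LFunctionTrivChar₁_apply_one_ne_zero q
    · have h1 : ((1 + δ : ℝ) : ℂ) ≠ 1 := by
        intro h
        apply h0
        have := congrArg Complex.re h
        simp at this
        exact this
      rw [show DirichletCharacter.LFunctionTrivChar₁ q ((1 + δ : ℝ) : ℂ) =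
        (((1 + δ : ℝ) : ℂ) - 1) * DirichletCharacter.LFunction (1 : DirichletCharacter ℂ q)
          ((1 + δ : ℝ) : ℂ) from Function.update_of_ne h1 _ _]
      refine mul_ne_zero (sub_ne_zero.mpr h1) ?_
      refine DirichletCharacter.LFunction_ne_zero_of_one_le_re _ (Or.inr h1) ?_
      rw [Complex.ofReal_re]
      linarith [hδ.1]
  have hcont : ContinuousOn (fun δ : ℝ =>
      Real.log ‖DirichletCharacter.LFunctionTrivChar₁ q ((1 + δ : ℝ) : ℂ)‖) (Set.Icc 0 1) := by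
    refine ContinuousOn.log ?_ ?_
    · refine Continuous.continuousOn ?_
      refine Continuous.norm ?_
      exact (DirichletCharacter.differentiable_LFunctionTrivChar₁ q).continuous.comp
        (Complex.continuous_ofReal.comp (continuous_const.add continuous_id))
    · intro δ hδ
      rw [norm_ne_zero_iff]
      exact hne δ hδ
  obtain ⟨K, hK⟩ := isCompact_Icc.exists_bound_of_continuousOn hcont
  refine ⟨C + K, fun δ hδ hδ1 => ?_⟩
  have h1 := (hC δ hδ hδ1).2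
  have h2 := hK δ ⟨hδ.le, hδ1⟩
  rw [Real.norm_eq_abs] at h2
  have hs1 : ((1 + δ : ℝ) : ℂ) ≠ 1 := by
    intro h
    have := congrArg Complex.re h
    simp at this
    exact hδ.ne' this
  have h5 : Real.log ‖DirichletCharacter.LFunctionTrivChar₁ q ((1 + δ : ℝ) : ℂ)‖ =
      Real.log δ + Real.log ‖DirichletCharacter.LFunction (1 : DirichletCharacter ℂ q)
        ((1 + δ : ℝ) : ℂ)‖ := by
    rw [show DirichletCharacter.LFunctionTrivChar₁ q ((1 + δ : ℝ) : ℂ) =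
        (((1 + δ : ℝ) : ℂ) - 1) * DirichletCharacter.LFunction (1 : DirichletCharacter ℂ q)
          ((1 + δ : ℝ) : ℂ) from Function.update_of_ne hs1 _ _, norm_mul, Real.log_mul]
    · congr 2
      have : ((1 + δ : ℝ) : ℂ) - 1 = ((δ : ℝ) : ℂ) := by push_cast; ring
      rw [this, Complex.norm_real, Real.norm_of_nonneg hδ.le]
    · rw [norm_ne_zero_iff]
      exact sub_ne_zero.mpr hs1
    · rw [norm_ne_zero_iff]
      refine DirichletCharacter.LFunction_ne_zero_of_one_le_re _ (Or.inr hs1) ?_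
      rw [Complex.ofReal_re]
      linarith
  have h6 : Real.log (1 / δ) = -Real.log δ := by rw [one_div, Real.log_inv]
  rw [h5] at h2
  rw [h6]
  have h3 := abs_le.mp h1
  have h4 := abs_le.mp h2
  rw [abs_le]
  constructor <;> linarith [h3.1, h3.2, h4.1, h4.2]

end GG
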